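import Pool.Agent.H49R2.ACA.Defs

/-!
# T10: direct limit of `A` along an injective endomorphism `T`

The limit is realised as the subring of the germs at infinity of sequences `n ↦ T^(n-k) a`.
-/

namespace Pool.Agent.H49R2.ACA

open Filter

namespace T10

variable {A : Type} [CommRing A] (T : A →+* A)

lemma pow_succ_apply (m : ℕ) (a : A) : (T ^ (m + 1)) a = (T ^ m) (T a) := by
  rw [pow_succ]
  rfl

lemma pow_add_apply (m n : ℕ) (a : A) : (T ^ (m + n)) a = (T ^ m) ((T ^ n) a) := by
  rw [pow_add]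
  rfl

lemma pow_injective (hT : Function.Injective T) (m : ℕ) : Function.Injective (T ^ m : A →+* A) := by
  induction m with
  | zero =>
    intro a b h
    simpa using h
  | succ m ih =>
    intro a b h
    rw [pow_succ_apply, pow_succ_apply] at h
    exact hT (ih h)

/-- the germ of `n ↦ T^(n-k) a` -/
noncomputable def ofG (k : ℕ) : A →+* Germ (atTop : Filter ℕ) A :=
  (Germ.coeRingHom (atTop : Filter ℕ)).comp (RingHom.pi fun n => (T ^ (n - k) : A →+* A))

lemma ofG_apply (k : ℕ) (a : A) :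
    ofG T k a = ((fun n => (T ^ (n - k) : A →+* A) a : ℕ → A) : Germ (atTop : Filter ℕ) A) := rfl

lemma ofG_shift (k m : ℕ) (a : A) : ofG T k a = ofG T (k + m) ((T ^ m : A →+* A) a) := by
  rw [ofG_apply, ofG_apply, Germ.coe_eq]
  filter_upwards [eventually_ge_atTop (k + m)] with n hn
  rw [← pow_add_apply]
  congr 2
  omega

lemma ofG_injective (hT : Function.Injective T) (k : ℕ) : Function.Injective (ofG T k) := by
  intro a b h
  rw [ofG_apply, ofG_apply, Germ.coe_eq] at h
  obtain ⟨n, hn⟩ := h.exists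
  exact pow_injective T hT _ hn

/-- the limit -/
noncomputable def LS : Subring (Germ (atTop : Filter ℕ) A) where
  carrier := {g | ∃ (k : ℕ) (a : A), g = ofG T k a}
  mul_mem' := by
    rintro g h ⟨k, a, rfl⟩ ⟨l, b, rfl⟩
    refine ⟨k + l, (T ^ l : A →+* A) a * (T ^ k : A →+* A) b, ?_⟩
    rw [map_mul, ← ofG_shift, add_comm k l, ← ofG_shift]
  one_mem' := ⟨0, 1, (map_one _).symm⟩
  add_mem' := by
    rintro g h ⟨k, a, rfl⟩ ⟨l, b, rfl⟩
    refine ⟨k + l, (T ^ l : A →+* A) a + (T ^ k : A →+* A) b, ?_⟩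
    rw [map_add, ← ofG_shift, add_comm k l, ← ofG_shift]
  zero_mem' := ⟨0, 0, (map_zero _).symm⟩
  neg_mem' := by
    rintro g ⟨k, a, rfl⟩
    exact ⟨k, -a, (map_neg _ _).symm⟩

lemma mem_LS {g : Germ (atTop : Filter ℕ) A} : g ∈ LS T ↔ ∃ (k : ℕ) (a : A), g = ofG T k a :=
  Iff.rfl

/-- the maps to the limit -/
noncomputable def io (k : ℕ) : A →+* LS T :=
  (ofG T k).codRestrict (LS T) fun a => ⟨k, a, rfl⟩

lemma io_coe (k : ℕ) (a : A) : ((io T k a : LS T) : Germ (atTop : Filter ℕ) A) = ofG T k a := rfl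

lemma io_shift (k m : ℕ) (a : A) : io T k a = io T (k + m) ((T ^ m : A →+* A) a) :=
  Subtype.ext (ofG_shift T k m a)

lemma io_succ (k : ℕ) (a : A) : io T k a = io T (k + 1) (T a) := by
  have := io_shift T k 1 a
  rw [pow_one] at this
  exact this

lemma io_injective (hT : Function.Injective T) (k : ℕ) : Function.Injective (io T k) := by
  intro a b h
  exact ofG_injective T hT k (congrArg Subtype.val h)

lemma exists_io (g : LS T) : ∃ (k : ℕ) (a : A), g = io T k a := by
  obtain ⟨k, a, h⟩ := g.2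
  exact ⟨k, a, Subtype.ext h⟩

lemma exists_io_of_le {g : LS T} {k : ℕ} {a : A} (h : g = io T k a) {l : ℕ} (hl : k ≤ l) :
    ∃ b : A, g = io T l b := by
  refine ⟨(T ^ (l - k) : A →+* A) a, ?_⟩
  rw [h, io_shift T k (l - k) a, Nat.add_sub_cancel' hl]

lemma exists_io₂ (g h : LS T) : ∃ (k : ℕ) (a b : A), g = io T k a ∧ h = io T k b := by
  obtain ⟨k, a, ha⟩ := exists_io T g
  obtain ⟨l, b, hb⟩ := exists_io T h
  obtain ⟨a', ha'⟩ := exists_io_of_le T ha (Nat.le_add_right k l)
  obtain ⟨b', hb'⟩ := exists_io_of_le T hb (Nat.le_add_left l k)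
  exact ⟨k + l, a', b', ha', hb'⟩

lemma isDomain_LS [IsDomain A] (hT : Function.Injective T) : IsDomain (LS T) := by
  have h1 : Nontrivial (LS T) := (io_injective T hT 0).nontrivial
  have h2 : NoZeroDivisors (LS T) := by
    constructor
    intro g h hgh
    obtain ⟨k, a, b, rfl, rfl⟩ := exists_io₂ T g h
    rw [← map_mul, map_eq_zero_iff _ (io_injective T hT k), mul_eq_zero] at hgh
    rcases hgh with h | h
    · left; rw [h, map_zero]
    · right; rw [h, map_zero]
  exact NoZeroDivisors.to_isDomain _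

/-- the termwise derivation on germs -/
lemma map_d_ofG (δ : DerFam A) (hTd : ∀ i a, T (δ.d i a) = δ.d i (T a)) (i k : ℕ) (a : A) :
    Germ.map (δ.d i) (ofG T k a) = ofG T k (δ.d i a) := by
  have hpow : ∀ (m : ℕ) (a : A), (T ^ m : A →+* A) (δ.d i a) = δ.d i ((T ^ m : A →+* A) a) := by
    intro m
    induction m with
    | zero => intro a; simp
    | succ m ih => intro a; rw [pow_succ_apply, pow_succ_apply, hTd, ih]
  rw [ofG_apply, ofG_apply, Germ.map_coe, Germ.coe_eq]
  refine Filter.Eventually.of_forall fun n => ?_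
  exact (hpow _ _).symm

/-- the derivations of the limit -/
noncomputable def dL (δ : DerFam A) (hTd : ∀ i a, T (δ.d i a) = δ.d i (T a)) (i : ℕ) :
    LS T →+ LS T where
  toFun g := ⟨Germ.map (δ.d i) g.1, by
    obtain ⟨k, a, h⟩ := g.2
    rw [h, map_d_ofG T δ hTd]
    exact ⟨k, _, rfl⟩⟩
  map_zero' := by
    refine Subtype.ext ?_
    have h : ((0 : LS T) : Germ (atTop : Filter ℕ) A) = ofG T 0 0 := (map_zero _).symm
    show Germ.map (δ.d i) ((0 : LS T) : Germ (atTop : Filter ℕ) A) = ((0 : LS T) : _)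
    rw [h, map_d_ofG T δ hTd, map_zero]
  map_add' g h := by
    obtain ⟨k, a, b, rfl, rfl⟩ := exists_io₂ T g h
    refine Subtype.ext ?_
    show Germ.map (δ.d i) (((io T k a + io T k b : LS T)) : Germ (atTop : Filter ℕ) A) =
      Germ.map (δ.d i) ((io T k a : LS T) : Germ (atTop : Filter ℕ) A) +
        Germ.map (δ.d i) ((io T k b : LS T) : Germ (atTop : Filter ℕ) A)
    rw [← map_add, io_coe, io_coe, io_coe, map_d_ofG T δ hTd, map_d_ofG T δ hTd,
      map_d_ofG T δ hTd, map_add, map_add]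

lemma dL_io (δ : DerFam A) (hTd : ∀ i a, T (δ.d i a) = δ.d i (T a)) (i k : ℕ) (a : A) :
    dL T δ hTd i (io T k a) = io T k (δ.d i a) :=
  Subtype.ext (map_d_ofG T δ hTd i k a)

/-- the family of derivations of the limit -/
noncomputable def famL (δ : DerFam A) (hTd : ∀ i a, T (δ.d i a) = δ.d i (T a)) :
    DerFam (LS T) where
  d := dL T δ hTd
  leib i g h := by
    obtain ⟨k, a, b, rfl, rfl⟩ := exists_io₂ T g h
    rw [← map_mul, dL_io, dL_io, dL_io, δ.leib, map_add, map_mul, map_mul]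
  comm i j g := by
    obtain ⟨k, a, rfl⟩ := exists_io T g
    rw [dL_io, dL_io, dL_io, dL_io, δ.comm]

lemma famL_io (δ : DerFam A) (hTd : ∀ i a, T (δ.d i a) = δ.d i (T a)) (i k : ℕ) (a : A) :
    (famL T δ hTd).d i (io T k a) = io T k (δ.d i a) := dL_io T δ hTd i k a

lemma eval_map (δ : DerFam A) (hTd : ∀ i a, T (δ.d i a) = δ.d i (T a)) (k : ℕ) (a : A)
    (t : DTerm A) : (t.map (io T k)).eval (famL T δ hTd) (io T k a) = io T k (t.eval δ a) := by
  induction t with
  | const c => rfl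
  | var => rfl
  | add s t ihs iht =>
    simp only [DTerm.map, DTerm.eval]
    rw [ihs, iht, map_add]
  | mul s t ihs iht =>
    simp only [DTerm.map, DTerm.eval]
    rw [ihs, iht, map_mul]
  | der i t iht =>
    simp only [DTerm.map, DTerm.eval]
    rw [iht, famL_io]

lemma low_io (δ : DerFam A) (hTd : ∀ i a, T (δ.d i a) = δ.d i (T a))
    (hT : Function.Injective T) (n k : ℕ) (a : A) :
    Low (famL T δ hTd) n (io T k a) ↔ Low δ n a := by
  unfold Low
  refine forall_congr' fun i => forall_congr' fun _ => ?_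
  rw [famL_io, map_eq_zero_iff _ (io_injective T hT k)]

lemma consts_map {L M : Type} (f : L → M) (p : M → Prop) (q : L → Prop)
    (h : ∀ a, p (f a) → q a) (t : DTerm L) : (t.map f).ConstsIn p → t.ConstsIn q := by
  induction t with
  | const c => exact fun hc => h c hc
  | var => exact fun _ => trivial
  | add s t ihs iht => exact fun hc => ⟨ihs hc.1, iht hc.2⟩
  | mul s t ihs iht => exact fun hc => ⟨ihs hc.1, iht hc.2⟩
  | der i t iht => exact fun hc => iht hc

lemma map_map' {L M N : Type} (f : L → M) (g : M → N) (t : DTerm L) :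
    (t.map f).map g = t.map (fun a => g (f a)) := by
  induction t with
  | const c => rfl
  | var => rfl
  | add s t ihs iht => simp only [DTerm.map]; rw [ihs, iht]
  | mul s t ihs iht => simp only [DTerm.map]; rw [ihs, iht]
  | der i t iht => simp only [DTerm.map]; rw [iht]

lemma term_shift (t : DTerm A) (k m : ℕ) :
    t.map (io T k) = (t.map (T ^ m : A →+* A)).map (io T (k + m)) := by
  rw [map_map']
  congr 1
  funext a
  exact io_shift T k m a

lemma exists_term (t : DTerm (LS T)) : ∃ (k : ℕ) (t' : DTerm A), t = t'.map (io T k) := by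
  induction t with
  | const c =>
    obtain ⟨k, a, rfl⟩ := exists_io T c
    exact ⟨k, .const a, rfl⟩
  | var => exact ⟨0, .var, rfl⟩
  | add s t ihs iht =>
    obtain ⟨k, s', rfl⟩ := ihs
    obtain ⟨l, t', rfl⟩ := iht
    refine ⟨k + l, .add (s'.map (T ^ l : A →+* A)) (t'.map (T ^ k : A →+* A)), ?_⟩
    simp only [DTerm.map]
    rw [term_shift T s' k l, term_shift T t' l k, add_comm l k]
  | mul s t ihs iht =>
    obtain ⟨k, s', rfl⟩ := ihs
    obtain ⟨l, t', rfl⟩ := iht
    refine ⟨k + l, .mul (s'.map (T ^ l : A →+* A)) (t'.map (T ^ k : A →+* A)), ?_⟩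
    simp only [DTerm.map]
    rw [term_shift T s' k l, term_shift T t' l k, add_comm l k]
  | der i t iht =>
    obtain ⟨k, t', rfl⟩ := iht
    exact ⟨k, .der i t', rfl⟩

end T10

open T10 in
theorem exists_limit {A : Type} [CommRing A] [IsDomain A] [Algebra ℚ A] (δ : DerFam A)
    (hs : ∃ s : ℕ → A, ∀ i j, δ.d i (s j) = if i = j then 1 else 0)
    (T : A →+* A) (hT : Function.Injective T) (hTd : ∀ i a, T (δ.d i a) = δ.d i (T a))
    (hstep : ∀ (n : ℕ) (t : DTerm A), t.ConstsIn (Low δ n) →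
      (∃ a b, Low δ n a ∧ Low δ n b ∧ t.eval δ a ≠ t.eval δ b) →
      ∃ a, Low δ n a ∧ (t.map T).eval δ a = 0) :
    ∃ (L : Type) (_ : CommRing L) (_ : IsDomain L) (_ : Algebra ℚ L) (δ : DerFam L),
      (∃ s : ℕ → L, ∀ i j, δ.d i (s j) = if i = j then 1 else 0) ∧
      ∀ (n : ℕ) (t : DTerm L), t.ConstsIn (Low δ n) →
        (∃ a b, Low δ n a ∧ Low δ n b ∧ t.eval δ a ≠ t.eval δ b) →
        ∃ a, Low δ n a ∧ t.eval δ a = 0 := by
  refine ⟨LS T, inferInstance, isDomain_LS T hT, ((io T 0).comp (algebraMap ℚ A)).toAlgebra,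
    famL T δ hTd, ?_, ?_⟩
  · obtain ⟨s, hs⟩ := hs
    refine ⟨fun j => io T 0 (s j), fun i j => ?_⟩
    rw [famL_io, hs i j]
    split_ifs
    · rw [map_one]
    · rw [map_zero]
  · intro n t ht ⟨a, b, ha, hb, hab⟩
    obtain ⟨k, t', rfl⟩ := exists_term T t
    obtain ⟨l, a', b', rfl, rfl⟩ := exists_io₂ T a b
    -- common stage
    have e1 : t'.map (io T k) = (t'.map (T ^ l : A →+* A)).map (io T (k + l)) := term_shift T t' k l
    have ea : io T l a' = io T (k + l) ((T ^ k : A →+* A) a') := by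
      rw [io_shift T l k, add_comm l k]
    have eb : io T l b' = io T (k + l) ((T ^ k : A →+* A) b') := by
      rw [io_shift T l k, add_comm l k]
    set m := k + l with hm
    set t'' := t'.map (T ^ l : A →+* A) with ht''
    rw [e1] at ht hab ⊢
    rw [ea, low_io T δ hTd hT] at ha
    rw [eb, low_io T δ hTd hT] at hb
    rw [ea, eb, eval_map, eval_map] at hab
    have hab' : t''.eval δ ((T ^ k : A →+* A) a') ≠ t''.eval δ ((T ^ k : A →+* A) b') :=
      fun h => hab (by rw [h])
    have ht2 : t''.ConstsIn (Low δ n) :=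
      consts_map _ _ _ (fun c hc => (low_io T δ hTd hT n m c).1 hc) t'' ht
    obtain ⟨c, hc1, hc2⟩ := hstep n t'' ht2 ⟨_, _, ha, hb, hab'⟩
    refine ⟨io T (m + 1) c, (low_io T δ hTd hT n (m + 1) c).2 hc1, ?_⟩
    have e3 : t''.map (io T m) = (t''.map T).map (io T (m + 1)) := by
      rw [map_map' (T : A → A) (io T (m + 1)) t'']
      congr 1
      funext x
      exact io_succ T m x
    rw [e3, eval_map, hc2, map_zero]

end Pool.Agent.H49R2.ACA
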