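import Pool.Agent.H49R2.ACA.T9
import Pool.Agent.H49R2.ACA.T10

/-!
# Existence of a ring closed under solving differential equations
-/

namespace Pool.Agent.H49R2.ACA

theorem exists_closed :
    ∃ (L : Type) (_ : CommRing L) (_ : IsDomain L) (_ : Algebra ℚ L) (δ : DerFam L),
      (∃ s : ℕ → L, ∀ i j, δ.d i (s j) = if i = j then 1 else 0) ∧
      ∀ (n : ℕ) (t : DTerm L), t.ConstsIn (Low δ n) →
        (∃ a b, Low δ n a ∧ Low δ n b ∧ t.eval δ a ≠ t.eval δ b) →
        ∃ a, Low δ n a ∧ t.eval δ a = 0 := by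
  obtain ⟨T, hT, hTd, hstep⟩ := exists_step
  have := T9_isDomain
  refine exists_limit (dps ℂ) ⟨fun j => MvPowerSeries.X j, fun i j => ?_⟩ T hT hTd hstep
  rw [dps_d]
  split_ifs with h
  · subst h
    exact MvPowerSeries.pderiv_X_self
  · exact MvPowerSeries.pderiv_X_of_ne (fun h' => h h'.symm)

end Pool.Agent.H49R2.ACA
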