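import Mathlib

/-!
# Definitions for the construction of an algebraically closed associative algebra

* `Deform L`: a formal deformation `a ⋆ b = ∑ ħ^n B n a b` of a commutative ring `L`;
* `SH D`: Hahn series `∑ x_q ħ^q` (`q ∈ ℚ`, coefficients in `L`), to be multiplied with the star product of `D`;
* `GTerm`: syntactic generalised (noncommutative) polynomials in one variable;
* `DTerm`: syntactic differential polynomials in one variable;
* `IsD D`: the functions `L → L` built from constants and the identity with `+` and the `B n`.
-/

namespace Pool.Agent.H49R2.ACA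

open Finset

structure Deform (L : Type) [CommRing L] where
  B : ℕ → L →+ L →+ L
  B_zero : ∀ a b, B 0 a b = a * b
  B_one_right : ∀ n a, B (n + 1) a 1 = 0
  B_one_left : ∀ n a, B (n + 1) 1 a = 0
  assoc : ∀ n a b c, ∑ p ∈ antidiagonal n, B p.1 (B p.2 a b) c =
    ∑ p ∈ antidiagonal n, B p.1 a (B p.2 b c)

/-- Hahn series over `L` with rational exponents (the additive group; the ring structure is the
star product of `D`, see `StarRing.lean`). -/
def SH {L : Type} [CommRing L] (_D : Deform L) : Type := HahnSeries ℚ L

namespace SH

variable {L : Type} [CommRing L] {D : Deform L}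

noncomputable instance : AddCommGroup (SH D) := inferInstanceAs (AddCommGroup (HahnSeries ℚ L))

/-- the element of `SH D` given by a Hahn series (identity) -/
def mk (x : HahnSeries ℚ L) : SH D := x

/-- the Hahn series of an element of `SH D` (identity) -/
def toHahn (x : SH D) : HahnSeries ℚ L := x

def coeff (x : SH D) (e : ℚ) : L := HahnSeries.coeff (toHahn x) e

noncomputable def single (q : ℚ) (a : L) : SH D := mk (HahnSeries.single q a)

@[ext] theorem ext {x y : SH D} (h : ∀ e, x.coeff e = y.coeff e) : x = y :=
  HahnSeries.ext (funext h)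

@[simp] theorem coeff_mk (x : HahnSeries ℚ L) (e : ℚ) : (mk x : SH D).coeff e = x.coeff e := rfl

@[simp] theorem coeff_zero (e : ℚ) : (0 : SH D).coeff e = 0 := rfl

@[simp] theorem coeff_add (x y : SH D) (e : ℚ) : (x + y).coeff e = x.coeff e + y.coeff e := rfl

@[simp] theorem coeff_neg (x : SH D) (e : ℚ) : (-x).coeff e = -x.coeff e := rfl

@[simp] theorem coeff_sub (x y : SH D) (e : ℚ) : (x - y).coeff e = x.coeff e - y.coeff e := rfl

theorem coeff_single (q : ℚ) (a : L) (e : ℚ) :
    (single q a : SH D).coeff e = if e = q then a else 0 := by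
  unfold single
  rw [coeff_mk, HahnSeries.coeff_single]
  split_ifs <;> rfl

/-- support of an element -/
def supp (x : SH D) : Set ℚ := {e | x.coeff e ≠ 0}

theorem isPWO_supp (x : SH D) : x.supp.IsPWO := (toHahn x).isPWO_support

end SH

/-- a countable family of commuting derivations -/
structure DerFam (A : Type) [CommRing A] where
  d : ℕ → A →+ A
  leib : ∀ i a b, d i (a * b) = d i a * b + a * d i b
  comm : ∀ i j a, d i (d j a) = d j (d i a)

/-- syntactic generalised polynomials in one variable with coefficients in `V` -/
inductive GTerm (V : Type)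
  | const (v : V) : GTerm V
  | var : GTerm V
  | add (s t : GTerm V) : GTerm V
  | mul (s t : GTerm V) : GTerm V

namespace GTerm

variable {V W : Type}

def eval [Add V] [Mul V] : GTerm V → V → V
  | const v, _ => v
  | var, x => x
  | add s t, x => s.eval x + t.eval x
  | mul s t, x => s.eval x * t.eval x

def map (f : V → W) : GTerm V → GTerm W
  | const v => const (f v)
  | var => var
  | add s t => add (s.map f) (t.map f)
  | mul s t => mul (s.map f) (t.map f)

end GTerm

/-- syntactic differential polynomials in one variable with coefficients in `L` -/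
inductive DTerm (L : Type)
  | const (a : L) : DTerm L
  | var : DTerm L
  | add (s t : DTerm L) : DTerm L
  | mul (s t : DTerm L) : DTerm L
  | der (i : ℕ) (t : DTerm L) : DTerm L

namespace DTerm

variable {L M : Type}

def eval [CommRing L] (δ : DerFam L) : DTerm L → L → L
  | const a, _ => a
  | var, x => x
  | add s t, x => s.eval δ x + t.eval δ x
  | mul s t, x => s.eval δ x * t.eval δ x
  | der i t, x => δ.d i (t.eval δ x)

def map (f : L → M) : DTerm L → DTerm M
  | const a => const (f a)
  | var => var
  | add s t => add (s.map f) (t.map f)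
  | mul s t => mul (s.map f) (t.map f)
  | der i t => der i (t.map f)

/-- all constants occurring in the term satisfy `p` -/
def ConstsIn (p : L → Prop) : DTerm L → Prop
  | const a => p a
  | var => True
  | add s t => s.ConstsIn p ∧ t.ConstsIn p
  | mul s t => s.ConstsIn p ∧ t.ConstsIn p
  | der _ t => t.ConstsIn p

end DTerm

/-- functions `L → L` built from constants and the identity by addition and the operations `B n`
(`B 0` is the multiplication) -/
inductive IsD {L : Type} [CommRing L] (D : Deform L) : (L → L) → Prop
  | const (a : L) : IsD D (fun _ => a)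
  | id : IsD D (fun x => x)
  | add {φ ψ : L → L} (hφ : IsD D φ) (hψ : IsD D ψ) : IsD D (fun x => φ x + ψ x)
  | op (n : ℕ) {φ ψ : L → L} (hφ : IsD D φ) (hψ : IsD D ψ) : IsD D (fun x => D.B n (φ x) (ψ x))

/-- elements killed by all derivations `d i` with `i ≥ m` -/
def Low {L : Type} [CommRing L] (δ : DerFam L) (m : ℕ) (a : L) : Prop :=
  ∀ i, m ≤ i → δ.d i a = 0

/-- the derivations `∂/∂s_i` of a power series ring -/
noncomputable def dps (Ω : Type) [CommRing Ω] : DerFam (MvPowerSeries ℕ Ω) where
  d i := (MvPowerSeries.pderiv Ω i).toLinearMap.toAddMonoidHom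
  leib i a b := by
    change MvPowerSeries.pderiv Ω i (a * b) = MvPowerSeries.pderiv Ω i a * b +
      a * MvPowerSeries.pderiv Ω i b
    rw [Derivation.leibniz, smul_eq_mul, smul_eq_mul]; ring
  comm i j a := by
    change MvPowerSeries.pderiv Ω i (MvPowerSeries.pderiv Ω j a) =
      MvPowerSeries.pderiv Ω j (MvPowerSeries.pderiv Ω i a)
    ext n
    simp only [MvPowerSeries.coeff_pderiv]
    rcases eq_or_ne i j with rfl | hij
    · rfl
    · have h1 : n + Finsupp.single i 1 + Finsupp.single j 1 =
        n + Finsupp.single j 1 + Finsupp.single i 1 := by abel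
      rw [h1]
      simp [hij, hij.symm]
      ring

theorem dps_d (Ω : Type) [CommRing Ω] (i : ℕ) (a : MvPowerSeries ℕ Ω) :
    (dps Ω).d i a = MvPowerSeries.pderiv Ω i a := rfl

end Pool.Agent.H49R2.ACA
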