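import Pool.Agent.Results.MP_4b1745_al.OneVariable

/-!
# The free product of the Starting point file fits the abstract form
-/

namespace Pool.Agent.H49R2.ACA

open Pool.Agent.Results.MP_4b1745_al.OneVariable

theorem algClosedIn_of (P R : Type) [Field P] [Ring R] [Algebra P R]
    (h : ∀ (E : Type) (_ : Ring E) (_ : Algebra P E) (j : R →ₐ[P] E) (x : ℕ → E)
        (_ : Algebra.adjoin P (Set.range j ∪ Set.range x) = ⊤) (ev : (ℕ → R) → (E →ₐ[P] R))
        (_ : ∀ r a, ev r (j a) = a) (_ : ∀ r i, ev r (x i) = r i),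
        ∀ f : E, f ∉ Set.range j → ∃ r : ℕ → R, ev r f = 0) : AlgClosedIn P R ℕ := by
  intro f hf
  refine h (FreeOver P R ℕ) inferInstance inferInstance (const P R ℕ) (var P R ℕ) ?_
    (fun r => evalAt r) (fun r a => ?_) (fun r i => ?_) f hf
  · rw [eq_top_iff]
    intro g _
    induction g using induct with
    | hc a => exact Algebra.subset_adjoin (Or.inl ⟨a, rfl⟩)
    | hv i => exact Algebra.subset_adjoin (Or.inr ⟨i, rfl⟩)
    | hadd f g hf hg => exact add_mem (hf Algebra.mem_top) (hg Algebra.mem_top)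
    | hmul f g hf hg => exact mul_mem (hf Algebra.mem_top) (hg Algebra.mem_top)
  · exact lift_const _ _ _
  · exact lift_var _ _ _

end Pool.Agent.H49R2.ACA
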