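import Pool.Agent.H49R2.ACA.Defs

/-!
T11: the star product of a family of commuting derivations is a formal deformation
-/

namespace Pool.Agent.H49R2.ACA

open Finset

namespace T11

section
variable {L : Type} [CommRing L] [Algebra ℚ L] (δ : DerFam L)

/-- the coefficients of the star product -/
noncomputable def Bf : ℕ → L → L → L
  | 0, a, b => a * b
  | n + 1, a, b => ((n : ℚ) + 1)⁻¹ • ∑ s : Fin (n + 1),
      (((s : ℕ) : ℚ) + 1) • Bf (n - s) (δ.d (2 * s) a) (δ.d (2 * s + 1) b)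
  termination_by n => n
  decreasing_by omega

theorem Bf_zero (a b : L) : Bf δ 0 a b = a * b := by rw [Bf]

theorem Bf_succ' (n : ℕ) (a b : L) : ((n : ℚ) + 1) • Bf δ (n + 1) a b =
    ∑ s ∈ range (n + 1), ((s : ℚ) + 1) • Bf δ (n - s) (δ.d (2 * s) a) (δ.d (2 * s + 1) b) := by
  rw [Bf, smul_smul, mul_inv_cancel₀ (by positivity), one_smul, Finset.sum_range]

theorem Bf_succ (n : ℕ) (a b : L) : ((n : ℚ) + 1) • Bf δ (n + 1) a b =
    ∑ p ∈ antidiagonal n,
      ((p.1 : ℚ) + 1) • Bf δ p.2 (δ.d (2 * p.1) a) (δ.d (2 * p.1 + 1) b) := by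
  rw [Bf_succ', Finset.Nat.sum_antidiagonal_eq_sum_range_succ_mk]

theorem smul_cancel' (n : ℕ) {x y : L} (h : ((n : ℚ) + 1) • x = ((n : ℚ) + 1) • y) : x = y := by
  have h1 : ((n : ℚ) + 1) ≠ 0 := by positivity
  have h2 := congrArg (fun z => ((n : ℚ) + 1)⁻¹ • z) h
  simpa [smul_smul, inv_mul_cancel₀ h1] using h2

theorem Bf_add_left (n : ℕ) : ∀ a a' b : L, Bf δ n (a + a') b = Bf δ n a b + Bf δ n a' b := by
  induction n using Nat.strong_induction_on with
  | _ n ih =>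
    cases n with
    | zero => intro a a' b; simp only [Bf_zero]; ring
    | succ n =>
      intro a a' b
      apply smul_cancel' n
      rw [smul_add, Bf_succ', Bf_succ', Bf_succ', ← Finset.sum_add_distrib]
      refine Finset.sum_congr rfl fun s _ => ?_
      rw [map_add, ih (n - s) (by omega), smul_add]

theorem Bf_add_right (n : ℕ) : ∀ a b b' : L, Bf δ n a (b + b') = Bf δ n a b + Bf δ n a b' := by
  induction n using Nat.strong_induction_on with
  | _ n ih =>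
    cases n with
    | zero => intro a b b'; simp only [Bf_zero]; ring
    | succ n =>
      intro a b b'
      apply smul_cancel' n
      rw [smul_add, Bf_succ', Bf_succ', Bf_succ', ← Finset.sum_add_distrib]
      refine Finset.sum_congr rfl fun s _ => ?_
      rw [map_add, ih (n - s) (by omega), smul_add]

/-- the biadditive maps -/
noncomputable def BB (n : ℕ) : L →+ L →+ L :=
  AddMonoidHom.mk' (fun a => AddMonoidHom.mk' (fun b => Bf δ n a b) (Bf_add_right δ n a))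
    (fun a a' => by ext b; exact Bf_add_left δ n a a' b)

theorem BB_apply (n : ℕ) (a b : L) : BB δ n a b = Bf δ n a b := rfl

theorem BB_zero (a b : L) : BB δ 0 a b = a * b := Bf_zero δ a b

theorem BB_succ (n : ℕ) (a b : L) : ((n : ℚ) + 1) • BB δ (n + 1) a b =
    ∑ p ∈ antidiagonal n,
      ((p.1 : ℚ) + 1) • BB δ p.2 (δ.d (2 * p.1) a) (δ.d (2 * p.1 + 1) b) := Bf_succ δ n a b

theorem BB_smul_left (n : ℕ) (c : ℚ) (a b : L) : BB δ n (c • a) b = c • BB δ n a b := by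
  have := map_rat_smul (BB δ n) c a
  rw [this]; rfl

theorem BB_smul_right (n : ℕ) (c : ℚ) (a b : L) : BB δ n a (c • b) = c • BB δ n a b :=
  map_rat_smul (BB δ n a) c b

theorem BB_sum_left {ι : Type*} (n : ℕ) (s : Finset ι) (f : ι → L) (b : L) :
    BB δ n (∑ i ∈ s, f i) b = ∑ i ∈ s, BB δ n (f i) b := by
  rw [map_sum, AddMonoidHom.finsetSum_apply]

theorem d_smul (i : ℕ) (c : ℚ) (a : L) : δ.d i (c • a) = c • δ.d i a := map_rat_smul (δ.d i) c a

theorem d_one (i : ℕ) : δ.d i 1 = 0 := by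
  have := δ.leib i 1 1
  simpa using this

/-- the derivations are derivations of all the `B n` -/
theorem BB_der (n : ℕ) : ∀ (i : ℕ) (a b : L),
    δ.d i (BB δ n a b) = BB δ n (δ.d i a) b + BB δ n a (δ.d i b) := by
  induction n using Nat.strong_induction_on with
  | _ n ih =>
    cases n with
    | zero => intro i a b; simp only [BB_zero]; exact δ.leib i a b
    | succ n =>
      intro i a b
      apply smul_cancel' n
      rw [← d_smul, smul_add, BB_succ, BB_succ, BB_succ, map_sum, ← Finset.sum_add_distrib]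
      refine Finset.sum_congr rfl fun p hp => ?_
      have hp2 : p.2 < n + 1 := by
        have := mem_antidiagonal.1 hp
        omega
      rw [d_smul, ih p.2 hp2, smul_add, δ.comm i, δ.comm i]

theorem triple (n : ℕ) (f : ℕ → ℕ → ℕ → L) :
    ∑ p ∈ antidiagonal n, ∑ q ∈ antidiagonal p.1, f q.1 q.2 p.2 =
      ∑ p ∈ antidiagonal n, ∑ q ∈ antidiagonal p.2, f p.1 q.1 q.2 := by
  simp only [Finset.sum_sigma']
  apply Finset.sum_nbij' (fun ⟨⟨_i, j⟩, ⟨k, l⟩⟩ ↦ ⟨(k, l + j), (l, j)⟩)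
    (fun ⟨⟨i, _j⟩, ⟨k, l⟩⟩ ↦ ⟨(i + k, l), (i, k)⟩) <;> aesop (add simp [add_assoc])

theorem triple' (n : ℕ) (f : ℕ → ℕ → ℕ → L) :
    ∑ p ∈ antidiagonal n, ∑ q ∈ antidiagonal p.2, f p.1 q.1 q.2 =
      ∑ p ∈ antidiagonal n, ∑ q ∈ antidiagonal p.2, f q.1 p.1 q.2 := by
  rw [← triple, ← triple n (fun i j k => f j i k)]
  refine Finset.sum_congr rfl fun p _ => ?_
  rw [← Finset.Nat.sum_antidiagonal_swap]
  rfl

/-- left bracketing -/
noncomputable def AL (n : ℕ) (a b c : L) : L :=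
  ∑ p ∈ antidiagonal n, BB δ p.1 (BB δ p.2 a b) c

/-- right bracketing -/
noncomputable def AR (n : ℕ) (a b c : L) : L :=
  ∑ p ∈ antidiagonal n, BB δ p.1 a (BB δ p.2 b c)

theorem split_sum (n : ℕ) (f : ℕ → ℕ → L) :
    ((n : ℚ) + 1) • ∑ p ∈ antidiagonal (n + 1), f p.1 p.2 =
      ∑ p ∈ antidiagonal n, ((p.1 : ℚ) + 1) • f (p.1 + 1) p.2 +
      ∑ p ∈ antidiagonal n, ((p.2 : ℚ) + 1) • f p.1 (p.2 + 1) := by
  have h1 : ∑ p ∈ antidiagonal n, ((p.1 : ℚ) + 1) • f (p.1 + 1) p.2 =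
      ∑ p ∈ antidiagonal (n + 1), (p.1 : ℚ) • f p.1 p.2 := by
    rw [Finset.Nat.sum_antidiagonal_succ]
    simp
  have h2 : ∑ p ∈ antidiagonal n, ((p.2 : ℚ) + 1) • f p.1 (p.2 + 1) =
      ∑ p ∈ antidiagonal (n + 1), (p.2 : ℚ) • f p.1 p.2 := by
    rw [Finset.Nat.sum_antidiagonal_succ']
    simp
  rw [h1, h2, ← Finset.sum_add_distrib, Finset.smul_sum]
  refine Finset.sum_congr rfl fun p hp => ?_
  rw [← add_smul]
  congr 1
  have := mem_antidiagonal.1 hp
  exact_mod_cast this.symm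

theorem AL_succ (n : ℕ) (a b c : L) : ((n : ℚ) + 1) • AL δ (n + 1) a b c =
    ∑ p ∈ antidiagonal n, ((p.1 : ℚ) + 1) •
      (AL δ p.2 (δ.d (2 * p.1) a) b (δ.d (2 * p.1 + 1) c) +
       AL δ p.2 a (δ.d (2 * p.1) b) (δ.d (2 * p.1 + 1) c) +
       AL δ p.2 (δ.d (2 * p.1) a) (δ.d (2 * p.1 + 1) b) c) := by
  unfold AL
  rw [split_sum n (fun i j => BB δ i (BB δ j a b) c)]
  have h1 : ∑ p ∈ antidiagonal n, ((p.1 : ℚ) + 1) • BB δ (p.1 + 1) (BB δ p.2 a b) c =
      ∑ p ∈ antidiagonal n, ∑ q ∈ antidiagonal p.2, ((p.1 : ℚ) + 1) •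
        (BB δ q.1 (BB δ q.2 (δ.d (2 * p.1) a) b) (δ.d (2 * p.1 + 1) c) +
         BB δ q.1 (BB δ q.2 a (δ.d (2 * p.1) b)) (δ.d (2 * p.1 + 1) c)) := by
    rw [← triple n (fun s i j => ((s : ℚ) + 1) •
      (BB δ i (BB δ j (δ.d (2 * s) a) b) (δ.d (2 * s + 1) c) +
         BB δ i (BB δ j a (δ.d (2 * s) b)) (δ.d (2 * s + 1) c)))]
    refine Finset.sum_congr rfl fun p _ => ?_
    rw [BB_succ]
    refine Finset.sum_congr rfl fun q _ => ?_
    rw [BB_der, map_add, AddMonoidHom.add_apply]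
  have h2 : ∑ p ∈ antidiagonal n, ((p.2 : ℚ) + 1) • BB δ p.1 (BB δ (p.2 + 1) a b) c =
      ∑ p ∈ antidiagonal n, ∑ q ∈ antidiagonal p.2, ((p.1 : ℚ) + 1) •
        BB δ q.1 (BB δ q.2 (δ.d (2 * p.1) a) (δ.d (2 * p.1 + 1) b)) c := by
    rw [← triple' n (fun i s j => ((s : ℚ) + 1) •
      BB δ i (BB δ j (δ.d (2 * s) a) (δ.d (2 * s + 1) b)) c)]
    refine Finset.sum_congr rfl fun p _ => ?_
    rw [← BB_smul_left, BB_succ, BB_sum_left]
    refine Finset.sum_congr rfl fun q _ => ?_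
    rw [BB_smul_left]
  rw [h1, h2, ← Finset.sum_add_distrib]
  refine Finset.sum_congr rfl fun p _ => ?_
  rw [← Finset.sum_add_distrib, ← Finset.sum_add_distrib, ← Finset.sum_add_distrib,
    Finset.smul_sum]
  refine Finset.sum_congr rfl fun q _ => ?_
  rw [smul_add _ (_ + _) _]

theorem AR_succ (n : ℕ) (a b c : L) : ((n : ℚ) + 1) • AR δ (n + 1) a b c =
    ∑ p ∈ antidiagonal n, ((p.1 : ℚ) + 1) •
      (AR δ p.2 (δ.d (2 * p.1) a) b (δ.d (2 * p.1 + 1) c) +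
       AR δ p.2 a (δ.d (2 * p.1) b) (δ.d (2 * p.1 + 1) c) +
       AR δ p.2 (δ.d (2 * p.1) a) (δ.d (2 * p.1 + 1) b) c) := by
  unfold AR
  rw [split_sum n (fun i j => BB δ i a (BB δ j b c))]
  have h1 : ∑ p ∈ antidiagonal n, ((p.1 : ℚ) + 1) • BB δ (p.1 + 1) a (BB δ p.2 b c) =
      ∑ p ∈ antidiagonal n, ∑ q ∈ antidiagonal p.2, ((p.1 : ℚ) + 1) •
        (BB δ q.1 (δ.d (2 * p.1) a) (BB δ q.2 (δ.d (2 * p.1 + 1) b) c) +
         BB δ q.1 (δ.d (2 * p.1) a) (BB δ q.2 b (δ.d (2 * p.1 + 1) c))) := by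
    rw [← triple n (fun s i j => ((s : ℚ) + 1) •
      (BB δ i (δ.d (2 * s) a) (BB δ j (δ.d (2 * s + 1) b) c) +
         BB δ i (δ.d (2 * s) a) (BB δ j b (δ.d (2 * s + 1) c))))]
    refine Finset.sum_congr rfl fun p _ => ?_
    rw [BB_succ]
    refine Finset.sum_congr rfl fun q _ => ?_
    rw [BB_der, map_add]
  have h2 : ∑ p ∈ antidiagonal n, ((p.2 : ℚ) + 1) • BB δ p.1 a (BB δ (p.2 + 1) b c) =
      ∑ p ∈ antidiagonal n, ∑ q ∈ antidiagonal p.2, ((p.1 : ℚ) + 1) •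
        BB δ q.1 a (BB δ q.2 (δ.d (2 * p.1) b) (δ.d (2 * p.1 + 1) c)) := by
    rw [← triple' n (fun i s j => ((s : ℚ) + 1) •
      BB δ i a (BB δ j (δ.d (2 * s) b) (δ.d (2 * s + 1) c)))]
    refine Finset.sum_congr rfl fun p _ => ?_
    rw [← BB_smul_right, BB_succ, map_sum]
    refine Finset.sum_congr rfl fun q _ => ?_
    rw [BB_smul_right]
  rw [h1, h2, ← Finset.sum_add_distrib]
  refine Finset.sum_congr rfl fun p _ => ?_
  rw [← Finset.sum_add_distrib, ← Finset.sum_add_distrib, ← Finset.sum_add_distrib,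
    Finset.smul_sum]
  refine Finset.sum_congr rfl fun q _ => ?_
  simp only [smul_add]
  abel

theorem AL_eq_AR (n : ℕ) : ∀ a b c : L, AL δ n a b c = AR δ n a b c := by
  induction n using Nat.strong_induction_on with
  | _ n ih =>
    cases n with
    | zero =>
      intro a b c
      unfold AL AR
      simp [BB_zero, mul_assoc]
    | succ n =>
      intro a b c
      apply smul_cancel' n
      rw [AL_succ, AR_succ]
      refine Finset.sum_congr rfl fun p hp => ?_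
      have hp2 : p.2 < n + 1 := by
        have := mem_antidiagonal.1 hp
        omega
      rw [ih p.2 hp2, ih p.2 hp2, ih p.2 hp2]

end

/-! ### terms -/
section
variable {L : Type} [CommRing L] [Algebra ℚ L] (δ : DerFam L)

theorem rep_smul (c : ℚ) (t : DTerm L) : ∃ u : DTerm L, ∀ a, c • t.eval δ a = u.eval δ a :=
  ⟨DTerm.mul (DTerm.const (algebraMap ℚ L c)) t, fun a => by
    simp [DTerm.eval, Algebra.smul_def]⟩

theorem rep_sum {ι : Type*} (s : Finset ι) (f : ι → L → L)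
    (h : ∀ i ∈ s, ∃ t : DTerm L, ∀ a, f i a = t.eval δ a) :
    ∃ t : DTerm L, ∀ a, ∑ i ∈ s, f i a = t.eval δ a := by
  classical
  induction s using Finset.induction_on with
  | empty => exact ⟨DTerm.const 0, fun a => by simp [DTerm.eval]⟩
  | insert i s hi ih =>
    obtain ⟨t, ht⟩ := ih fun j hj => h j (Finset.mem_insert_of_mem hj)
    obtain ⟨u, hu⟩ := h i (Finset.mem_insert_self i s)
    exact ⟨DTerm.add u t, fun a => by rw [Finset.sum_insert hi, hu, ht]; rfl⟩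

theorem rep_B (D : Deform L)
    (hD : ∀ (n : ℕ) (a b : L), ((n : ℚ) + 1) • D.B (n + 1) a b =
      ∑ s ∈ range (n + 1), ((s : ℚ) + 1) • D.B (n - s) (δ.d (2 * s) a) (δ.d (2 * s + 1) b))
    (n : ℕ) : ∀ t u : DTerm L, ∃ v : DTerm L, ∀ a,
      D.B n (t.eval δ a) (u.eval δ a) = v.eval δ a := by
  induction n using Nat.strong_induction_on with
  | _ n ih =>
    cases n with
    | zero =>
      intro t u
      exact ⟨DTerm.mul t u, fun a => by rw [D.B_zero]; rfl⟩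
    | succ n =>
      intro t u
      have h1 : ∀ s ∈ range (n + 1), ∃ v : DTerm L, ∀ a, ((s : ℚ) + 1) •
          D.B (n - s) (δ.d (2 * s) (t.eval δ a)) (δ.d (2 * s + 1) (u.eval δ a)) =
            v.eval δ a := by
        intro s _
        obtain ⟨v, hv⟩ := ih (n - s) (by omega) (DTerm.der (2 * s) t) (DTerm.der (2 * s + 1) u)
        obtain ⟨w, hw⟩ := rep_smul δ ((s : ℚ) + 1) v
        exact ⟨w, fun a => by rw [← hw, ← hv]; rfl⟩
      obtain ⟨v, hv⟩ := rep_sum δ (range (n + 1)) _ h1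
      obtain ⟨w, hw⟩ := rep_smul δ ((n : ℚ) + 1)⁻¹ v
      refine ⟨w, fun a => ?_⟩
      rw [← hw, ← hv, ← hD, smul_smul, inv_mul_cancel₀ (by positivity), one_smul]

end

end T11

theorem exists_derDeform {L : Type} [CommRing L] [Algebra ℚ L] (δ : DerFam L) :
    ∃ D : Deform L, ∀ (n : ℕ) (a b : L), ((n : ℚ) + 1) • D.B (n + 1) a b =
      ∑ s ∈ range (n + 1), ((s : ℚ) + 1) •
        D.B (n - s) (δ.d (2 * s) a) (δ.d (2 * s + 1) b) := by
  refine ⟨⟨T11.BB δ, T11.BB_zero δ, fun n a => ?_, fun n a => ?_, fun n a b c => ?_⟩,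
    fun n a b => T11.Bf_succ' δ n a b⟩
  · apply T11.smul_cancel' n
    rw [T11.BB_succ, smul_zero]
    refine Finset.sum_eq_zero fun p _ => ?_
    rw [T11.d_one, map_zero, smul_zero]
  · apply T11.smul_cancel' n
    rw [T11.BB_succ, smul_zero]
    refine Finset.sum_eq_zero fun p _ => ?_
    rw [T11.d_one, map_zero, AddMonoidHom.zero_apply, smul_zero]
  · exact T11.AL_eq_AR δ n a b c

theorem isD_term {L : Type} [CommRing L] [Algebra ℚ L] (δ : DerFam L) (D : Deform L)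
    (hD : ∀ (n : ℕ) (a b : L), ((n : ℚ) + 1) • D.B (n + 1) a b =
      ∑ s ∈ range (n + 1), ((s : ℚ) + 1) • D.B (n - s) (δ.d (2 * s) a) (δ.d (2 * s + 1) b))
    (φ : L → L) (hφ : IsD D φ) : ∃ t : DTerm L, ∀ a, φ a = t.eval δ a := by
  induction hφ with
  | const a => exact ⟨DTerm.const a, fun _ => rfl⟩
  | id => exact ⟨DTerm.var, fun _ => rfl⟩
  | add hφ hψ ih1 ih2 =>
    obtain ⟨t, ht⟩ := ih1
    obtain ⟨u, hu⟩ := ih2
    exact ⟨DTerm.add t u, fun a => by
      change _ + _ = _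
      rw [ht, hu]; rfl⟩
  | op n hφ hψ ih1 ih2 =>
    obtain ⟨t, ht⟩ := ih1
    obtain ⟨u, hu⟩ := ih2
    obtain ⟨v, hv⟩ := T11.rep_B δ D hD n t u
    exact ⟨v, fun a => by
      change D.B n _ _ = _
      rw [ht, hu, hv]⟩

end Pool.Agent.H49R2.ACA
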