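import Pool.Agent.H49R2.ACA.StarRing

/-!
# T3a: four inductions over generalised polynomial terms (helper204)
-/

namespace Pool.Agent.H49R2.ACA

open Finset
open scoped Pointwise

theorem eval_poly {V : Type} [Ring V] (t : GTerm V) : ∃ N : ℕ, ∀ u v : V, ∃ p : Polynomial V,
    p.natDegree ≤ N ∧ ∀ c : V, (∀ x, c * x = x * c) → t.eval (u + c * v) = p.eval c := by
  induction t with
  | const w =>
    exact ⟨0, fun u v => ⟨Polynomial.C w, by simp, fun c hc => by simp [GTerm.eval]⟩⟩
  | var =>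
    refine ⟨1, fun u v => ⟨Polynomial.C u + Polynomial.C v * Polynomial.X, ?_, fun c hc => ?_⟩⟩
    · refine (Polynomial.natDegree_add_le _ _).trans ?_
      rw [Polynomial.natDegree_C]
      refine max_le (by omega) ((Polynomial.natDegree_C_mul_le v Polynomial.X).trans ?_)
      exact Polynomial.natDegree_X_le
    · simp [GTerm.eval, hc v]
  | add s t ihs iht =>
    obtain ⟨N, hN⟩ := ihs
    obtain ⟨M, hM⟩ := iht
    refine ⟨max N M, fun u v => ?_⟩
    obtain ⟨p, hp1, hp2⟩ := hN u v
    obtain ⟨q, hq1, hq2⟩ := hM u v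
    refine ⟨p + q, (Polynomial.natDegree_add_le _ _).trans (max_le_max hp1 hq1), fun c hc => ?_⟩
    rw [Polynomial.eval_add, ← hp2 c hc, ← hq2 c hc]
    rfl
  | mul s t ihs iht =>
    obtain ⟨N, hN⟩ := ihs
    obtain ⟨M, hM⟩ := iht
    refine ⟨N + M, fun u v => ?_⟩
    obtain ⟨p, hp1, hp2⟩ := hN u v
    obtain ⟨q, hq1, hq2⟩ := hM u v
    refine ⟨p * q, Polynomial.natDegree_mul_le.trans (add_le_add hp1 hq1), fun c hc => ?_⟩
    have h := Polynomial.eval₂_mul_noncomm (p := p) (q := q) (RingHom.id V) c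
      (fun k => (hc (q.coeff k)).symm)
    rw [Polynomial.eval, h, ← Polynomial.eval, ← Polynomial.eval, ← hp2 c hc, ← hq2 c hc]
    rfl

theorem supp_bound {L : Type} [CommRing L] {D : Deform L} (t : GTerm (SH D)) (U : Set ℚ)
    (hU : U.IsPWO) : ∃ W : Set ℚ, W.IsPWO ∧ ∀ y : SH D, y.supp ⊆ U → (t.eval y).supp ⊆ W := by
  induction t with
  | const v => exact ⟨v.supp, v.isPWO_supp, fun y _ => subset_rfl⟩
  | var => exact ⟨U, hU, fun y hy => hy⟩
  | add s t ihs iht =>
    obtain ⟨W1, h1, h1'⟩ := ihs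
    obtain ⟨W2, h2, h2'⟩ := iht
    refine ⟨W1 ∪ W2, h1.union h2, fun y hy e he => ?_⟩
    by_contra hcon
    rw [Set.mem_union, not_or] at hcon
    have e1 : (s.eval y).coeff e = 0 := by
      by_contra h
      exact hcon.1 (h1' y hy h)
    have e2 : (t.eval y).coeff e = 0 := by
      by_contra h
      exact hcon.2 (h2' y hy h)
    apply he
    change (s.eval y + t.eval y).coeff e = 0
    rw [SH.coeff_add, e1, e2, add_zero]
  | mul s t ihs iht =>
    obtain ⟨W1, h1, h1'⟩ := ihs
    obtain ⟨W2, h2, h2'⟩ := iht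
    refine ⟨W1 + W2 + Set.range (fun n : ℕ => (n : ℚ)), (h1.add h2).add SH.isPWO_nat,
      fun y hy => ?_⟩
    exact (SH.supp_mul_subset (s.eval y) (t.eval y)).trans
      (Set.add_subset_add (Set.add_subset_add (h1' y hy) (h2' y hy)) subset_rfl)

theorem finitary {L : Type} [CommRing L] {D : Deform L} (t : GTerm (SH D)) (y : SH D) (e : ℚ) :
    ∃ S : Finset ℚ, ∀ y' : SH D, y'.supp ⊆ y.supp → (∀ r ∈ S, y'.coeff r = y.coeff r) →
      (t.eval y').coeff e = (t.eval y).coeff e := by
  classical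
  induction t generalizing e with
  | const v => exact ⟨∅, fun y' _ _ => rfl⟩
  | var => exact ⟨{e}, fun y' _ h => h e (Finset.mem_singleton_self e)⟩
  | add s t ihs iht =>
    obtain ⟨S1, h1⟩ := ihs e
    obtain ⟨S2, h2⟩ := iht e
    refine ⟨S1 ∪ S2, fun y' hy' h => ?_⟩
    change (s.eval y' + t.eval y').coeff e = (s.eval y + t.eval y).coeff e
    rw [SH.coeff_add, SH.coeff_add, h1 y' hy' (fun r hr => h r (Finset.mem_union_left _ hr)),
      h2 y' hy' (fun r hr => h r (Finset.mem_union_right _ hr))]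
  | mul s t ihs iht =>
    obtain ⟨W1, hW1, hW1'⟩ := supp_bound s y.supp y.isPWO_supp
    obtain ⟨W2, hW2, hW2'⟩ := supp_bound t y.supp y.isPWO_supp
    choose S1 h1 using ihs
    choose S2 h2 using iht
    set T := (SH.tri_finite hW1 hW2 e).toFinset with hT
    refine ⟨T.biUnion (fun p => S1 p.1 ∪ S2 p.2.1), fun y' hy' h => ?_⟩
    have key : ∀ z : SH D, z.supp ⊆ y.supp →
        (s.eval z * t.eval z).coeff e = ∑ p ∈ T, SH.term (s.eval z) (t.eval z) e p := by
      intro z hz
      refine SH.coeff_mul_eq_sum _ _ e T (fun p hp1 hp2 hp3 => ?_)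
      rw [hT, Set.Finite.mem_toFinset]
      exact ⟨hW1' z hz hp1, hW2' z hz hp2, hp3⟩
    change (s.eval y' * t.eval y').coeff e = (s.eval y * t.eval y).coeff e
    rw [key y' hy', key y subset_rfl]
    refine Finset.sum_congr rfl (fun p hp => ?_)
    have e1 : (s.eval y').coeff p.1 = (s.eval y).coeff p.1 :=
      h1 p.1 y' hy' (fun r hr => h r (Finset.mem_biUnion.2 ⟨p, hp, Finset.mem_union_left _ hr⟩))
    have e2 : (t.eval y').coeff p.2.1 = (t.eval y).coeff p.2.1 :=
      h2 p.2.1 y' hy'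
        (fun r hr => h r (Finset.mem_biUnion.2 ⟨p, hp, Finset.mem_union_right _ hr⟩))
    unfold SH.term
    rw [e1, e2]

theorem isD_sum {L : Type} [CommRing L] {D : Deform L} {ι : Type} (T : Finset ι)
    (φ : ι → L → L) (h : ∀ i ∈ T, IsD D (φ i)) : IsD D (fun x => ∑ i ∈ T, φ i x) := by
  classical
  induction T using Finset.induction_on with
  | empty =>
    simp only [Finset.sum_empty]
    exact IsD.const 0
  | insert a s ha ih =>
    simp only [Finset.sum_insert ha]
    exact IsD.add (h a (Finset.mem_insert_self a s))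
      (ih (fun i hi => h i (Finset.mem_insert_of_mem hi)))

theorem isD_coeff {L : Type} [CommRing L] {D : Deform L} (t : GTerm (SH D)) (e : ℚ) :
    IsD D (fun ξ => (t.eval (SH.single 0 ξ)).coeff e) := by
  classical
  have hsupp : ∀ ξ : L, (SH.single 0 ξ : SH D).supp ⊆ {0} := by
    intro ξ r hr
    by_contra hne
    apply hr
    rw [SH.coeff_single, if_neg (fun h0 => hne (by rw [h0]; rfl))]
  have hU : ({0} : Set ℚ).IsPWO := Set.isPWO_singleton 0
  induction t generalizing e with
  | const v => exact IsD.const (v.coeff e)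
  | var =>
    by_cases he : e = 0
    · have : (fun ξ : L => ((GTerm.var : GTerm (SH D)).eval (SH.single 0 ξ)).coeff e) =
          fun ξ => ξ := by
        funext ξ
        change (SH.single 0 ξ : SH D).coeff e = ξ
        rw [SH.coeff_single, if_pos he]
      rw [this]
      exact IsD.id
    · have : (fun ξ : L => ((GTerm.var : GTerm (SH D)).eval (SH.single 0 ξ)).coeff e) =
          fun _ => 0 := by
        funext ξ
        change (SH.single 0 ξ : SH D).coeff e = 0
        rw [SH.coeff_single, if_neg he]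
      rw [this]
      exact IsD.const 0
  | add s t ihs iht => exact IsD.add (ihs e) (iht e)
  | mul s t ihs iht =>
    obtain ⟨W1, hW1, hW1'⟩ := supp_bound s {0} hU
    obtain ⟨W2, hW2, hW2'⟩ := supp_bound t {0} hU
    set T := (SH.tri_finite hW1 hW2 e).toFinset with hT
    have key : (fun ξ : L => ((s.mul t).eval (SH.single 0 ξ)).coeff e) = fun ξ =>
        ∑ p ∈ T, SH.term (s.eval (SH.single 0 ξ)) (t.eval (SH.single 0 ξ)) e p := by
      funext ξ
      change (s.eval (SH.single 0 ξ) * t.eval (SH.single 0 ξ)).coeff e = _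
      refine SH.coeff_mul_eq_sum _ _ e T (fun p hp1 hp2 hp3 => ?_)
      rw [hT, Set.Finite.mem_toFinset]
      exact ⟨hW1' _ (hsupp ξ) hp1, hW2' _ (hsupp ξ) hp2, hp3⟩
    rw [key]
    refine isD_sum T _ (fun p _ => ?_)
    unfold SH.term
    by_cases hp : p.1 + p.2.1 + p.2.2 = e
    · simp only [if_pos hp]
      exact IsD.op p.2.2 (ihs p.1) (iht p.2.1)
    · simp only [if_neg hp]
      exact IsD.const 0

end Pool.Agent.H49R2.ACA
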