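import Pool.Agent.H49R2.ACA.T1
import Pool.Agent.H49R2.ACA.T3a

/-!
# T3b: the Newton polygon step and the existence of roots
-/

set_option autoImplicit false

namespace Pool.Agent.H49R2.ACA

open Finset
open scoped Pointwise

namespace T3b

/-- substitution of `s` for the variable -/
def sub {V : Type} (s : GTerm V) : GTerm V → GTerm V
  | GTerm.const v => GTerm.const v
  | GTerm.var => s
  | GTerm.add a b => GTerm.add (sub s a) (sub s b)
  | GTerm.mul a b => GTerm.mul (sub s a) (sub s b)

lemma eval_sub {V : Type} [Add V] [Mul V] (s t : GTerm V) (x : V) :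
    (sub s t).eval x = t.eval (s.eval x) := by
  induction t with
  | const v => rfl
  | var => rfl
  | add a b iha ihb => simp only [sub, GTerm.eval, iha, ihb]
  | mul a b iha ihb => simp only [sub, GTerm.eval, iha, ihb]

section ring

variable {L : Type} [CommRing L] {D : Deform L}

lemma coeff_sum {ι : Type} (s : Finset ι) (f : ι → SH D) (e : ℚ) :
    (∑ i ∈ s, f i).coeff e = ∑ i ∈ s, (f i).coeff e := by
  classical
  induction s using Finset.induction_on with
  | empty => simp
  | insert i s hi ih => rw [Finset.sum_insert hi, Finset.sum_insert hi, SH.coeff_add, ih]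

lemma single_zero (q : ℚ) : (SH.single q 0 : SH D) = 0 := by
  apply SH.ext
  intro e
  rw [SH.coeff_single]
  simp

lemma single_add (q : ℚ) (a b : L) :
    (SH.single q (a + b) : SH D) = SH.single q a + SH.single q b := by
  apply SH.ext
  intro e
  rw [SH.coeff_add, SH.coeff_single, SH.coeff_single, SH.coeff_single]
  split_ifs <;> simp

variable [Algebra ℚ L]

/-- the central elements `c ħ^q` -/
noncomputable def kap (D : Deform L) (q c : ℚ) : SH D := SH.single q (algebraMap ℚ L c)

lemma kap_mul (q c : ℚ) (x : SH D) (e : ℚ) :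
    (kap D q c * x).coeff e = algebraMap ℚ L c * x.coeff (e - q) :=
  SH.coeff_single_mul q c x e

lemma kap_central (q c : ℚ) (x : SH D) : kap D q c * x = x * kap D q c :=
  SH.single_central q c x

lemma kap_mul_single (q c r : ℚ) (ξ : L) :
    kap D q c * SH.single r ξ = SH.single (q + r) (algebraMap ℚ L c * ξ) := by
  apply SH.ext
  intro e
  rw [kap_mul, SH.coeff_single, SH.coeff_single]
  by_cases h : e = q + r
  · rw [if_pos (by rw [h]; ring), if_pos h]
  · rw [if_neg (fun h' => h (by linarith)), if_neg h, mul_zero]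

lemma kap_mul_kap (q c q' c' : ℚ) : kap D q c * kap D q' c' = kap D (q + q') (c * c') := by
  unfold kap
  have := kap_mul_single (D := D) q c q' (algebraMap ℚ L c')
  unfold kap at this
  rw [this, map_mul]

lemma kap_one : kap D 0 1 = 1 := by
  unfold kap
  rw [map_one]
  rfl

lemma kap_pow (q c : ℚ) (i : ℕ) : kap D q c ^ i = kap D (i * q) (c ^ i) := by
  induction i with
  | zero => rw [pow_zero, pow_zero, Nat.cast_zero, zero_mul, kap_one]
  | succ i ih =>
    rw [pow_succ, ih, kap_mul_kap, pow_succ c i]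
    congr 1
    push_cast
    ring

/-- the value of a polynomial at `c ħ^q` -/
lemma coeff_eval (p : Polynomial (SH D)) (q c e : ℚ) {N : ℕ} (hN : p.natDegree ≤ N) :
    (p.eval (kap D q c)).coeff e =
      ∑ i ∈ range (N + 1), algebraMap ℚ L c ^ i * (p.coeff i).coeff (e - i * q) := by
  rw [Polynomial.eval_eq_sum_range' (Nat.lt_succ_of_le hN), coeff_sum]
  refine Finset.sum_congr rfl fun i _ => ?_
  rw [kap_pow, ← kap_central, kap_mul, map_pow]

end ring

section domain

variable {L : Type} [CommRing L] [IsDomain L] [Algebra ℚ L] {D : Deform L}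

/-- interpolation over the rationals -/
lemma interp_aux (N : ℕ) (f : ℕ → L)
    (h : ∀ c : ℚ, ∑ i ∈ range (N + 1), algebraMap ℚ L c ^ i * f i = 0) :
    ∀ i ≤ N, f i = 0 := by
  have hc : CharZero L := algebraRat.charZero L
  set P : Polynomial L := ∑ i ∈ range (N + 1), Polynomial.C (f i) * Polynomial.X ^ i with hP
  have hinj : Function.Injective (algebraMap ℚ L) := (algebraMap ℚ L).injective
  have hev : ∀ c : ℚ, P.eval (algebraMap ℚ L c) = 0 := by
    intro c
    rw [hP, Polynomial.eval_finsetSum, ← h c]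
    refine Finset.sum_congr rfl fun i _ => ?_
    rw [Polynomial.eval_mul, Polynomial.eval_C, Polynomial.eval_pow, Polynomial.eval_X, mul_comm]
  have hP0 : P = 0 := by
    apply Polynomial.eq_zero_of_infinite_isRoot
    refine Set.Infinite.mono ?_ (Set.infinite_range_of_injective hinj)
    rintro _ ⟨c, rfl⟩
    exact hev c
  intro i hi
  have h1 : P.coeff i = f i := by
    rw [hP, Polynomial.finsetSum_coeff]
    simp only [Polynomial.coeff_C_mul, Polynomial.coeff_X_pow, mul_ite, mul_one, mul_zero]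
    rw [Finset.sum_ite_eq, if_pos (Finset.mem_range.2 (by omega))]
  rw [← h1, hP0, Polynomial.coeff_zero]

lemma interp_const (p : Polynomial (SH D)) (q e : ℚ) (a : L)
    (h : ∀ c : ℚ, (p.eval (kap D q c)).coeff e = a) (i : ℕ) (hi : 1 ≤ i) :
    (p.coeff i).coeff (e - i * q) = 0 := by
  classical
  by_cases hiN : i ≤ p.natDegree
  · have h1 := interp_aux p.natDegree
      (fun i => (p.coeff i).coeff (e - i * q) - if i = 0 then a else 0) (fun c => by
        have h2 := h c
        rw [coeff_eval p q c e le_rfl] at h2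
        simp only [mul_sub, Finset.sum_sub_distrib]
        rw [h2, sub_eq_zero]
        rw [Finset.sum_eq_single 0]
        · simp
        · intro j _ hj
          rw [if_neg hj, mul_zero]
        · intro h0
          exact absurd (Finset.mem_range.2 (Nat.succ_pos _)) h0) i hiN
    simpa [show i ≠ 0 by omega] using h1
  · rw [Polynomial.coeff_eq_zero_of_natDegree_lt (not_le.1 hiN), SH.coeff_zero]

lemma interp (p : Polynomial (SH D)) (q e : ℚ)
    (h : ∀ c : ℚ, (p.eval (kap D q c)).coeff e = 0) (i : ℕ) :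
    (p.coeff i).coeff (e - i * q) = 0 := by
  by_cases hiN : i ≤ p.natDegree
  · exact interp_aux p.natDegree (fun i => (p.coeff i).coeff (e - i * q)) (fun c => by
      rw [← coeff_eval p q c e le_rfl]; exact h c) i hiN
  · rw [Polynomial.coeff_eq_zero_of_natDegree_lt (not_le.1 hiN), SH.coeff_zero]

/-- Gauss lemma, finite supports -/
lemma gl_fin (t : GTerm (SH D)) (e : ℚ)
    (h : ∀ ξ : L, ∀ e' < e, (t.eval (SH.single 0 ξ)).coeff e' = 0) (f : ℚ → L) :
    ∀ S : Finset ℚ, (∀ q ∈ S, 0 ≤ q) → ∀ ξ0 : L, ∀ e' < e,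
      (t.eval (SH.single 0 ξ0 + ∑ q ∈ S, SH.single q (f q))).coeff e' = 0 := by
  classical
  intro S
  induction S using Finset.induction_on with
  | empty =>
    intro _ ξ0 e' he'
    rw [Finset.sum_empty, add_zero]
    exact h ξ0 e' he'
  | insert q1 S hq1 ih =>
    intro hS ξ0 e' he'
    have ih' := ih fun q hq => hS q (Finset.mem_insert_of_mem hq)
    have hq1' : 0 ≤ q1 := hS q1 (Finset.mem_insert_self _ _)
    obtain ⟨N, hN⟩ := eval_poly t
    obtain ⟨p, hp, hpc⟩ := hN (SH.single 0 ξ0 + ∑ q ∈ S, SH.single q (f q)) (SH.single 0 (f q1))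
    -- all coefficients of `p` vanish below `e`
    have h1 : ∀ i, ∀ e' < e, (p.coeff i).coeff e' = 0 := by
      intro i e' he'
      have h2 := interp p 0 e' (fun c => by
        rw [← hpc (kap D 0 c) (kap_central 0 c), kap_mul_single]
        have h3 := ih' (ξ0 + algebraMap ℚ L c * f q1) e' he'
        rw [single_add] at h3
        rw [zero_add, add_right_comm]
        exact h3) i
      simpa using h2
    have h4 : SH.single 0 ξ0 + ∑ q ∈ insert q1 S, SH.single q (f q) =
        SH.single 0 ξ0 + ∑ q ∈ S, SH.single q (f q) + kap D q1 1 * SH.single 0 (f q1) := by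
      rw [Finset.sum_insert hq1, kap_mul_single, map_one, one_mul, add_zero]
      abel
    rw [h4, hpc (kap D q1 1) (kap_central q1 1), coeff_eval p q1 1 e' hp]
    refine Finset.sum_eq_zero fun i _ => ?_
    rw [h1 i _ (by
      have : 0 ≤ (i : ℚ) * q1 := mul_nonneg (Nat.cast_nonneg i) hq1'
      linarith), mul_zero]

/-- Gauss lemma -/
lemma gauss (t : GTerm (SH D)) (e : ℚ)
    (h : ∀ ξ : L, ∀ e' < e, (t.eval (SH.single 0 ξ)).coeff e' = 0) (y : SH D)
    (hy : ∀ r < 0, y.coeff r = 0) : ∀ e' < e, (t.eval y).coeff e' = 0 := by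
  classical
  intro e' he'
  obtain ⟨S, hS⟩ := finitary t y e'
  set y' : SH D := ∑ q ∈ S.filter (fun q => 0 ≤ q), SH.single q (y.coeff q) with hy'
  have hc : ∀ r, y'.coeff r = if r ∈ S then y.coeff r else 0 := by
    intro r
    rw [hy', coeff_sum]
    simp only [SH.coeff_single]
    rw [Finset.sum_ite_eq]
    by_cases hr : r ∈ S
    · rw [if_pos hr]
      by_cases hr0 : 0 ≤ r
      · rw [if_pos (Finset.mem_filter.2 ⟨hr, hr0⟩)]
      · rw [if_neg (fun h' => hr0 (Finset.mem_filter.1 h').2), hy r (not_le.1 hr0)]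
    · rw [if_neg hr, if_neg (fun h' => hr (Finset.mem_filter.1 h').1)]
  have h1 := hS y' (fun r hr => by
    change y'.coeff r ≠ 0 at hr
    rw [hc r] at hr
    split_ifs at hr with h2
    · exact hr
    · exact absurd rfl hr) (fun r hr => by rw [hc r, if_pos hr])
  rw [← h1]
  have h2 := gl_fin t e h y.coeff (S.filter (fun q => 0 ≤ q))
    (fun q hq => (Finset.mem_filter.1 hq).2) 0 e' he'
  rw [single_zero, zero_add] at h2
  exact h2

omit [IsDomain L] [Algebra ℚ L] in
/-- a series which vanishes has no coefficients, and conversely there is a lowest one -/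
lemma exists_low (x : SH D) (hx : x ≠ 0) : ∃ e : ℚ, x.coeff e ≠ 0 ∧ ∀ r < e, x.coeff r = 0 := by
  have hne : x.supp.Nonempty := by
    by_contra h
    rw [Set.not_nonempty_iff_eq_empty] at h
    apply hx
    apply SH.ext
    intro e
    by_contra he
    have : e ∈ x.supp := he
    rw [h] at this
    exact this
  have hwf := x.isPWO_supp.isWF
  refine ⟨hwf.min hne, hwf.min_mem hne, fun r hr => ?_⟩
  by_contra h
  exact hwf.not_lt_min hne h hr

/-- the step of the Newton polygon method -/
lemma newton (H : ∀ φ : L → L, IsD D φ → (∃ a b, φ a ≠ φ b) → ∃ a, φ a = 0)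
    (t : GTerm (SH D)) (hne : ∃ a b, t.eval a ≠ t.eval b) (x : SH D) (e0 : ℚ)
    (he0 : (t.eval x).coeff e0 ≠ 0) (he0' : ∀ r < e0, (t.eval x).coeff r = 0) :
    ∃ q : ℚ, (∀ y : SH D, (∀ r < q, y.coeff r = 0) → ∀ e' < e0, (t.eval (x + y)).coeff e' = 0) ∧
      ∃ ξ : L, (t.eval (x + SH.single q ξ)).coeff e0 = 0 := by
  classical
  have hinj : Function.Injective (algebraMap ℚ L) := (algebraMap ℚ L).injective
  obtain ⟨N, hN⟩ := eval_poly t
  choose p hp hpc using fun ξ : L => hN x (SH.single 0 ξ)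
  have hp0 : ∀ ξ, (p ξ).coeff 0 = t.eval x := by
    intro ξ
    have h1 := hpc ξ 0 (fun y => by rw [zero_mul, mul_zero])
    rw [zero_mul, add_zero, ← Polynomial.coeff_zero_eq_eval_zero] at h1
    exact h1.symm
  -- values at `single q (c ξ)`
  have hval : ∀ (q c : ℚ) (ξ : L) (e : ℚ),
      (t.eval (x + SH.single q (algebraMap ℚ L c * ξ))).coeff e =
        ∑ i ∈ range (N + 1), algebraMap ℚ L c ^ i * ((p ξ).coeff i).coeff (e - i * q) := by
    intro q c ξ e
    have h1 : SH.single q (algebraMap ℚ L c * ξ) = kap D q c * SH.single 0 ξ := by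
      rw [kap_mul_single, add_zero]
    rw [h1, hpc ξ (kap D q c) (kap_central q c), coeff_eval (p ξ) q c e (hp ξ)]
  -- the term `u ↦ t (x + ħ^q u)`
  set T : ℚ → GTerm (SH D) := fun q =>
    sub (GTerm.add (GTerm.const x) (GTerm.mul (GTerm.const (kap D q 1)) GTerm.var)) t with hT
  have hTe : ∀ q u, (T q).eval u = t.eval (x + kap D q 1 * u) := by
    intro q u
    simp only [hT, eval_sub, GTerm.eval]
  have hk1 : ∀ q, kap D (-q) 1 * kap D q 1 = 1 := by
    intro q
    rw [kap_mul_kap, neg_add_cancel, mul_one, kap_one]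
  have hk2 : ∀ q, kap D q 1 * kap D (-q) 1 = 1 := by
    intro q
    rw [kap_mul_kap, add_neg_cancel, mul_one, kap_one]
  have hkc : ∀ (q : ℚ) (y : SH D) (e : ℚ), (kap D q 1 * y).coeff e = y.coeff (e - q) := by
    intro q y e
    rw [kap_mul, map_one, one_mul]
  -- the supports of the coefficients
  obtain ⟨W, hW, hWt⟩ := supp_bound (T 0) {0} (Set.isPWO_singleton 0)
  have hsuppW : ∀ ξ j, ∀ e', e' ∉ W → ((p ξ).coeff j).coeff e' = 0 := by
    intro ξ j e' he'
    have h1 := interp (p ξ) 0 e' (fun c => by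
      have h2 := hpc ξ (kap D 0 c) (kap_central 0 c)
      rw [← h2]
      have h3 : kap D 0 c * SH.single 0 ξ = SH.single 0 (algebraMap ℚ L c * ξ) := by
        rw [kap_mul_single, add_zero]
      rw [h3]
      have h4 := hWt (SH.single 0 (algebraMap ℚ L c * ξ)) (by
        intro r hr
        change (SH.single 0 (algebraMap ℚ L c * ξ) : SH D).coeff r ≠ 0 at hr
        rw [SH.coeff_single] at hr
        by_contra hr0
        exact hr (if_neg hr0))
      rw [hTe, kap_one, one_mul] at h4
      by_contra h5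
      exact he' (h4 h5)) j
    simpa using h1
  set J : Finset ℕ := (Finset.Icc 1 N).filter (fun j => ∃ ξ, (p ξ).coeff j ≠ 0) with hJ
  have hJne : J.Nonempty := by
    by_contra hJe
    rw [Finset.not_nonempty_iff_eq_empty] at hJe
    have hz : ∀ ξ, ∀ j, 1 ≤ j → (p ξ).coeff j = 0 := by
      intro ξ j hj
      by_cases hjN : j ≤ N
      · by_contra h
        have : j ∈ J := Finset.mem_filter.2 ⟨Finset.mem_Icc.2 ⟨hj, hjN⟩, ξ, h⟩
        rw [hJe] at this
        simp at this
      · exact Polynomial.coeff_eq_zero_of_natDegree_lt (lt_of_le_of_lt (hp ξ) (not_le.1 hjN))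
    have hconst : ∀ q ξ, t.eval (x + SH.single q ξ) = t.eval x := by
      intro q ξ
      apply SH.ext
      intro e
      have h1 := hval q 1 ξ e
      rw [map_one, one_mul] at h1
      rw [h1, Finset.sum_eq_single 0]
      · rw [one_pow, one_mul, hp0, Nat.cast_zero, zero_mul, sub_zero]
      · intro j _ hj
        rw [hz ξ j (by omega), SH.coeff_zero, mul_zero]
      · intro h0
        exact absurd (Finset.mem_range.2 (Nat.succ_pos _)) h0
    have hall : ∀ y : SH D, t.eval (x + y) = t.eval x := by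
      intro y
      by_cases hy : y = 0
      · rw [hy, add_zero]
      obtain ⟨q, -, hq⟩ := exists_low y hy
      have hg := fun e => gauss (GTerm.add (T q) (GTerm.const (-(t.eval x)))) e (fun ξ e' _ => by
        simp only [GTerm.eval]
        rw [hTe, kap_mul_single, map_one, one_mul, add_zero, hconst, add_neg_cancel,
          SH.coeff_zero]) (kap D (-q) 1 * y) (fun r hr => by
          rw [hkc]
          exact hq _ (by linarith))
      apply SH.ext
      intro e
      have h1 := hg (e + 1) e (by linarith)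
      simp only [GTerm.eval] at h1
      rw [hTe, ← mul_assoc, hk2, one_mul, SH.coeff_add, SH.coeff_neg] at h1
      linear_combination h1
    obtain ⟨a, b, hab⟩ := hne
    apply hab
    have h1 := hall (a - x)
    have h2 := hall (b - x)
    rw [add_sub_cancel] at h1 h2
    rw [h1, h2]
  -- the lowest exponents
  have hmin : ∀ j ∈ J, ∃ m : ℚ, (∃ ξ, ((p ξ).coeff j).coeff m ≠ 0) ∧
      ∀ e', (∃ ξ, ((p ξ).coeff j).coeff e' ≠ 0) → m ≤ e' := by
    intro j hj
    obtain ⟨ξ, hξ⟩ := (Finset.mem_filter.1 hj).2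
    set Ej : Set ℚ := {e' | ∃ ξ, ((p ξ).coeff j).coeff e' ≠ 0} with hEj
    have hsub : Ej ⊆ W := by
      rintro e' ⟨ξ, h⟩
      by_contra he'
      exact h (hsuppW ξ j e' he')
    have hwf : Ej.IsWF := (hW.mono hsub).isWF
    obtain ⟨e1, he1, -⟩ := exists_low _ hξ
    have hEne : Ej.Nonempty := ⟨e1, ξ, he1⟩
    exact ⟨hwf.min hEne, hwf.min_mem hEne, fun e' he' => hwf.min_le hEne he'⟩
  choose! m hm1 hm2 using hmin
  obtain ⟨j1, hj1, hmax⟩ := Finset.exists_max_image J (fun j => (e0 - m j) / j) hJne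
  set q : ℚ := (e0 - m j1) / j1 with hq
  have hJ1 : ∀ j ∈ J, 1 ≤ j := fun j hj => (Finset.mem_Icc.1 (Finset.mem_filter.1 hj).1).1
  have hJN : ∀ j ∈ J, j ≤ N := fun j hj => (Finset.mem_Icc.1 (Finset.mem_filter.1 hj).1).2
  have hge : ∀ j ∈ J, e0 ≤ m j + j * q := by
    intro j hj
    have h1 : (0 : ℚ) < j := by exact_mod_cast hJ1 j hj
    have h2 := hmax j hj
    rw [div_le_iff₀ h1] at h2
    linarith
  have heq : e0 - j1 * q = m j1 := by
    have h1 : (0 : ℚ) < j1 := by exact_mod_cast hJ1 j1 hj1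
    rw [hq]
    field_simp
    ring
  -- vanishing of the low terms
  have hlow : ∀ ξ j, 1 ≤ j → ∀ e' < e0, ((p ξ).coeff j).coeff (e' - j * q) = 0 := by
    intro ξ j hj e' he'
    by_contra h
    have hjJ : j ∈ J := by
      refine Finset.mem_filter.2 ⟨Finset.mem_Icc.2 ⟨hj, ?_⟩, ξ, fun h0 => h (by
        rw [h0, SH.coeff_zero])⟩
      by_contra hjN
      apply h
      rw [Polynomial.coeff_eq_zero_of_natDegree_lt (lt_of_le_of_lt (hp ξ) (not_le.1 hjN)),
        SH.coeff_zero]
    have h1 := hm2 j hjJ _ ⟨ξ, h⟩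
    have h2 := hge j hjJ
    linarith
  refine ⟨q, fun y hy e' he' => ?_, ?_⟩
  · -- (N1)
    have hg := gauss (T q) e0 (fun ξ e' he' => by
      rw [hTe, kap_mul_single, add_zero, hval q 1 ξ e']
      refine Finset.sum_eq_zero fun i _ => ?_
      rcases Nat.eq_zero_or_pos i with rfl | hi
      · rw [hp0, Nat.cast_zero, zero_mul, sub_zero, he0' e' he', mul_zero]
      · rw [hlow ξ i hi e' he', mul_zero]) (kap D (-q) 1 * y) (fun r hr => by
        rw [hkc]
        exact hy _ (by linarith)) e' he'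
    rw [hTe, ← mul_assoc, hk2, one_mul] at hg
    exact hg
  · -- (N2)
    have hφe : ∀ ξ, ((T q).eval (SH.single 0 ξ)).coeff e0 =
        (t.eval (x + SH.single q ξ)).coeff e0 := by
      intro ξ
      rw [hTe, kap_mul_single, map_one, one_mul, add_zero]
    obtain ⟨ξ0, hξ0⟩ := H (fun ξ => ((T q).eval (SH.single 0 ξ)).coeff e0)
      (isD_coeff (T q) e0) (by
        by_contra hcon
        push Not at hcon
        obtain ⟨ξ1, hξ1⟩ := hm1 j1 hj1
        have h1 := interp_const (p ξ1) q e0 (((T q).eval (SH.single 0 0)).coeff e0) (fun c => by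
          rw [hcon 0 (algebraMap ℚ L c * ξ1), hφe, hval q c ξ1 e0,
            ← coeff_eval (p ξ1) q c e0 (hp ξ1)]) j1 (hJ1 j1 hj1)
        rw [heq] at h1
        exact hξ1 h1)
    exact ⟨ξ0, by rw [← hφe]; exact hξ0⟩

end domain

end T3b

open T3b in
theorem exists_root {L : Type} [CommRing L] [IsDomain L] [Algebra ℚ L] (D : Deform L)
    (H : ∀ φ : L → L, IsD D φ → (∃ a b, φ a ≠ φ b) → ∃ a, φ a = 0)
    (t : GTerm (SH D)) (hne : ∃ a b, t.eval a ≠ t.eval b) : ∃ a, t.eval a = 0 := by
  classical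
  -- the order of the value
  set F : HahnSeries ℚ L → WithTop ℚ := fun x => (SH.toHahn (t.eval (SH.mk x : SH D))).orderTop
    with hF
  have hcoe : ∀ (z : SH D) (e : ℚ), (SH.toHahn z).coeff e = z.coeff e := fun z e => rfl
  -- vanishing of the coefficients gives a bound for the order
  have hle : ∀ (z : SH D) (e : ℚ), (∀ r < e, z.coeff r = 0) → (e : WithTop ℚ) ≤
      (SH.toHahn z).orderTop := by
    intro z e hz
    by_contra hcon
    rw [not_le] at hcon
    have hne' : (SH.toHahn z).orderTop ≠ ⊤ := hcon.ne_top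
    obtain ⟨g, hg⟩ := WithTop.ne_top_iff_exists.1 hne'
    have h1 := HahnSeries.coeff_orderTop_ne hg.symm
    rw [← hg] at hcon
    exact h1 (hz g (WithTop.coe_lt_coe.1 hcon))
  have hlt : ∀ (z : SH D) (e : ℚ), (∀ r < e, z.coeff r = 0) → z.coeff e = 0 → (e : WithTop ℚ) <
      (SH.toHahn z).orderTop := by
    intro z e hz hze
    refine lt_of_le_of_ne (hle z e hz) fun h => ?_
    exact HahnSeries.coeff_orderTop_ne h.symm hze
  obtain ⟨x, hx⟩ := zorn_hahn F (fun x hx => by
    have hx0 : t.eval (SH.mk x : SH D) ≠ 0 := by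
      intro h
      apply hx
      simp only [hF, h]
      exact HahnSeries.orderTop_zero
    obtain ⟨e0, he0, he0'⟩ := exists_low _ hx0
    have hFx : F x = (e0 : WithTop ℚ) := by
      refine le_antisymm ?_ (hle _ _ he0')
      exact HahnSeries.orderTop_le_of_coeff_ne_zero he0
    obtain ⟨q, h1, ξ, h2⟩ := newton H t hne (SH.mk x) e0 he0 he0'
    refine ⟨q, fun y hy => ?_, SH.toHahn (SH.single q ξ : SH D), fun r hr => ?_, ?_⟩
    · rw [hFx]
      exact hle _ _ (h1 (SH.mk y) hy)
    · rw [hcoe, SH.coeff_single, if_neg hr.ne]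
    · rw [hFx]
      refine hlt _ _ (h1 (SH.single q ξ) (fun r hr => ?_)) h2
      rw [SH.coeff_single, if_neg hr.ne])
  refine ⟨SH.mk x, ?_⟩
  have h1 : SH.toHahn (t.eval (SH.mk x : SH D)) = 0 := HahnSeries.orderTop_eq_top.1 hx
  exact h1

end Pool.Agent.H49R2.ACA
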