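import Pool.Agent.H49R2.ACA.StarRing
import Pool.Agent.H49R2.ACA.T11
import Pool.Agent.H49R2.ACA.T3b

/-!
# T12 : the union of the star rings (helper96)
-/

namespace Pool.Agent.H49R2.ACA

open Finset
open scoped Pointwise

namespace T12

section Rec

variable {L : Type} [CommRing L] [Algebra ℚ L] (δ : DerFam L)

theorem d_one (i : ℕ) : δ.d i 1 = 0 := by
  have h := δ.leib i 1 1
  rw [mul_one, mul_one, one_mul] at h
  simpa using h

theorem d_alg (i : ℕ) (q : ℚ) : δ.d i (algebraMap ℚ L q) = 0 := by
  rw [Algebra.algebraMap_eq_smul_one, map_rat_smul, d_one, smul_zero]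

/-- the recursion of the star product -/
def Rec (D : Deform L) : Prop := ∀ (n : ℕ) (a b : L), ((n : ℚ) + 1) • D.B (n + 1) a b =
      ∑ s ∈ range (n + 1), ((s : ℚ) + 1) • D.B (n - s) (δ.d (2 * s) a) (δ.d (2 * s + 1) b)

theorem cancel {a b : L} (n : ℕ) (h : ((n : ℚ) + 1) • a = ((n : ℚ) + 1) • b) : a = b := by
  have hn : ((n : ℚ) + 1) ≠ 0 := by positivity
  have := congrArg (fun x => ((n : ℚ) + 1)⁻¹ • x) h
  simpa [smul_smul, inv_mul_cancel₀ hn] using this

variable {δ}

theorem der_B {D : Deform L} (hD : Rec δ D) (i : ℕ) : ∀ (n : ℕ) (a b : L),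
    δ.d i (D.B n a b) = D.B n (δ.d i a) b + D.B n a (δ.d i b) := by
  intro n
  induction n using Nat.strong_induction_on with
  | _ n ih =>
    intro a b
    cases n with
    | zero => rw [D.B_zero, D.B_zero, D.B_zero, δ.leib]
    | succ n =>
      apply cancel n
      rw [← map_rat_smul, hD, smul_add, hD, hD, map_sum, ← Finset.sum_add_distrib]
      refine Finset.sum_congr rfl fun s hs => ?_
      rw [map_rat_smul, ih (n - s) (by omega), smul_add, δ.comm i (2 * s), δ.comm i (2 * s + 1)]

theorem low_B {D : Deform L} (hD : Rec δ D) {m : ℕ} {a b : L} (ha : Low δ m a) (hb : Low δ m b)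
    (n : ℕ) : Low δ m (D.B n a b) := by
  intro i hi
  rw [der_B hD, ha i hi, hb i hi, map_zero, map_zero, AddMonoidHom.zero_apply, add_zero]

variable (δ)

/-- the constants of level `n` -/
def Ln (n : ℕ) : Subalgebra ℚ L where
  carrier := {a | Low δ (2 * n) a}
  mul_mem' := by
    intro a b ha hb i hi
    rw [δ.leib, ha i hi, hb i hi, zero_mul, mul_zero, add_zero]
  add_mem' := by
    intro a b ha hb i hi
    rw [map_add, ha i hi, hb i hi, add_zero]
  algebraMap_mem' := by
    intro q i _
    exact d_alg δ i q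

theorem mem_Ln {n : ℕ} {a : L} : a ∈ Ln δ n ↔ Low δ (2 * n) a := Iff.rfl

/-- restricted derivations -/
noncomputable def dn (n : ℕ) : DerFam (Ln δ n) where
  d i := AddMonoidHom.mk' (fun a => ⟨δ.d i a.1, fun j hj => by
    rw [δ.comm, a.2 j hj, map_zero]⟩) (by
      intro a b
      apply Subtype.ext
      exact map_add _ _ _)
  leib i a b := Subtype.ext (δ.leib i a.1 b.1)
  comm i j a := Subtype.ext (δ.comm i j a.1)

theorem dn_val (n i : ℕ) (a : Ln δ n) : ((dn δ n).d i a : L) = δ.d i a := rfl

variable {δ}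

/-- restricted deformation -/
noncomputable def Dn {D : Deform L} (hD : Rec δ D) (n : ℕ) : Deform (Ln δ n) where
  B k := AddMonoidHom.mk' (fun a => AddMonoidHom.mk' (fun b => ⟨D.B k a.1 b.1, low_B hD a.2 b.2 k⟩)
    (by
      intro b c
      apply Subtype.ext
      exact map_add _ _ _))
    (by
      intro a b
      ext c
      show D.B k (a.1 + b.1) c.1 = D.B k a.1 c.1 + D.B k b.1 c.1
      rw [map_add]
      rfl)
  B_zero a b := Subtype.ext (D.B_zero a.1 b.1)
  B_one_right k a := Subtype.ext (D.B_one_right k a.1)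
  B_one_left k a := Subtype.ext (D.B_one_left k a.1)
  assoc k a b c := by
    apply Subtype.ext
    have := D.assoc k a.1 b.1 c.1
    rw [AddSubmonoidClass.coe_finsetSum, AddSubmonoidClass.coe_finsetSum]
    exact this

theorem Dn_val {D : Deform L} (hD : Rec δ D) (n k : ℕ) (a b : Ln δ n) :
    (((Dn hD n).B k a b : Ln δ n) : L) = D.B k a b := rfl

theorem Dn_rec {D : Deform L} (hD : Rec δ D) (n : ℕ) : Rec (dn δ n) (Dn hD n) := by
  intro k a b
  apply Subtype.ext
  have := hD k a.1 b.1
  rw [AddSubmonoidClass.coe_finsetSum]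
  exact this

end Rec

section Incl

variable {L : Type} [CommRing L] [Algebra ℚ L] {δ : DerFam L} {D : Deform L}

/-- coefficientwise inclusion, as a function -/
noncomputable def inc0 (hD : Rec δ D) (n : ℕ) (x : SH (Dn hD n)) : SH D :=
  SH.mk ((SH.toHahn x).map (Ln δ n).val.toRingHom)

theorem inc0_coeff (hD : Rec δ D) (n : ℕ) (x : SH (Dn hD n)) (e : ℚ) :
    (inc0 hD n x).coeff e = (x.coeff e : L) := rfl

theorem inc0_supp (hD : Rec δ D) (n : ℕ) (x : SH (Dn hD n)) : (inc0 hD n x).supp = x.supp := by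
  ext e
  show (x.coeff e : L) ≠ 0 ↔ x.coeff e ≠ 0
  rw [Ne, Ne, ZeroMemClass.coe_eq_zero]

theorem inc0_term (hD : Rec δ D) (n : ℕ) (x y : SH (Dn hD n)) (e : ℚ) (p : ℚ × ℚ × ℕ) :
    SH.term (inc0 hD n x) (inc0 hD n y) e p = ((SH.term x y e p : Ln δ n) : L) := by
  unfold SH.term
  split_ifs
  · rfl
  · rfl

/-- the inclusion of the star rings -/
noncomputable def inc (hD : Rec δ D) (n : ℕ) : SH (Dn hD n) →+* SH D where
  toFun := inc0 hD n
  map_one' := by
    ext e
    rw [inc0_coeff, SH.one_def, SH.one_def, SH.coeff_single, SH.coeff_single]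
    split_ifs <;> rfl
  map_mul' x y := by
    ext e
    have hfin := SH.tri_finite x.isPWO_supp y.isPWO_supp e
    have h1 := SH.coeff_mul_eq_sum x y e hfin.toFinset (fun p h1 h2 h3 => by
      rw [Set.Finite.mem_toFinset]
      exact ⟨h1, h2, h3⟩)
    have h2 := SH.coeff_mul_eq_sum (inc0 hD n x) (inc0 hD n y) e hfin.toFinset
      (fun p h1 h2 h3 => by
        rw [inc0_supp] at h1 h2
        rw [Set.Finite.mem_toFinset]
        exact ⟨h1, h2, h3⟩)
    rw [inc0_coeff, h1, h2, AddSubmonoidClass.coe_finsetSum]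
    exact Finset.sum_congr rfl fun p _ => (inc0_term hD n x y e p).symm
  map_zero' := by
    ext e
    rfl
  map_add' x y := by
    ext e
    rfl

theorem inc_coeff (hD : Rec δ D) (n : ℕ) (x : SH (Dn hD n)) (e : ℚ) :
    (inc hD n x).coeff e = (x.coeff e : L) := rfl

theorem mem_range (hD : Rec δ D) (n : ℕ) (x : SH D) :
    x ∈ (inc hD n).range ↔ ∀ e, Low δ (2 * n) (x.coeff e) := by
  constructor
  · rintro ⟨y, rfl⟩ e
    exact (y.coeff e).2
  · intro h
    refine ⟨SH.mk ⟨fun e => ⟨x.coeff e, h e⟩, ?_⟩, ?_⟩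
    · refine x.isPWO_supp.mono ?_
      intro e he
      rw [Function.mem_support] at he
      intro h0
      apply he
      exact Subtype.ext h0
    · ext e
      rfl

theorem range_mono (hD : Rec δ D) : Monotone (fun n => (inc hD n).range) := by
  intro n m hnm x hx
  rw [mem_range] at hx ⊢
  intro e i hi
  exact hx e i (by omega)

/-- the union -/
noncomputable def RR (hD : Rec δ D) : Subring (SH D) := ⨆ n, (inc hD n).range

theorem mem_RR (hD : Rec δ D) (x : SH D) : x ∈ RR hD ↔ ∃ n, x ∈ (inc hD n).range := by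
  unfold RR
  exact Subring.mem_iSup_of_directed (range_mono hD).directed_le

theorem range_le (hD : Rec δ D) (n : ℕ) : (inc hD n).range ≤ RR hD := by
  intro x hx
  rw [mem_RR]
  exact ⟨n, hx⟩

theorem eval_hom {V W : Type} [Ring V] [Ring W] (f : V →+* W) (t : GTerm V) (a : V) :
    (t.map f).eval (f a) = f (t.eval a) := by
  induction t with
  | const v => rfl
  | var => rfl
  | add s t hs ht =>
    show (s.map f).eval (f a) + (t.map f).eval (f a) = f (s.eval a + t.eval a)
    rw [hs, ht, map_add]
  | mul s t hs ht =>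
    show (s.map f).eval (f a) * (t.map f).eval (f a) = f (s.eval a * t.eval a)
    rw [hs, ht, map_mul]

theorem descend (hD : Rec δ D) (t : GTerm (RR hD)) : ∃ N0 : ℕ, ∀ N, N0 ≤ N →
    ∃ t' : GTerm (SH (Dn hD N)), t'.map (inc hD N) = t.map (RR hD).subtype := by
  induction t with
  | const v =>
    obtain ⟨n, hn⟩ := (mem_RR hD v.1).1 v.2
    refine ⟨n, fun N hN => ?_⟩
    obtain ⟨y, hy⟩ := range_mono hD hN hn
    exact ⟨.const y, by show GTerm.const (inc hD N y) = GTerm.const v.1; rw [hy]⟩
  | var => exact ⟨0, fun N _ => ⟨.var, rfl⟩⟩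
  | add s t hs ht =>
    obtain ⟨n, hn⟩ := hs
    obtain ⟨m, hm⟩ := ht
    refine ⟨max n m, fun N hN => ?_⟩
    obtain ⟨s', hs'⟩ := hn N (le_of_max_le_left hN)
    obtain ⟨t', ht'⟩ := hm N (le_of_max_le_right hN)
    exact ⟨.add s' t', by show GTerm.add _ _ = GTerm.add _ _; rw [hs', ht']⟩
  | mul s t hs ht =>
    obtain ⟨n, hn⟩ := hs
    obtain ⟨m, hm⟩ := ht
    refine ⟨max n m, fun N hN => ?_⟩
    obtain ⟨s', hs'⟩ := hn N (le_of_max_le_left hN)
    obtain ⟨t', ht'⟩ := hm N (le_of_max_le_right hN)
    exact ⟨.mul s' t', by show GTerm.mul _ _ = GTerm.mul _ _; rw [hs', ht']⟩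

theorem dterm_val (n : ℕ) (t : DTerm (Ln δ n)) (a : Ln δ n) :
    (t.map (fun x : Ln δ n => (x : L))).eval δ a.1 = ((t.eval (dn δ n) a : Ln δ n) : L) := by
  induction t with
  | const v => rfl
  | var => rfl
  | add s t hs ht =>
    show (s.map _).eval δ a.1 + (t.map _).eval δ a.1 = _
    rw [hs, ht]
    rfl
  | mul s t hs ht =>
    show (s.map _).eval δ a.1 * (t.map _).eval δ a.1 = _
    rw [hs, ht]
    rfl
  | der i t ht =>
    show δ.d i ((t.map _).eval δ a.1) = _
    rw [ht]
    rfl

theorem dterm_consts (n : ℕ) (t : DTerm (Ln δ n)) :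
    (t.map (fun x : Ln δ n => (x : L))).ConstsIn (Low δ (2 * n)) := by
  induction t with
  | const v => exact v.2
  | var => trivial
  | add s t hs ht => exact ⟨hs, ht⟩
  | mul s t hs ht => exact ⟨hs, ht⟩
  | der i t ht => exact ht

theorem mul_single_coeff (x : SH D) (b : L) (h : ∀ (k : ℕ) (r : ℚ), D.B (k + 1) (x.coeff r) b = 0)
    (e : ℚ) : (x * SH.single 0 b).coeff e = x.coeff e * b := by
  rw [SH.coeff_mul, finsum_eq_single _ ((e, 0, 0) : ℚ × ℚ × ℕ)]
  · unfold SH.term
    rw [SH.coeff_single]
    simp [D.B_zero]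
  · rintro ⟨r, s, n⟩ hne
    unfold SH.term
    simp only
    split_ifs with h1
    · rw [SH.coeff_single]
      split_ifs with h2
      · cases n with
        | zero =>
          exfalso
          apply hne
          have : r = e := by
            rw [h2] at h1
            simpa using h1
          rw [this, h2]
        | succ n => exact h n r
      · rw [map_zero]
    · rfl

theorem single_mul_coeff (x : SH D) (b : L) (h : ∀ (k : ℕ) (r : ℚ), D.B (k + 1) b (x.coeff r) = 0)
    (e : ℚ) : (SH.single 0 b * x).coeff e = b * x.coeff e := by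
  rw [SH.coeff_mul, finsum_eq_single _ ((0, e, 0) : ℚ × ℚ × ℕ)]
  · unfold SH.term
    rw [SH.coeff_single]
    simp [D.B_zero]
  · rintro ⟨r, s, n⟩ hne
    unfold SH.term
    simp only
    split_ifs with h1
    · rw [SH.coeff_single]
      split_ifs with h2
      · cases n with
        | zero =>
          exfalso
          apply hne
          have : s = e := by
            rw [h2] at h1
            simpa using h1
          rw [this, h2]
        | succ n => exact h n s
      · rw [map_zero, AddMonoidHom.zero_apply]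
    · rfl

/-- vanishing of higher terms -/
theorem B_succ_zero (hD : Rec δ D) (a b : L)
    (h : ∀ s, δ.d (2 * s) a = 0 ∨ δ.d (2 * s + 1) b = 0) (n : ℕ) : D.B (n + 1) a b = 0 := by
  apply cancel n
  rw [hD, smul_zero]
  apply Finset.sum_eq_zero
  intro s _
  rcases h s with h | h
  · rw [h, map_zero, AddMonoidHom.zero_apply, smul_zero]
  · rw [h, map_zero, smul_zero]

theorem weyl (hD : Rec δ D) (s : ℕ → L) (hs : ∀ i j, δ.d i (s j) = if i = j then 1 else 0)
    (N : ℕ) : ∃ z w : SH D, z ∈ RR hD ∧ w ∈ RR hD ∧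
      (∀ x ∈ (inc hD N).range, x * z = z * x ∧ x * w = w * x) ∧ w * z - z * w = 1 := by
  set z0 := s (2 * N + 1) with hz0
  set θ0 := s (2 * N) with hθ0
  have hq1 : ∀ q : ℚ, (SH.single q 1 : SH D) = SH.single q (algebraMap ℚ L 1) := by
    intro q
    rw [map_one]
  have hcentral : ∀ (q : ℚ) (x : SH D), SH.single q 1 * x = x * SH.single q 1 := by
    intro q x
    rw [hq1]
    exact SH.single_central q 1 x
  have hcoef : ∀ (q : ℚ) (x : SH D) (e : ℚ), (SH.single q 1 * x).coeff e = x.coeff (e - q) := by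
    intro q x e
    rw [hq1, SH.coeff_single_mul, map_one, one_mul]
  have hzR : (SH.single 0 z0 : SH D) ∈ (inc hD (N + 1)).range := by
    rw [mem_range]
    intro e i hi
    rw [SH.coeff_single]
    split_ifs
    · rw [hz0, hs, if_neg (by omega)]
    · exact map_zero _
  have hθR : (SH.single 0 θ0 : SH D) ∈ (inc hD (N + 1)).range := by
    rw [mem_range]
    intro e i hi
    rw [SH.coeff_single]
    split_ifs
    · rw [hθ0, hs, if_neg (by omega)]
    · exact map_zero _
  have hħR : (SH.single (-((N : ℚ) + 1)) 1 : SH D) ∈ (inc hD (N + 1)).range := by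
    rw [mem_range]
    intro e i hi
    rw [SH.coeff_single]
    split_ifs
    · exact d_one δ i
    · exact map_zero _
  have hxz : ∀ x ∈ (inc hD N).range, x * SH.single 0 z0 = SH.single 0 z0 * x := by
    intro x hx
    rw [mem_range] at hx
    ext e
    rw [mul_single_coeff, single_mul_coeff, mul_comm]
    · intro k r
      apply B_succ_zero hD
      intro s'
      left
      rw [hz0, hs, if_neg (by omega)]
    · intro k r
      apply B_succ_zero hD
      intro s'
      by_cases h : s' = N
      · left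
        rw [h]
        exact hx r (2 * N) le_rfl
      · right
        rw [hz0, hs, if_neg (by omega)]
  have hxθ : ∀ x ∈ (inc hD N).range, x * SH.single 0 θ0 = SH.single 0 θ0 * x := by
    intro x hx
    rw [mem_range] at hx
    ext e
    rw [mul_single_coeff, single_mul_coeff, mul_comm]
    · intro k r
      apply B_succ_zero hD
      intro s'
      by_cases h : s' = N
      · right
        rw [h]
        exact hx r (2 * N + 1) (by omega)
      · left
        rw [hθ0, hs, if_neg (by omega)]
    · intro k r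
      apply B_succ_zero hD
      intro s'
      right
      rw [hθ0, hs, if_neg (by omega)]
  have hBθz : ∀ n : ℕ, D.B (n + 1) θ0 z0 = if n = N then 1 else 0 := by
    intro n
    apply cancel n
    rw [hD]
    have h1 : ∀ s' ∈ range (n + 1), ((s' : ℚ) + 1) • D.B (n - s') (δ.d (2 * s') θ0)
        (δ.d (2 * s' + 1) z0) = if s' = N then ((N : ℚ) + 1) • D.B (n - N) 1 1 else 0 := by
      intro s' _
      by_cases h : s' = N
      · subst h
        rw [if_pos rfl, hθ0, hz0, hs, hs, if_pos rfl, if_pos rfl]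
      · rw [if_neg h, hθ0, hs, if_neg (by omega), map_zero, AddMonoidHom.zero_apply, smul_zero]
    rw [Finset.sum_congr rfl h1, Finset.sum_ite_eq']
    by_cases hn : n = N
    · subst hn
      rw [if_pos (Finset.mem_range.2 (by omega)), if_pos rfl, Nat.sub_self, D.B_zero, mul_one]
    · rw [if_neg hn, smul_zero]
      split_ifs with h2
      · obtain ⟨k, hk⟩ : ∃ k, n - N = k + 1 := ⟨n - N - 1, by
          rw [Finset.mem_range] at h2
          omega⟩
        rw [hk, D.B_one_left, smul_zero]
      · rfl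
  have hcomm : (SH.single 0 θ0 * SH.single 0 z0 - SH.single 0 z0 * SH.single 0 θ0 : SH D) =
      SH.single ((N : ℚ) + 1) 1 := by
    ext e
    have e1 : ∀ x y : SH D, (x - y).coeff e = x.coeff e - y.coeff e := fun x y => rfl
    rw [e1]
    have e2 : (SH.single 0 z0 * SH.single 0 θ0 : SH D).coeff e =
        (SH.single 0 z0 : SH D).coeff e * θ0 := by
      apply mul_single_coeff
      intro k r
      rw [SH.coeff_single]
      split_ifs
      · apply B_succ_zero hD
        intro s'
        left
        rw [hz0, hs, if_neg (by omega)]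
      · rw [map_zero, AddMonoidHom.zero_apply]
    rw [e2, SH.coeff_single_mul_single, SH.coeff_single, SH.coeff_single]
    have hN : ((N : ℚ) + 1) ≠ 0 := by positivity
    by_cases h0 : e = 0
    · rw [if_pos h0, if_neg (by rw [h0]; exact hN.symm), finsum_eq_single _ 0]
      · rw [if_pos (by rw [h0]; simp), D.B_zero]
        ring
      · intro n hn
        rw [if_neg]
        rw [h0]
        simpa using hn
    · rw [if_neg h0, zero_mul, sub_zero]
      by_cases h1 : e = (N : ℚ) + 1
      · rw [if_pos h1, finsum_eq_single _ (N + 1)]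
        · rw [if_pos (by rw [h1]; push_cast; ring), hBθz, if_pos rfl]
        · intro n hn
          rw [if_neg]
          rw [h1]
          intro h2
          apply hn
          have h3 : (n : ℚ) = ((N + 1 : ℕ) : ℚ) := by
            push_cast
            linarith
          exact_mod_cast h3
      · rw [if_neg h1]
        apply finsum_eq_zero_of_forall_eq_zero
        intro n
        split_ifs with h2
        · cases n with
          | zero =>
            exfalso
            apply h0
            rw [← h2]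
            simp
          | succ n =>
            rw [hBθz, if_neg]
            intro h3
            apply h1
            rw [← h2, h3]
            push_cast
            ring
        · rfl
  refine ⟨SH.single 0 z0, SH.single (-((N : ℚ) + 1)) 1 * SH.single 0 θ0,
    range_le hD _ hzR, range_le hD _ (mul_mem hħR hθR), ?_, ?_⟩
  · intro x hx
    refine ⟨hxz x hx, ?_⟩
    rw [← mul_assoc, ← hcentral, mul_assoc, hxθ x hx, mul_assoc]
  · have h1 : SH.single 0 z0 * (SH.single (-((N : ℚ) + 1)) 1 * SH.single 0 θ0) =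
        SH.single (-((N : ℚ) + 1)) 1 * (SH.single 0 z0 * SH.single 0 θ0 : SH D) := by
      rw [← mul_assoc, ← hcentral, mul_assoc]
    rw [h1, mul_assoc, ← mul_sub, hcomm]
    ext e
    rw [hcoef, SH.one_def, SH.coeff_single, SH.coeff_single]
    congr 1
    apply propext
    constructor
    · intro h; linarith
    · intro h; linarith

end Incl

theorem cast_coeff {L : Type} [CommRing L] {D : Deform L} (n : ℕ) :
    ((n : SH D)).coeff 0 = (n : L) := by
  induction n with
  | zero =>
    rw [Nat.cast_zero, Nat.cast_zero]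
    rfl
  | succ n ih =>
    rw [Nat.cast_succ, Nat.cast_succ]
    have h1 : ((n : SH D) + 1).coeff 0 = (n : SH D).coeff 0 + (1 : SH D).coeff 0 := rfl
    rw [h1, ih, SH.one_def, SH.coeff_single, if_pos rfl]

end T12

open T12 in
theorem exists_R
    (hL : ∃ (L : Type) (_ : CommRing L) (_ : IsDomain L) (_ : Algebra ℚ L) (δ : DerFam L),
      (∃ s : ℕ → L, ∀ i j, δ.d i (s j) = if i = j then 1 else 0) ∧
      ∀ (n : ℕ) (t : DTerm L), t.ConstsIn (Low δ n) →
        (∃ a b, Low δ n a ∧ Low δ n b ∧ t.eval δ a ≠ t.eval δ b) →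
        ∃ a, Low δ n a ∧ t.eval δ a = 0) :
    ∃ (R : Type) (_ : Ring R) (_ : Nontrivial R) (_ : CharZero R),
      (∀ t : GTerm R, (∃ a b, t.eval a ≠ t.eval b) → ∃ a, t.eval a = 0) ∧
      ∀ S : Finset R, ∃ z w : R, (∀ s ∈ S, s * z = z * s ∧ s * w = w * s) ∧ w * z - z * w = 1 := by
  classical
  obtain ⟨L, iC, iD, iA, δ, ⟨s, hs⟩, hcl⟩ := hL
  obtain ⟨D, hD⟩ := exists_derDeform δ
  have hD' : Rec δ D := hD
  have hcz : CharZero L := algebraRat.charZero L
  have hcz2 : CharZero (SH D) := by
    refine ⟨fun n m h => ?_⟩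
    have h1 : ((n : SH D)).coeff 0 = ((m : SH D)).coeff 0 := by rw [h]
    rw [cast_coeff, cast_coeff] at h1
    exact_mod_cast h1
  have hcz3 : CharZero (RR hD') := by
    refine ⟨fun n m h => ?_⟩
    have h1 := congrArg Subtype.val h
    rw [SubringClass.coe_natCast, SubringClass.coe_natCast] at h1
    exact_mod_cast h1
  refine ⟨RR hD', inferInstance, ?_, hcz3, ?_, ?_⟩
  · refine ⟨0, 1, fun h => ?_⟩
    have h1 : ((0 : ℕ) : RR hD') = ((1 : ℕ) : RR hD') := by
      rw [Nat.cast_zero, Nat.cast_one]
      exact h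
    exact absurd (Nat.cast_injective h1) (by norm_num)
  · intro t hne
    obtain ⟨a, b, hab⟩ := hne
    obtain ⟨N0, hN0⟩ := descend hD' t
    obtain ⟨n1, hn1⟩ := (mem_RR hD' a.1).1 a.2
    obtain ⟨n2, hn2⟩ := (mem_RR hD' b.1).1 b.2
    set N := max N0 (max n1 n2) with hN
    obtain ⟨t', ht'⟩ := hN0 N (le_max_left _ _)
    obtain ⟨a', ha'⟩ := range_mono hD' (show n1 ≤ N by omega) hn1
    obtain ⟨b', hb'⟩ := range_mono hD' (show n2 ≤ N by omega) hn2
    have key : ∀ (c' : SH (Dn hD' N)) (c : RR hD'), inc hD' N c' = c.1 →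
        inc hD' N (t'.eval c') = (t.eval c).1 := by
      intro c' c hc
      have e1 := eval_hom (inc hD' N) t' c'
      have e2 := eval_hom (RR hD').subtype t c
      rw [← e1, ht', hc]
      exact e2
    have hroot := exists_root (Dn hD' N) ?_ t' ⟨a', b', ?_⟩
    · obtain ⟨c', hc'⟩ := hroot
      have hcR : inc hD' N c' ∈ RR hD' := range_le hD' N ⟨c', rfl⟩
      refine ⟨⟨inc hD' N c', hcR⟩, ?_⟩
      apply Subtype.ext
      rw [← key c' ⟨inc hD' N c', hcR⟩ rfl, hc', map_zero]
      rfl
    · intro φ hφ hφne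
      obtain ⟨tt, htt⟩ := isD_term (dn δ N) (Dn hD' N) (Dn_rec hD' N) φ hφ
      obtain ⟨x, y, hxy⟩ := hφne
      obtain ⟨r, hr1, hr2⟩ := hcl (2 * N) (tt.map (fun x : Ln δ N => (x : L)))
        (dterm_consts N tt) ⟨x.1, y.1, x.2, y.2, by
          rw [dterm_val, dterm_val, ← htt, ← htt]
          exact fun h => hxy (Subtype.ext h)⟩
      refine ⟨⟨r, hr1⟩, ?_⟩
      rw [htt]
      apply Subtype.ext
      rw [← dterm_val]
      exact hr2
    · intro h
      apply hab
      apply Subtype.ext
      rw [← key a' a ha', ← key b' b hb', h]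
  · intro S
    have hfin : ∃ N, ∀ x ∈ S, x.1 ∈ (inc hD' N).range := by
      induction S using Finset.induction_on with
      | empty => exact ⟨0, fun x hx => absurd hx (Finset.notMem_empty x)⟩
      | insert x S _ ih =>
        obtain ⟨N, hN⟩ := ih
        obtain ⟨n, hn⟩ := (mem_RR hD' x.1).1 x.2
        refine ⟨max n N, fun y hy => ?_⟩
        rw [Finset.mem_insert] at hy
        rcases hy with rfl | hy
        · exact range_mono hD' (le_max_left _ _) hn
        · exact range_mono hD' (le_max_right _ _) (hN y hy)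
    obtain ⟨N, hN⟩ := hfin
    obtain ⟨z, w, hz, hw, hc, hwz⟩ := weyl hD' s hs N
    refine ⟨⟨z, hz⟩, ⟨w, hw⟩, ?_, ?_⟩
    · intro x hx
      obtain ⟨h1, h2⟩ := hc x.1 (hN x hx)
      exact ⟨Subtype.ext h1, Subtype.ext h2⟩
    · exact Subtype.ext hwz

end Pool.Agent.H49R2.ACA
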