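import Mathlib

/-!
# T13: a division ring with Weyl pairs commuting with any finite set satisfies no generalised
polynomial identity
-/

namespace Pool.Agent.H49R2.ACA

open Polynomial

/-! ### Independence of left coefficients -/

theorem t13_G1 {P R I : Type} [Field P] [DivisionRing R] [Algebra P R]
    (hcen : ∀ a : R, (∀ b, a * b = b * a) → ∃ p : P, algebraMap P R p = a)
    (b : I → R) (hb : LinearIndependent P b) (s : Finset I) :
    ∀ g : I → R, (∀ y, ∑ l ∈ s, b l * y * g l = 0) → ∀ l ∈ s, g l = 0 := by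
  classical
  induction s using Finset.induction_on with
  | empty => intro g _ l hl; simp at hl
  | insert a s ha ih =>
    intro g hg
    have hga : g a = 0 := by
      by_contra hne
      have h1 : ∀ y, ∑ l ∈ insert a s, b l * y * (g l * (g a)⁻¹) = 0 := by
        intro y
        have h := hg y
        have h0 : ∑ l ∈ insert a s, b l * y * (g l * (g a)⁻¹) =
            (∑ l ∈ insert a s, b l * y * g l) * (g a)⁻¹ := by
          rw [Finset.sum_mul]
          exact Finset.sum_congr rfl fun l _ => by rw [mul_assoc (b l * y)]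
        rw [h0, h, zero_mul]
      have h2 : g a * (g a)⁻¹ = 1 := mul_inv_cancel₀ hne
      have h3 : ∀ l ∈ s, ∀ c, c * (g l * (g a)⁻¹) = g l * (g a)⁻¹ * c := by
        intro l hl c
        have h4 : ∀ y, ∑ l ∈ s, b l * y * (c * (g l * (g a)⁻¹) - g l * (g a)⁻¹ * c) = 0 := by
          intro y
          have h5 := h1 (y * c)
          have h6 : (∑ l ∈ insert a s, b l * y * (g l * (g a)⁻¹)) * c = 0 := by
            rw [h1 y, zero_mul]
          rw [Finset.sum_insert ha, h2, mul_one] at h5 h6
          rw [add_mul, Finset.sum_mul] at h6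
          have h7 : ∑ l ∈ s, b l * y * (c * (g l * (g a)⁻¹) - g l * (g a)⁻¹ * c) =
              (b a * (y * c) + ∑ l ∈ s, b l * (y * c) * (g l * (g a)⁻¹)) -
              (b a * y * c + ∑ l ∈ s, b l * y * (g l * (g a)⁻¹) * c) := by
            rw [mul_assoc (b a) y c, add_sub_add_left_eq_sub, ← Finset.sum_sub_distrib]
            exact Finset.sum_congr rfl fun l _ => by rw [mul_sub]; simp only [mul_assoc]
          rw [h7, h5, h6, sub_zero]
        exact sub_eq_zero.mp (ih _ h4 l hl)
      have h7 : ∀ l ∈ insert a s, ∃ p : P, algebraMap P R p = g l * (g a)⁻¹ := by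
        intro l hl
        rcases Finset.mem_insert.mp hl with rfl | hl
        · exact ⟨1, by rw [map_one, h2]⟩
        · exact hcen _ fun c => (h3 l hl c).symm
      choose! p hp using h7
      have h8 : ∑ l ∈ insert a s, p l • b l = 0 := by
        rw [← h1 1]
        refine Finset.sum_congr rfl fun l hl => ?_
        rw [mul_one, ← hp l hl, Algebra.smul_def, Algebra.commutes]
      have h9 := linearIndependent_iff'.mp hb (insert a s) p h8 a (Finset.mem_insert_self a s)
      have h10 := hp a (Finset.mem_insert_self a s)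
      rw [h9, map_zero, h2] at h10
      exact zero_ne_one h10
    intro l hl
    rcases Finset.mem_insert.mp hl with rfl | hl
    · exact hga
    · refine ih g ?_ l hl
      intro y
      have h := hg y
      rw [Finset.sum_insert ha, hga, mul_zero, zero_add] at h
      exact h

/-! ### Polynomials vanishing at the natural numbers -/

theorem t13_poly {R : Type} [DivisionRing R] [CharZero R] (p : Polynomial R)
    (h : ∀ n : ℕ, p.eval (n : R) = 0) : p = 0 := by
  ext k
  rw [coeff_zero, ← Module.forall_dual_apply_eq_zero_iff ℚ]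
  intro φ
  let q : Polynomial ℚ := ∑ i ∈ Finset.range (p.natDegree + 1), C (φ (p.coeff i)) * X ^ i
  have hq : q = 0 := by
    have hroot : ∀ n : ℕ, q.IsRoot (n : ℚ) := by
      intro n
      have h1 := h n
      rw [Polynomial.eval_eq_sum_range] at h1
      have h2 := congrArg φ h1
      rw [map_sum, map_zero] at h2
      rw [IsRoot.def, eval_finsetSum, ← h2]
      refine Finset.sum_congr rfl fun i _ => ?_
      rw [eval_mul, eval_C, eval_pow, eval_X]
      have h3 : p.coeff i * (n : R) ^ i = ((n : ℚ) ^ i) • p.coeff i := by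
        rw [Algebra.smul_def, map_pow, map_natCast]
        exact ((Nat.cast_commute n (p.coeff i)).pow_left i).symm.eq
      rw [h3, map_smul, smul_eq_mul, mul_comm]
    exact Polynomial.eq_zero_of_infinite_isRoot q (Set.infinite_of_injective_forall_mem
      (f := fun n : ℕ => (n : ℚ)) Nat.cast_injective hroot)
  rcases Nat.lt_or_ge k (p.natDegree + 1) with hk | hk
  · have h1 : q.coeff k = φ (p.coeff k) := by
      simp only [q, finsetSum_coeff, coeff_C_mul, coeff_X_pow, mul_ite, mul_one, mul_zero]
      rw [Finset.sum_ite_eq, if_pos (Finset.mem_range.mpr hk)]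
    rw [← h1, hq, coeff_zero]
  · rw [coeff_eq_zero_of_natDegree_lt (by omega), map_zero]

/-! ### Elimination -/

theorem t13_elim {R : Type} [DivisionRing R] [CharZero R] (n : ℕ) (F : ℕ → R) (N : R)
    (h : ∀ k : ℕ, ∑ p ∈ Finset.range (n + 1), F p * (N - p) ^ k = 0) : F 0 = 0 := by
  have key : ∀ j k : ℕ, ∑ p ∈ Finset.range (n + 1), F p * (N - p) ^ k *
      ((∏ q ∈ Finset.range j, (((q : ℤ) + 1) - (p : ℤ)) : ℤ) : R) = 0 := by
    intro j
    induction j with
    | zero =>
      intro k
      simpa using h k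
    | succ j ih =>
      intro k
      have h1 : ∑ p ∈ Finset.range (n + 1), F p * (N - p) ^ k *
          ((∏ q ∈ Finset.range (j + 1), (((q : ℤ) + 1) - (p : ℤ)) : ℤ) : R) =
          ∑ p ∈ Finset.range (n + 1), F p * (N - p) ^ (k + 1) *
            ((∏ q ∈ Finset.range j, (((q : ℤ) + 1) - (p : ℤ)) : ℤ) : R) -
          (∑ p ∈ Finset.range (n + 1), F p * (N - p) ^ k *
            ((∏ q ∈ Finset.range j, (((q : ℤ) + 1) - (p : ℤ)) : ℤ) : R)) * (N - (j + 1)) := by
        rw [Finset.sum_mul, ← Finset.sum_sub_distrib]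
        refine Finset.sum_congr rfl fun p _ => ?_
        rw [Finset.prod_range_succ, Int.cast_mul]
        set c : R := ((∏ q ∈ Finset.range j, (((q : ℤ) + 1) - (p : ℤ)) : ℤ) : R) with hc
        have hcomm : ∀ a : R, c * a = a * c := fun a => (Int.cast_commute _ a).eq
        have h2 : (((((j : ℤ) + 1) - (p : ℤ)) : ℤ) : R) = (N - p) - (N - (j + 1)) := by
          push_cast
          abel
        rw [h2, pow_succ, mul_sub (c), mul_sub, hcomm (N - p)]
        simp only [mul_assoc]
      rw [h1, ih, ih, zero_mul, sub_zero]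
  have h1 := key n 0
  rw [Finset.sum_range_succ'] at h1
  have h2 : ∑ p ∈ Finset.range n, F (p + 1) * (N - ((p + 1 : ℕ) : R)) ^ 0 *
      ((∏ q ∈ Finset.range n, (((q : ℤ) + 1) - ((p + 1 : ℕ) : ℤ)) : ℤ) : R) = 0 := by
    refine Finset.sum_eq_zero fun p hp => ?_
    have h3 : (∏ q ∈ Finset.range n, (((q : ℤ) + 1) - ((p + 1 : ℕ) : ℤ)) : ℤ) = 0 :=
      Finset.prod_eq_zero hp (by push_cast; ring)
    rw [h3, Int.cast_zero, mul_zero]
  rw [h2, zero_add, pow_zero, mul_one] at h1
  rcases mul_eq_zero.mp h1 with h3 | h3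
  · exact h3
  · exfalso
    rw [Int.cast_eq_zero, Finset.prod_eq_zero_iff] at h3
    obtain ⟨q, -, hq⟩ := h3
    push_cast at hq
    omega

theorem t13_semi {R : Type} [Ring R] {z N : R} (h : z * N = (N - 1) * z) (p k : ℕ) :
    z ^ p * N ^ k = (N - p) ^ k * z ^ p := by
  have h1 : SemiconjBy (z ^ p) N (N - p) := by
    induction p with
    | zero =>
      show z ^ 0 * N = (N - ((0 : ℕ) : R)) * z ^ 0
      simp
    | succ p ih =>
      show z ^ (p + 1) * N = (N - ((p + 1 : ℕ) : R)) * z ^ (p + 1)
      have ih' : z ^ p * N = (N - (p : R)) * z ^ p := ih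
      calc z ^ (p + 1) * N = z ^ p * (z * N) := by rw [pow_succ, mul_assoc]
        _ = (z ^ p * N - z ^ p) * z := by rw [h, ← mul_assoc, mul_sub, mul_one]
        _ = ((N - (p : R)) * z ^ p - 1 * z ^ p) * z := by rw [ih', one_mul]
        _ = (N - ((p + 1 : ℕ) : R)) * z ^ (p + 1) := by
          rw [← sub_mul, pow_succ, mul_assoc]
          push_cast
          rw [sub_sub]
  exact (h1.pow_right k).eq

/-! ### Homogeneous parts -/

section hom

variable {P R X E : Type} [Field P] [DivisionRing R] [Algebra P R] [Ring E] [Algebra P E]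
  (j : R →ₐ[P] E) (x : X → E) (ev : (X → R) → (E →ₐ[P] R))

/-- homogeneous elements of degree `n` -/
inductive T13H : ℕ → E → Prop
  | const (a : R) : T13H 0 (j a)
  | zero (n : ℕ) : T13H n 0
  | mul {n : ℕ} {u : E} (a : R) (i : X) (h : T13H n u) : T13H (n + 1) (j a * x i * u)
  | add {n : ℕ} {u v : E} (h : T13H n u) (h' : T13H n v) : T13H n (u + v)

variable {j x ev}

theorem T13H.left {n : ℕ} {u : E} (h : T13H j x n u) (c : R) : T13H j x n (j c * u) := by
  induction h with
  | const a => rw [← map_mul]; exact T13H.const _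
  | zero n => rw [mul_zero]; exact T13H.zero _
  | mul a i h _ =>
    rw [← mul_assoc, ← mul_assoc, ← map_mul]
    exact T13H.mul _ _ h
  | add _ _ ih ih' => rw [mul_add]; exact T13H.add ih ih'

theorem T13H.sum {n : ℕ} {K : Type} (s : Finset K) (u : K → E)
    (h : ∀ k ∈ s, T13H j x n (u k)) : T13H j x n (∑ k ∈ s, u k) := by
  classical
  induction s using Finset.induction_on with
  | empty => rw [Finset.sum_empty]; exact T13H.zero n
  | insert a s ha ih =>
    rw [Finset.sum_insert ha]
    exact T13H.add (h a (Finset.mem_insert_self a s))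
      (ih fun k hk => h k (Finset.mem_insert_of_mem hk))

theorem T13H.of_zero {n : ℕ} {u : E} (h : T13H j x n u) (hn : n = 0) : ∃ a, u = j a := by
  induction h with
  | const a => exact ⟨a, rfl⟩
  | zero n => exact ⟨0, by rw [map_zero]⟩
  | mul a i h _ => omega
  | add _ _ ih ih' =>
    obtain ⟨a, rfl⟩ := ih hn
    obtain ⟨b, rfl⟩ := ih' hn
    exact ⟨a + b, by rw [map_add]⟩

/-- homogeneity -/
theorem T13H.scale (hev1 : ∀ r a, ev r (j a) = a) (hev2 : ∀ r i, ev r (x i) = r i)
    {n : ℕ} {u : E} (h : T13H j x n u) (r : X → R) (t : ℕ) :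
    ev (fun i => r i * (t : R)) u = ev r u * (t : R) ^ n := by
  induction h with
  | const a => rw [hev1, hev1, pow_zero, mul_one]
  | zero n => rw [map_zero, map_zero, zero_mul]
  | @mul n u a i h ih =>
    rw [map_mul, map_mul, map_mul, map_mul, hev1, hev1, hev2, hev2, ih, pow_succ']
    have h1 : ((t : R)) * (ev r u * (t : R) ^ n) = ev r u * ((t : R) * (t : R) ^ n) := by
      rw [← mul_assoc, (Nat.cast_commute t (ev r u)).eq, mul_assoc]
    rw [mul_assoc a, mul_assoc (r i), h1, mul_assoc a (r i), mul_assoc a, mul_assoc (r i)]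
  | add _ _ ih ih' => rw [map_add, map_add, ih, ih', add_mul]

/-- every element is a sum of homogeneous elements -/
theorem t13_decomp (hgen : Algebra.adjoin P (Set.range j ∪ Set.range x) = ⊤) (f : E) :
    ∃ (n : ℕ) (g : ℕ → E), (∀ m, T13H j x m (g m)) ∧ f = ∑ m ∈ Finset.range n, g m := by
  let T : Submodule P E :=
    { carrier := {f | ∃ (n : ℕ) (g : ℕ → E), (∀ m, T13H j x m (g m)) ∧
        (∀ m, n ≤ m → g m = 0) ∧ f = ∑ m ∈ Finset.range n, g m}
      zero_mem' := ⟨0, 0, fun m => T13H.zero m, fun m _ => rfl, by simp⟩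
      add_mem' := by
        rintro f f' ⟨n, g, hg, h0, rfl⟩ ⟨n', g', hg', h0', rfl⟩
        refine ⟨max n n', g + g', fun m => T13H.add (hg m) (hg' m), fun m hm => ?_, ?_⟩
        · rw [Pi.add_apply, h0 m (le_trans (le_max_left _ _) hm),
            h0' m (le_trans (le_max_right _ _) hm), add_zero]
        · simp only [Pi.add_apply]
          rw [Finset.sum_add_distrib]
          congr 1
          · refine Finset.sum_subset (Finset.range_mono (le_max_left _ _)) fun m _ hm => ?_
            exact h0 m (by simpa using hm)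
          · refine Finset.sum_subset (Finset.range_mono (le_max_right _ _)) fun m _ hm => ?_
            exact h0' m (by simpa using hm)
      smul_mem' := by
        rintro c f ⟨n, g, hg, h0, rfl⟩
        refine ⟨n, fun m => j (algebraMap P R c) * g m, fun m => (hg m).left _, fun m hm => ?_, ?_⟩
        · simp only [h0 m hm, mul_zero]
        · rw [← Finset.mul_sum, AlgHom.commutes, Algebra.smul_def] }
  have hT : ∀ f, f ∈ T := by
    intro f
    have h1 : f ∈ Algebra.adjoin P (Set.range j ∪ Set.range x) := by rw [hgen]; trivial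
    rw [← Subalgebra.mem_toSubmodule, Algebra.adjoin_eq_span] at h1
    refine Submodule.span_induction ?_ T.zero_mem (fun _ _ _ _ h h' => T.add_mem h h')
      (fun c _ _ h => T.smul_mem c h) h1
    intro w hw
    refine Submonoid.closure_induction_left (motive := fun w _ => w ∈ T) ?_ ?_ hw
    · refine ⟨1, fun m => if m = 0 then 1 else 0, fun m => ?_, fun m hm => if_neg (by omega), ?_⟩
      · by_cases hm : m = 0
        · subst hm
          show T13H j x 0 (if (0 : ℕ) = 0 then 1 else 0)
          rw [if_pos rfl, ← map_one j]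
          exact T13H.const _
        · show T13H j x m (if m = 0 then 1 else 0)
          rw [if_neg hm]; exact T13H.zero m
      · simp
    · rintro a (⟨c, rfl⟩ | ⟨i, rfl⟩) y _ ⟨n, g, hg, h0, rfl⟩
      · refine ⟨n, fun m => j c * g m, fun m => (hg m).left _, fun m hm => ?_, ?_⟩
        · simp only [h0 m hm, mul_zero]
        · rw [← Finset.mul_sum]
      · refine ⟨n + 1, fun m => Nat.casesOn m 0 (fun m => j 1 * x i * g m), fun m => ?_,
          fun m hm => ?_, ?_⟩
        · cases m with
          | zero => exact T13H.zero 0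
          | succ m => exact T13H.mul 1 i (hg m)
        · cases m with
          | zero => rfl
          | succ m =>
            show j 1 * x i * g m = 0
            rw [h0 m (by omega), mul_zero]
        · rw [Finset.sum_range_succ', Finset.mul_sum]
          simp
  obtain ⟨n, g, hg, -, h⟩ := hT f
  exact ⟨n, g, hg, h⟩

/-- left coefficients in a basis -/
theorem T13H.rep {I : Type} (b : Module.Basis I P R) {n' : ℕ} {u : E} (h : T13H j x n' u) {n : ℕ}
    (hn : n' = n + 1) : ∃ g : (I × X) →₀ E, (∀ q, T13H j x n (g q)) ∧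
      u = g.sum (fun q e => j (b q.1) * x q.2 * e) := by
  classical
  have hadd : ∀ g g' : (I × X) →₀ E, (g + g').sum (fun q e => j (b q.1) * x q.2 * e) =
      g.sum (fun q e => j (b q.1) * x q.2 * e) + g'.sum (fun q e => j (b q.1) * x q.2 * e) :=
    fun g g' => Finsupp.sum_add_index' (fun _ => mul_zero _) (fun _ _ _ => mul_add _ _ _)
  induction h with
  | const a => omega
  | zero n => exact ⟨0, fun q => T13H.zero _, by rw [Finsupp.sum_zero_index]⟩
  | @mul m u a i h _ =>
    have hm : m = n := by omega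
    subst hm
    have key : ∀ s : Finset I, ∀ c : I → P, ∃ g : (I × X) →₀ E, (∀ q, T13H j x m (g q)) ∧
        j (∑ l ∈ s, c l • b l) * x i * u = g.sum (fun q e => j (b q.1) * x q.2 * e) := by
      intro s c
      induction s using Finset.induction_on with
      | empty => exact ⟨0, fun q => T13H.zero _, by simp⟩
      | insert l s hl ih =>
        obtain ⟨g, hg, he⟩ := ih
        refine ⟨Finsupp.single (l, i) (j (algebraMap P R (c l)) * u) + g, fun q => ?_, ?_⟩
        · rw [Finsupp.add_apply]
          refine T13H.add ?_ (hg q)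
          rw [Finsupp.single_apply]
          split_ifs
          · exact h.left _
          · exact T13H.zero _
        · rw [hadd, ← he, Finsupp.sum_single_index (mul_zero _), Finset.sum_insert hl, map_add,
            add_mul, add_mul]
          congr 1
          rw [map_smul, AlgHom.commutes, Algebra.smul_def, Algebra.commutes]
          simp only [mul_assoc]
          rw [← mul_assoc (x i) (algebraMap P E (c l)), ← Algebra.commutes (c l) (x i)]
          simp only [mul_assoc]
    obtain ⟨g, hg, he⟩ := key (b.repr a).support (b.repr a)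
    refine ⟨g, hg, ?_⟩
    rw [← he]
    have h1 := b.linearCombination_repr a
    rw [Finsupp.linearCombination_apply, Finsupp.sum] at h1
    rw [h1]
  | add _ _ ih ih' =>
    obtain ⟨g, hg, he⟩ := ih hn
    obtain ⟨g', hg', he'⟩ := ih' hn
    exact ⟨g + g', fun q => T13H.add (hg q) (hg' q), by rw [hadd, ← he, ← he']⟩

/-! ### First letter derivative -/

open Classical in
/-- `F p` is the sum of the words of `u` with `x i0` replaced by `y` at the position `p`; the
finite set `S` contains all the elements of `R` which occur -/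
inductive T13Fr (j : R →ₐ[P] E) (x : X → E) (ev : (X → R) → (E →ₐ[P] R)) (r : X → R) (y : R)
    (i0 : X) : ℕ → E → (ℕ → R) → Set R → Prop
  | const (a : R) : T13Fr j x ev r y i0 0 (j a) (fun _ => 0) {a}
  | zero (n : ℕ) : T13Fr j x ev r y i0 n 0 (fun _ => 0) ∅
  | mul {n : ℕ} {u : E} {F : ℕ → R} {S : Set R} (a : R) (i : X)
      (h : T13Fr j x ev r y i0 n u F S) : T13Fr j x ev r y i0 (n + 1) (j a * x i * u)
        (fun p => Nat.casesOn p (if i = i0 then a * y * ev r u else 0) (fun p => a * r i * F p))
        ({a, r i, y} ∪ S)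
  | add {n : ℕ} {u v : E} {F G : ℕ → R} {S S' : Set R} (h : T13Fr j x ev r y i0 n u F S)
      (h' : T13Fr j x ev r y i0 n v G S') :
      T13Fr j x ev r y i0 n (u + v) (fun p => F p + G p) (S ∪ S')

/-- existence, with the value of `F 0` -/
def T13Good (j : R →ₐ[P] E) (x : X → E) (ev : (X → R) → (E →ₐ[P] R)) (r : X → R) (y : R)
    (i0 : X) (n : ℕ) (u : E) (c : R) : Prop :=
  ∃ (F : ℕ → R) (S : Set R), S.Finite ∧ T13Fr j x ev r y i0 n u F S ∧ F 0 = c

theorem T13H.exists_good {n : ℕ} {u : E} (h : T13H j x n u) (r : X → R) (y : R) (i0 : X) :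
    ∃ c, T13Good j x ev r y i0 n u c := by
  induction h with
  | const a => exact ⟨_, _, _, Set.finite_singleton a, T13Fr.const a, rfl⟩
  | zero n => exact ⟨_, _, _, Set.finite_empty, T13Fr.zero n, rfl⟩
  | mul a i _ ih =>
    obtain ⟨_, F, S, hS, hF, -⟩ := ih
    exact ⟨_, _, _, (Set.toFinite _).union hS, T13Fr.mul a i hF, rfl⟩
  | add _ _ ih ih' =>
    obtain ⟨_, F, S, hS, hF, -⟩ := ih
    obtain ⟨_, F', S', hS', hF', -⟩ := ih'
    exact ⟨_, _, _, hS.union hS', T13Fr.add hF hF', rfl⟩

open Classical in
theorem T13H.good_mul {n : ℕ} {u : E} (h : T13H j x n u) (r : X → R) (y : R) (i0 : X) (a : R)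
    (i : X) : T13Good j x ev r y i0 (n + 1) (j a * x i * u)
      (if i = i0 then a * y * ev r u else 0) := by
  obtain ⟨_, F, S, hS, hF, -⟩ := h.exists_good (ev := ev) r y i0
  exact ⟨_, _, (Set.toFinite _).union hS, T13Fr.mul a i hF, rfl⟩

theorem T13Good.sum {r : X → R} {y : R} {i0 : X} {n : ℕ} {K : Type} (s : Finset K) (u : K → E)
    (c : K → R) (h : ∀ k ∈ s, T13Good j x ev r y i0 n (u k) (c k)) :
    T13Good j x ev r y i0 n (∑ k ∈ s, u k) (∑ k ∈ s, c k) := by
  classical
  induction s using Finset.induction_on with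
  | empty =>
    rw [Finset.sum_empty, Finset.sum_empty]
    exact ⟨_, _, Set.finite_empty, T13Fr.zero n, rfl⟩
  | insert a s ha ih =>
    rw [Finset.sum_insert ha, Finset.sum_insert ha]
    obtain ⟨F, S, hS, hF, h0⟩ := h a (Finset.mem_insert_self a s)
    obtain ⟨F', S', hS', hF', h0'⟩ := ih fun k hk => h k (Finset.mem_insert_of_mem hk)
    exact ⟨_, _, hS.union hS', T13Fr.add hF hF', by rw [h0, h0']⟩

open Classical in
/-- the substitution `x_i ↦ r_i z + τ y w δ_{i,i0}` -/
theorem T13Fr.subst (hev1 : ∀ r a, ev r (j a) = a) (hev2 : ∀ r i, ev r (x i) = r i)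
    {r : X → R} {y : R} {i0 : X} {n : ℕ} {u : E} {F : ℕ → R} {S : Set R}
    (h : T13Fr j x ev r y i0 n u F S) (z w : R) (hz : ∀ s ∈ S, Commute s z)
    (hw : ∀ s ∈ S, Commute s w) :
    Commute (ev r u) z ∧ Commute (ev r u) w ∧ (∀ p, Commute (F p) z) ∧
      ∃ q : Polynomial R, (∀ τ : ℕ, ev (fun i => r i * z + if i = i0 then (τ : R) * (y * w) else 0)
        u = q.eval (τ : R)) ∧ q.coeff 0 = ev r u * z ^ n ∧
        q.coeff 1 = ∑ p ∈ Finset.range n, F p * z ^ p * w * z ^ (n - 1 - p) := by
  induction h with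
  | const a =>
    refine ⟨?_, ?_, fun p => Commute.zero_left z, C a, fun τ => ?_, ?_, ?_⟩
    · rw [hev1]; exact hz a rfl
    · rw [hev1]; exact hw a rfl
    · rw [hev1, eval_C]
    · rw [coeff_C_zero, hev1, pow_zero, mul_one]
    · rw [coeff_C_succ, Finset.range_zero, Finset.sum_empty]
  | zero n =>
    refine ⟨?_, ?_, fun p => Commute.zero_left z, 0, fun τ => ?_, ?_, ?_⟩
    · rw [map_zero]; exact Commute.zero_left z
    · rw [map_zero]; exact Commute.zero_left w
    · rw [map_zero, eval_zero]
    · rw [map_zero, coeff_zero, zero_mul]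
    · rw [coeff_zero]
      exact (Finset.sum_eq_zero fun p _ => by rw [zero_mul, zero_mul, zero_mul]).symm
  | @mul n u F S a i h ih =>
    obtain ⟨h1, h2, h3, q, hq, hq0, hq1⟩ := ih (fun s hs => hz s (Or.inr hs))
      (fun s hs => hw s (Or.inr hs))
    have haz : Commute a z := hz a (Or.inl (by simp))
    have haw : Commute a w := hw a (Or.inl (by simp))
    have hrz : Commute (r i) z := hz (r i) (Or.inl (by simp))
    have hrw : Commute (r i) w := hw (r i) (Or.inl (by simp))
    have hyz : Commute y z := hz y (Or.inl (by simp))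
    have hyw : Commute y w := hw y (Or.inl (by simp))
    refine ⟨?_, ?_, fun p => ?_, C (a * r i * z) * q + C (if i = i0 then a * y * w else 0) * (q * Polynomial.X),
      fun τ => ?_, ?_, ?_⟩
    · rw [map_mul, map_mul, hev1, hev2]
      exact (haz.mul_left hrz).mul_left h1
    · rw [map_mul, map_mul, hev1, hev2]
      exact (haw.mul_left hrw).mul_left h2
    · cases p with
      | zero =>
        show Commute (if i = i0 then a * y * ev r u else 0) z
        split_ifs
        · exact (haz.mul_left hyz).mul_left h1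
        · exact Commute.zero_left z
      | succ p => exact (haz.mul_left hrz).mul_left (h3 p)
    · rw [map_mul, map_mul, hev1, hev2, hq τ, eval_add, eval_C_mul, eval_C_mul, eval_mul_X,
        mul_add, add_mul, mul_assoc a (r i) z]
      congr 1
      split_ifs
      · have h4 := (Nat.cast_commute τ (a * (y * w) * q.eval (τ : R))).eq
        calc a * ((τ : R) * (y * w)) * q.eval (τ : R) =
            (τ : R) * (a * (y * w) * q.eval (τ : R)) := by
              rw [← mul_assoc a, ← (Nat.cast_commute τ a).eq]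
              simp only [mul_assoc]
          _ = a * (y * w) * q.eval (τ : R) * (τ : R) := h4
          _ = a * y * w * (q.eval (τ : R) * (τ : R)) := by simp only [mul_assoc]
      · rw [mul_zero, zero_mul, zero_mul]
    · rw [coeff_add, coeff_C_mul, coeff_C_mul, coeff_mul_X_zero, mul_zero, add_zero, hq0, map_mul,
        map_mul, hev1, hev2, pow_succ']
      rw [mul_assoc (a * r i) z, mul_assoc (a * r i), ← mul_assoc z, ← h1.eq, mul_assoc (ev r u)]
    · rw [coeff_add, coeff_C_mul, coeff_C_mul, coeff_mul_X, hq0, hq1, Finset.sum_range_succ',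
        Finset.mul_sum]
      congr 1
      · refine Finset.sum_congr rfl fun p hp => ?_
        have h5 : n + 1 - 1 - (p + 1) = n - 1 - p := by omega
        show a * r i * z * (F p * z ^ p * w * z ^ (n - 1 - p)) =
          a * r i * F p * z ^ (p + 1) * w * z ^ (n + 1 - 1 - (p + 1))
        rw [h5]
        calc a * r i * z * (F p * z ^ p * w * z ^ (n - 1 - p)) =
            a * r i * (z * F p) * z ^ p * w * z ^ (n - 1 - p) := by simp only [mul_assoc]
          _ = a * r i * (F p * z) * z ^ p * w * z ^ (n - 1 - p) := by rw [(h3 p).eq]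
          _ = _ := by rw [pow_succ']; simp only [mul_assoc]
      · show (if i = i0 then a * y * w else 0) * (ev r u * z ^ n) =
          (if i = i0 then a * y * ev r u else 0) * z ^ 0 * w * z ^ (n + 1 - 1 - 0)
        have h5 : n + 1 - 1 - 0 = n := by omega
        rw [h5, pow_zero, mul_one]
        split_ifs
        · calc a * y * w * (ev r u * z ^ n) = a * y * (w * ev r u) * z ^ n := by
                simp only [mul_assoc]
            _ = a * y * (ev r u * w) * z ^ n := by rw [h2.eq]
            _ = _ := by simp only [mul_assoc]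
        · simp
  | @add n u v F G S S' _ _ ih ih' =>
    obtain ⟨h1, h2, h3, q, hq, hq0, hq1⟩ := ih (fun s hs => hz s (Or.inl hs))
      (fun s hs => hw s (Or.inl hs))
    obtain ⟨h1', h2', h3', q', hq', hq0', hq1'⟩ := ih' (fun s hs => hz s (Or.inr hs))
      (fun s hs => hw s (Or.inr hs))
    refine ⟨?_, ?_, fun p => (h3 p).add_left (h3' p), q + q', fun τ => ?_, ?_, ?_⟩
    · rw [map_add]; exact h1.add_left h1'
    · rw [map_add]; exact h2.add_left h2'
    · rw [map_add, hq, hq', eval_add]
    · rw [coeff_add, hq0, hq0', map_add, add_mul]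
    · rw [coeff_add, hq1, hq1', ← Finset.sum_add_distrib]
      exact Finset.sum_congr rfl fun p _ => by simp only [add_mul]

/-- the first letter derivative of an element which vanishes identically is zero -/
theorem T13Good.eq_zero [CharZero R]
    (hW : ∀ S : Finset R, ∃ z w : R, (∀ s ∈ S, s * z = z * s ∧ s * w = w * s) ∧
      w * z - z * w = 1)
    (hev1 : ∀ r a, ev r (j a) = a) (hev2 : ∀ r i, ev r (x i) = r i)
    {r : X → R} {y : R} {i0 : X} {n : ℕ} {u : E} {c : R}
    (h : T13Good j x ev r y i0 (n + 1) u c) (hu : ∀ r, ev r u = 0) : c = 0 := by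
  classical
  obtain ⟨F, S, hS, hF, rfl⟩ := h
  obtain ⟨z, w, hzw, h1⟩ := hW hS.toFinset
  have hz : ∀ s ∈ S, Commute s z := fun s hs => (hzw s (hS.mem_toFinset.mpr hs)).1
  have hw : ∀ s ∈ S, Commute s w := fun s hs => (hzw s (hS.mem_toFinset.mpr hs)).2
  have hz0 : z ≠ 0 := by
    rintro rfl
    rw [mul_zero, zero_mul, sub_zero] at h1
    exact zero_ne_one h1
  have hwz : w * z = z * w + 1 := by rw [← h1]; abel
  have hN : z * (z * w) = (z * w - 1) * z := by
    rw [sub_mul, one_mul, mul_assoc z w z, hwz, mul_add, mul_one, add_sub_cancel_right]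
  apply t13_elim n F (z * w)
  intro k
  obtain ⟨-, -, -, q, hq, -, hq1⟩ := hF.subst hev1 hev2 z ((z * w) ^ k) hz
    (fun s hs => ((hz s hs).mul_right (hw s hs)).pow_right k)
  have hq0 : q = 0 := t13_poly q fun τ => by rw [← hq τ, hu]
  rw [hq0, coeff_zero] at hq1
  have h2 : (∑ p ∈ Finset.range (n + 1), F p * (z * w - p) ^ k) * z ^ n = 0 := by
    rw [hq1, Finset.sum_mul]
    refine Finset.sum_congr rfl fun p hp => ?_
    have h3 : p ≤ n := Nat.lt_succ_iff.mp (Finset.mem_range.mp hp)
    rw [mul_assoc (F p) (z ^ p), t13_semi hN p k, mul_assoc (F p), mul_assoc (F p), mul_assoc,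
      ← pow_add]
    congr 3
    omega
  exact (mul_eq_zero.mp h2).resolve_right (pow_ne_zero n hz0)

theorem t13_main [CharZero R]
    (hcen : ∀ a : R, (∀ b, a * b = b * a) → ∃ p : P, algebraMap P R p = a)
    (hW : ∀ S : Finset R, ∃ z w : R, (∀ s ∈ S, s * z = z * s ∧ s * w = w * s) ∧
      w * z - z * w = 1)
    (hev1 : ∀ r a, ev r (j a) = a) (hev2 : ∀ r i, ev r (x i) = r i) (n : ℕ) :
    ∀ u : E, T13H j x n u → (∀ r, ev r u = 0) → u = 0 := by
  classical
  induction n with
  | zero =>
    intro u hu h0
    obtain ⟨a, rfl⟩ := hu.of_zero rfl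
    have h1 := h0 0
    rw [hev1] at h1
    rw [h1, map_zero]
  | succ n ih =>
    intro u hu h0
    let b := Module.Basis.ofVectorSpace P R
    obtain ⟨g, hg, he⟩ := hu.rep b rfl
    have hg0 : ∀ q, g q = 0 := by
      rintro ⟨l, i0⟩
      apply ih (g (l, i0)) (hg _)
      intro r
      let s := g.support.image Prod.fst
      let t := insert i0 (g.support.image Prod.snd)
      have hu2 : u = ∑ l ∈ s, ∑ i ∈ t, j (b l) * x i * g (l, i) := by
        rw [he, Finsupp.sum_of_support_subset (s := s ×ˢ t) _ ?_ _ (fun _ _ => mul_zero _),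
          Finset.sum_product]
        intro q hq
        rw [Finset.mem_product]
        exact ⟨Finset.mem_image_of_mem _ hq, Finset.mem_insert_of_mem (Finset.mem_image_of_mem _ hq)⟩
      by_cases hl : l ∈ s
      · refine t13_G1 hcen b b.linearIndependent s (fun l => ev r (g (l, i0))) ?_ l hl
        intro y
        have h1 : T13Good j x ev r y i0 (n + 1) u (∑ l ∈ s, ∑ i ∈ t,
            if i = i0 then b l * y * ev r (g (l, i)) else 0) := by
          rw [hu2]
          refine T13Good.sum s _ _ fun l _ => T13Good.sum t _ _ fun i _ => ?_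
          exact (hg (l, i)).good_mul r y i0 (b l) i
        have h2 := h1.eq_zero hW hev1 hev2 h0
        rw [← h2]
        refine Finset.sum_congr rfl fun l _ => ?_
        rw [Finset.sum_ite_eq' t i0, if_pos (Finset.mem_insert_self _ _)]
      · have h1 : g (l, i0) = 0 := by
          by_contra hne
          exact hl (Finset.mem_image.mpr ⟨(l, i0), Finsupp.mem_support_iff.mpr hne, rfl⟩)
        rw [h1, map_zero]
    have hg1 : g = 0 := Finsupp.ext hg0
    rw [he, hg1, Finsupp.sum_zero_index]

end hom

theorem gpi {P R : Type} [Field P] [DivisionRing R] [CharZero R] [Algebra P R]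
    (hcen : ∀ a : R, (∀ b, a * b = b * a) → ∃ p : P, algebraMap P R p = a)
    (hW : ∀ S : Finset R, ∃ z w : R, (∀ s ∈ S, s * z = z * s ∧ s * w = w * s) ∧
      w * z - z * w = 1)
    {X : Type} {E : Type} [Ring E] [Algebra P E] (j : R →ₐ[P] E) (x : X → E)
    (hgen : Algebra.adjoin P (Set.range j ∪ Set.range x) = ⊤)
    (ev : (X → R) → (E →ₐ[P] R)) (hev1 : ∀ r a, ev r (j a) = a) (hev2 : ∀ r i, ev r (x i) = r i)
    (f : E) (hf : ∀ r r', ev r f = ev r' f) : f ∈ Set.range j := by
  obtain ⟨n, g, hg, rfl⟩ := t13_decomp hgen f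
  have h1 : ∀ m < n, m ≠ 0 → g m = 0 := by
    intro m hm hm0
    apply t13_main hcen hW hev1 hev2 m (g m) (hg m)
    intro r
    let a : R := ev 0 (∑ m ∈ Finset.range n, g m)
    let p : Polynomial R := ∑ m ∈ Finset.range n, C (ev r (g m)) * Polynomial.X ^ m - C a
    have hp : p = 0 := by
      apply t13_poly
      intro t
      have h2 := hf (fun i => r i * (t : R)) 0
      rw [map_sum] at h2
      simp only [p, eval_sub, eval_finsetSum, eval_C_mul, eval_X_pow, eval_C]
      rw [sub_eq_zero]
      refine Eq.trans ?_ h2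
      exact Finset.sum_congr rfl fun m _ => ((hg m).scale hev1 hev2 r t).symm
    have h3 : p.coeff m = ev r (g m) := by
      simp only [p, coeff_sub, finsetSum_coeff, coeff_C_mul, coeff_X_pow, mul_ite, mul_one,
        mul_zero]
      rw [Finset.sum_ite_eq, if_pos (Finset.mem_range.mpr hm), coeff_C, if_neg hm0, sub_zero]
    rw [← h3, hp, coeff_zero]
  rcases Nat.eq_zero_or_pos n with hn | hn
  · subst hn
    exact ⟨0, by simp⟩
  · obtain ⟨a, ha⟩ := (hg 0).of_zero rfl
    refine ⟨a, ?_⟩
    rw [← ha]
    refine (Finset.sum_eq_single 0 (fun m hm hm0 => h1 m (Finset.mem_range.mp hm) hm0)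
      (fun h => absurd (Finset.mem_range.mpr hn) h)).symm

end Pool.Agent.H49R2.ACA
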