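import Pool.Agent.H49R2.ACA.Defs
import Pool.Agent.H49R2.ACA.T13

/-!
# T14: from a ring with one variable roots and local Weyl pairs to the final statement
-/

namespace Pool.Agent.H49R2.ACA

theorem final_form {R : Type} [Ring R] [Nontrivial R] [CharZero R]
    (hroot : ∀ t : GTerm R, (∃ a b, t.eval a ≠ t.eval b) → ∃ a, t.eval a = 0)
    (hW : ∀ S : Finset R, ∃ z w : R, (∀ s ∈ S, s * z = z * s ∧ s * w = w * s) ∧
      w * z - z * w = 1) :
    ∃ (P : Type) (_ : Field P) (R : Type) (_ : Ring R) (_ : Algebra P R), Nontrivial R ∧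
      ∀ (E : Type) (_ : Ring E) (_ : Algebra P E) (j : R →ₐ[P] E) (x : ℕ → E)
        (_ : Algebra.adjoin P (Set.range j ∪ Set.range x) = ⊤) (ev : (ℕ → R) → (E →ₐ[P] R))
        (_ : ∀ r a, ev r (j a) = a) (_ : ∀ r i, ev r (x i) = r i),
        ∀ f : E, f ∉ Set.range j → ∃ r : ℕ → R, ev r f = 0 := by
  have hinv : ∀ a : R, a ≠ 0 → ∃ x, a * x = 1 := by
    intro a ha
    obtain ⟨x, hx⟩ := hroot (GTerm.add (GTerm.mul (GTerm.const a) GTerm.var) (GTerm.const (-1)))
      ⟨0, 1, by
        simp only [GTerm.eval, mul_zero, zero_add, mul_one]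
        intro h
        apply ha
        have := congrArg (fun y => y + 1) h
        simpa using this.symm⟩
    refine ⟨x, ?_⟩
    simp only [GTerm.eval] at hx
    rw [← sub_eq_add_neg, sub_eq_zero] at hx
    exact hx
  have hunit : ∀ a : R, IsUnit a ∨ a = 0 := by
    intro a
    by_cases ha : a = 0
    · exact Or.inr ha
    · left
      obtain ⟨x, hx⟩ := hinv a ha
      have hx0 : x ≠ 0 := by
        rintro rfl
        rw [mul_zero] at hx
        exact zero_ne_one hx
      obtain ⟨y, hy⟩ := hinv x hx0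
      have hya : y = a := by
        have : a * x * y = y := by rw [hx, one_mul]
        rw [mul_assoc, hy, mul_one] at this
        exact this.symm
      rw [hya] at hy
      exact ⟨⟨a, x, hx, hy⟩, rfl⟩
  let hdiv : DivisionRing R := DivisionRing.ofIsUnitOrEqZero hunit
  refine ⟨Subring.center R, inferInstance, R, inferInstance, inferInstance, inferInstance, ?_⟩
  intro E _ _ j x hgen ev hev1 hev2 f hf
  have hnc : ∃ r r', ev r f ≠ ev r' f := by
    by_contra hcon
    push Not at hcon
    refine hf (gpi (P := Subring.center R) ?_ hW j x hgen ev hev1 hev2 f hcon)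
    intro a ha
    exact ⟨⟨a, Subring.mem_center_iff.mpr fun b => (ha b).symm⟩, rfl⟩
  obtain ⟨r, r', hrr⟩ := hnc
  have hterm : ∀ g : E, ∃ t : GTerm R, ∀ s : R,
      t.eval s = ev (fun i => r i + s * (r' i - r i)) g := by
    intro g
    have hg : g ∈ Algebra.adjoin (Subring.center R) (Set.range j ∪ Set.range x) := by
      rw [hgen]; exact Algebra.mem_top
    induction hg using Algebra.adjoin_induction with
    | mem y hy =>
      rcases hy with ⟨a, rfl⟩ | ⟨i, rfl⟩
      · exact ⟨GTerm.const a, fun s => by rw [hev1]; rfl⟩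
      · exact ⟨GTerm.add (GTerm.const (r i)) (GTerm.mul GTerm.var (GTerm.const (r' i - r i))),
          fun s => by rw [hev2]; rfl⟩
    | algebraMap p =>
      exact ⟨GTerm.const (algebraMap (Subring.center R) R p), fun s => by
        rw [AlgHom.commutes]; rfl⟩
    | add y z _ _ hy hz =>
      obtain ⟨t1, h1⟩ := hy
      obtain ⟨t2, h2⟩ := hz
      exact ⟨GTerm.add t1 t2, fun s => by rw [map_add, ← h1, ← h2]; rfl⟩
    | mul y z _ _ hy hz =>
      obtain ⟨t1, h1⟩ := hy
      obtain ⟨t2, h2⟩ := hz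
      exact ⟨GTerm.mul t1 t2, fun s => by rw [map_mul, ← h1, ← h2]; rfl⟩
  obtain ⟨t, ht⟩ := hterm f
  obtain ⟨s, hs⟩ := hroot t ⟨0, 1, by
    rw [ht, ht]
    have e0 : (fun i => r i + 0 * (r' i - r i)) = r := by funext i; simp
    have e1 : (fun i => r i + 1 * (r' i - r i)) = r' := by funext i; simp
    rw [e0, e1]
    exact hrr⟩
  exact ⟨_, by rw [← ht]; exact hs⟩

end Pool.Agent.H49R2.ACA
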