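import Pool.Agent.H49R2.ACA.Glue
import Pool.Agent.H49R2.ACA.Closed
import Pool.Agent.H49R2.ACA.T12
import Pool.Agent.H49R2.ACA.T14

/-!
# Algebraically closed associative algebras exist
-/

namespace Pool.Agent.H49R2.ACA

open Pool.Agent.Results.MP_4b1745_al.OneVariable

theorem exists_algClosed : ∃ (P R : Type) (_ : Field P) (_ : Ring R) (_ : Algebra P R),
    Nontrivial R ∧ AlgClosedIn P R ℕ := by
  obtain ⟨R, _, _, _, hroot, hW⟩ := exists_R exists_closed
  obtain ⟨P, _, R', _, _, hnt, h⟩ := final_form hroot hW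
  exact ⟨P, R', inferInstance, inferInstance, inferInstance, hnt, algClosedIn_of P R' h⟩

end Pool.Agent.H49R2.ACA
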