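import Pool.Agent.H49R2.ACA.Defs

/-!
# The star product on Hahn series (definition only)
-/

namespace Pool.Agent.H49R2.ACA

open Finset

namespace SH

variable {L : Type} [CommRing L] {D : Deform L}

/-- the summand of the star product -/
noncomputable def term (x y : SH D) (e : ℚ) (p : ℚ × ℚ × ℕ) : L := by
  classical
  exact if p.1 + p.2.1 + p.2.2 = e then D.B p.2.2 (x.coeff p.1) (y.coeff p.2.1) else 0

theorem isPWO_nat : (Set.range (fun n : ℕ => (n : ℚ))).IsPWO := by
  rw [← Set.image_univ]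
  exact (Set.isPWO_of_wellQuasiOrderedLE _).image_of_monotone (fun a b h => by exact_mod_cast h)

theorem supp_term {x y : SH D} {e : ℚ} {p : ℚ × ℚ × ℕ} (h : term x y e p ≠ 0) :
    p.1 ∈ x.supp ∧ p.2.1 ∈ y.supp ∧ p.1 + p.2.1 + p.2.2 = e := by
  classical
  unfold term at h
  split_ifs at h with h1
  · refine ⟨fun h2 => h ?_, fun h2 => h ?_, h1⟩
    · change x.coeff p.1 = 0 at h2
      rw [h2]; simp
    · change y.coeff p.2.1 = 0 at h2
      rw [h2]; simp
  · exact absurd rfl h

/-- the star product `(x ⋆ y)_e = ∑_{r + s + n = e} B n x_r y_s` -/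
noncomputable def star (x y : SH D) : SH D := mk
  { coeff := fun e => ∑ᶠ p : ℚ × ℚ × ℕ, term x y e p
    isPWO_support' := by
      refine ((x.isPWO_supp.add y.isPWO_supp).add isPWO_nat).mono ?_
      intro e he
      obtain ⟨p, hp⟩ : ∃ p, term x y e p ≠ 0 := by
        by_contra hcon
        push Not at hcon
        exact he (finsum_eq_zero_of_forall_eq_zero hcon)
      obtain ⟨h1, h2, h3⟩ := supp_term hp
      exact ⟨p.1 + p.2.1, ⟨p.1, h1, p.2.1, h2, rfl⟩, p.2.2, ⟨p.2.2, rfl⟩, h3⟩ }

noncomputable instance : Mul (SH D) := ⟨star⟩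

noncomputable instance : One (SH D) := ⟨single 0 1⟩

theorem coeff_mul (x y : SH D) (e : ℚ) : (x * y).coeff e = ∑ᶠ p : ℚ × ℚ × ℕ, term x y e p := rfl

theorem one_def : (1 : SH D) = single 0 1 := rfl

end SH

end Pool.Agent.H49R2.ACA
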