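import Pool.Agent.H49R2.ACA.StarDef

/-!
# Ring structure for the star product on Hahn series
-/

namespace Pool.Agent.H49R2.ACA

open Finset
open scoped Pointwise

namespace SH

variable {L : Type} [CommRing L] {D : Deform L}

theorem term_eq (x y : SH D) (e r s : ℚ) (n : ℕ) :
    term x y e (r, s, n) = if r + s + n = e then D.B n (x.coeff r) (y.coeff s) else 0 := by
  unfold term
  dsimp only

/-- only finitely many terms contribute -/
theorem tri_finite {U W : Set ℚ} (hU : U.IsPWO) (hW : W.IsPWO) (e : ℚ) :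
    {p : ℚ × ℚ × ℕ | p.1 ∈ U ∧ p.2.1 ∈ W ∧ p.1 + p.2.1 + p.2.2 = e}.Finite := by
  have h1 : (Set.antidiagonal (U + W) (Set.range (fun n : ℕ => (n : ℚ))) e).Finite :=
    Set.AddAntidiagonal.finite_of_isPWO (hU.add hW) isPWO_nat e
  have h2 : ∀ v : ℚ, (Set.antidiagonal U W v).Finite := fun v =>
    Set.AddAntidiagonal.finite_of_isPWO hU hW v
  have h3 : (⋃ q ∈ Set.antidiagonal (U + W) (Set.range (fun n : ℕ => (n : ℚ))) e,
      ((fun w : ℚ × ℚ => (w.1, w.2, ⌊q.2⌋₊)) '' Set.antidiagonal U W q.1)).Finite :=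
    h1.biUnion (fun q _ => (h2 q.1).image _)
  refine h3.subset ?_
  rintro ⟨r, s, n⟩ ⟨hr, hs, he⟩
  simp only [Set.mem_iUnion]
  refine ⟨(r + s, (n : ℚ)), ?_, ?_⟩
  · exact ⟨Set.add_mem_add hr hs, ⟨n, rfl⟩, he⟩
  · refine ⟨(r, s), ⟨hr, hs, rfl⟩, ?_⟩
    simp

theorem coeff_mul_eq_sum (x y : SH D) (e : ℚ) (T : Finset (ℚ × ℚ × ℕ))
    (hT : ∀ p : ℚ × ℚ × ℕ, p.1 ∈ x.supp → p.2.1 ∈ y.supp → p.1 + p.2.1 + p.2.2 = e → p ∈ T) :
    (x * y).coeff e = ∑ p ∈ T, term x y e p := by
  rw [coeff_mul]
  apply finsum_eq_sum_of_support_subset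
  intro p hp
  obtain ⟨h1, h2, h3⟩ := supp_term (Function.mem_support.mp hp)
  exact hT p h1 h2 h3

theorem supp_mul_subset (x y : SH D) :
    (x * y).supp ⊆ x.supp + y.supp + Set.range (fun n : ℕ => (n : ℚ)) := by
  intro e he
  obtain ⟨p, hp⟩ : ∃ p, term x y e p ≠ 0 := by
    by_contra hcon
    push Not at hcon
    exact he (finsum_eq_zero_of_forall_eq_zero hcon)
  obtain ⟨h1, h2, h3⟩ := supp_term hp
  exact ⟨p.1 + p.2.1, ⟨p.1, h1, p.2.1, h2, rfl⟩, p.2.2, ⟨p.2.2, rfl⟩, h3⟩

theorem coeff_mul_nested (x y : SH D) (e : ℚ) (FX FY : Finset ℚ) (M : ℕ)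
    (h : ∀ r ∈ x.supp, ∀ s ∈ y.supp, ∀ n : ℕ, r + s + n = e → r ∈ FX ∧ s ∈ FY ∧ n < M) :
    (x * y).coeff e = ∑ r ∈ FX, ∑ s ∈ FY, ∑ n ∈ range M,
      if r + s + n = e then D.B n (x.coeff r) (y.coeff s) else 0 := by
  rw [coeff_mul_eq_sum x y e (FX ×ˢ FY ×ˢ range M)]
  · rw [Finset.sum_product]
    refine Finset.sum_congr rfl fun r _ => ?_
    rw [Finset.sum_product]
    refine Finset.sum_congr rfl fun s _ => ?_
    refine Finset.sum_congr rfl fun n _ => ?_
    exact term_eq x y e r s n
  · rintro ⟨r, s, n⟩ hr hs he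
    obtain ⟨h1, h2, h3⟩ := h r hr s hs n he
    simp only [Finset.mem_product, Finset.mem_range]
    exact ⟨h1, h2, h3⟩

theorem quad_bound {X Y Z : Set ℚ} (hX : X.IsPWO) (hY : Y.IsPWO) (hZ : Z.IsPWO) (e : ℚ) :
    ∃ (FX FY FZ : Finset ℚ) (M : ℕ), ∀ r ∈ X, ∀ s ∈ Y, ∀ t ∈ Z, ∀ n : ℕ,
      r + s + t + n = e → r ∈ FX ∧ s ∈ FY ∧ t ∈ FZ ∧ n < M := by
  classical
  have h1 := tri_finite hX (hY.add hZ) e
  have h2 := tri_finite hY (hX.add hZ) e
  have h3 := tri_finite hZ (hX.add hY) e
  refine ⟨h1.toFinset.image (fun p => p.1), h2.toFinset.image (fun p => p.1),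
    h3.toFinset.image (fun p => p.1), h1.toFinset.sup (fun p => p.2.2) + 1, ?_⟩
  intro r hr s hs t ht n hn
  refine ⟨?_, ?_, ?_, ?_⟩
  · rw [Finset.mem_image]
    refine ⟨(r, s + t, n), ?_, rfl⟩
    rw [Set.Finite.mem_toFinset]
    exact ⟨hr, Set.add_mem_add hs ht, by rw [← hn]; ring⟩
  · rw [Finset.mem_image]
    refine ⟨(s, r + t, n), ?_, rfl⟩
    rw [Set.Finite.mem_toFinset]
    exact ⟨hs, Set.add_mem_add hr ht, by rw [← hn]; ring⟩
  · rw [Finset.mem_image]
    refine ⟨(t, r + s, n), ?_, rfl⟩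
    rw [Set.Finite.mem_toFinset]
    exact ⟨ht, Set.add_mem_add hr hs, by rw [← hn]; ring⟩
  · have h4 : (r, s + t, n) ∈ h1.toFinset := by
      rw [Set.Finite.mem_toFinset]
      exact ⟨hr, Set.add_mem_add hs ht, by rw [← hn]; ring⟩
    exact Nat.lt_succ_of_le (Finset.le_sup (f := fun p : ℚ × ℚ × ℕ => p.2.2) h4)

theorem supp_mul_cases {x y : SH D} {u : ℚ} (hu : u ∈ (x * y).supp) :
    ∃ r ∈ x.supp, ∃ s ∈ y.supp, ∃ j : ℕ, r + s + j = u := by
  obtain ⟨v, ⟨r, hr, s, hs, rfl⟩, w, ⟨j, rfl⟩, rfl⟩ := supp_mul_subset x y hu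
  exact ⟨r, hr, s, hs, j, rfl⟩

theorem assoc_left (x y z : SH D) (e : ℚ) (FX FY FZ : Finset ℚ) (M : ℕ)
    (h : ∀ r ∈ x.supp, ∀ s ∈ y.supp, ∀ t ∈ z.supp, ∀ n : ℕ, r + s + t + n = e →
      r ∈ FX ∧ s ∈ FY ∧ t ∈ FZ ∧ n < M) :
    ((x * y) * z).coeff e = ∑ r ∈ FX, ∑ s ∈ FY, ∑ t ∈ FZ, ∑ i ∈ range M, ∑ j ∈ range M,
      if r + s + t + ((i + j : ℕ) : ℚ) = e then
        D.B i (D.B j (x.coeff r) (y.coeff s)) (z.coeff t) else 0 := by
  classical
  set U : Finset ℚ := (FX ×ˢ FY ×ˢ range M).image (fun p => p.1 + p.2.1 + (p.2.2 : ℚ)) with hU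
  have hUmem : ∀ r ∈ FX, ∀ s ∈ FY, ∀ j ∈ range M, r + s + (j : ℚ) ∈ U := by
    intro r hr s hs j hj
    rw [hU, Finset.mem_image]
    exact ⟨(r, s, j), by simp only [Finset.mem_product]; exact ⟨hr, hs, hj⟩, rfl⟩
  rw [coeff_mul_nested (x * y) z e U FZ M]
  · have key : ∀ u ∈ U, ∀ t ∈ FZ, ∀ i ∈ range M,
        (if u + t + (i : ℚ) = e then D.B i ((x * y).coeff u) (z.coeff t) else 0) =
        ∑ r ∈ FX, ∑ s ∈ FY, ∑ j ∈ range M, if r + s + (j : ℚ) = u then
          (if u + t + (i : ℚ) = e then D.B i (D.B j (x.coeff r) (y.coeff s)) (z.coeff t)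
            else 0) else 0 := by
      intro u _ t _ i _
      by_cases h1 : u + t + (i : ℚ) = e
      · simp only [h1, if_true]
        by_cases h2 : z.coeff t = 0
        · simp [h2]
        · rw [coeff_mul_nested x y u FX FY M]
          · simp only [map_sum, AddMonoidHom.finsetSum_apply]
            refine Finset.sum_congr rfl fun r _ => Finset.sum_congr rfl fun s _ =>
              Finset.sum_congr rfl fun j _ => ?_
            split_ifs
            · rfl
            · simp
          · intro r hr s hs n hn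
            obtain ⟨h3, h4, _, h6⟩ := h r hr s hs t h2 (n + i) (by
              push_cast; rw [← h1, ← hn]; ring)
            exact ⟨h3, h4, by omega⟩
      · simp [h1]
    rw [Finset.sum_congr rfl fun u hu => Finset.sum_congr rfl fun t ht =>
      Finset.sum_congr rfl fun i hi => key u hu t ht i hi]
    calc ∑ u ∈ U, ∑ t ∈ FZ, ∑ i ∈ range M, ∑ r ∈ FX, ∑ s ∈ FY, ∑ j ∈ range M,
          (if r + s + (j : ℚ) = u then
          (if u + t + (i : ℚ) = e then D.B i (D.B j (x.coeff r) (y.coeff s)) (z.coeff t)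
            else 0) else 0)
        = ∑ q ∈ U ×ˢ (FZ ×ˢ range M), ∑ p ∈ FX ×ˢ (FY ×ˢ range M),
          (if p.1 + p.2.1 + (p.2.2 : ℚ) = q.1 then
          (if q.1 + q.2.1 + (q.2.2 : ℚ) = e then
            D.B q.2.2 (D.B p.2.2 (x.coeff p.1) (y.coeff p.2.1)) (z.coeff q.2.1)
            else 0) else 0) := by
          simp only [Finset.sum_product]
      _ = ∑ p ∈ FX ×ˢ (FY ×ˢ range M), ∑ q ∈ U ×ˢ (FZ ×ˢ range M),
          (if p.1 + p.2.1 + (p.2.2 : ℚ) = q.1 then
          (if q.1 + q.2.1 + (q.2.2 : ℚ) = e then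
            D.B q.2.2 (D.B p.2.2 (x.coeff p.1) (y.coeff p.2.1)) (z.coeff q.2.1)
            else 0) else 0) := Finset.sum_comm
      _ = ∑ p ∈ FX ×ˢ (FY ×ˢ range M), ∑ t ∈ FZ, ∑ i ∈ range M,
          (if p.1 + p.2.1 + (p.2.2 : ℚ) + t + (i : ℚ) = e then
            D.B i (D.B p.2.2 (x.coeff p.1) (y.coeff p.2.1)) (z.coeff t) else 0) := by
          refine Finset.sum_congr rfl fun p hp => ?_
          simp only [Finset.mem_product] at hp
          rw [Finset.sum_product, Finset.sum_eq_single (p.1 + p.2.1 + (p.2.2 : ℚ))]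
          · rw [Finset.sum_product]
            simp
          · intro u _ hu
            apply Finset.sum_eq_zero
            intro w _
            rw [if_neg (Ne.symm hu)]
          · intro hcon
            exact absurd (hUmem _ hp.1 _ hp.2.1 _ hp.2.2) hcon
      _ = ∑ r ∈ FX, ∑ s ∈ FY, ∑ t ∈ FZ, ∑ i ∈ range M, ∑ j ∈ range M,
          (if r + s + t + ((i + j : ℕ) : ℚ) = e then
            D.B i (D.B j (x.coeff r) (y.coeff s)) (z.coeff t) else 0) := by
          simp only [Finset.sum_product]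
          refine Finset.sum_congr rfl fun r _ => Finset.sum_congr rfl fun s _ => ?_
          rw [Finset.sum_comm]
          refine Finset.sum_congr rfl fun t _ => ?_
          rw [Finset.sum_comm]
          refine Finset.sum_congr rfl fun i _ => Finset.sum_congr rfl fun j _ => ?_
          have : (r + s + (j : ℚ) + t + (i : ℚ) = e) ↔ (r + s + t + ((i + j : ℕ) : ℚ) = e) := by
            push_cast
            constructor <;> intro h <;> rw [← h] <;> ring
          simp only [this]
  · intro u hu t ht i hi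
    obtain ⟨r, hr, s, hs, j, rfl⟩ := supp_mul_cases hu
    obtain ⟨h3, h4, h5, h6⟩ := h r hr s hs t ht (j + i) (by push_cast; rw [← hi]; ring)
    exact ⟨hUmem r h3 s h4 j (Finset.mem_range.mpr (by omega)), h5, by omega⟩

theorem assoc_right (x y z : SH D) (e : ℚ) (FX FY FZ : Finset ℚ) (M : ℕ)
    (h : ∀ r ∈ x.supp, ∀ s ∈ y.supp, ∀ t ∈ z.supp, ∀ n : ℕ, r + s + t + n = e →
      r ∈ FX ∧ s ∈ FY ∧ t ∈ FZ ∧ n < M) :
    (x * (y * z)).coeff e = ∑ r ∈ FX, ∑ s ∈ FY, ∑ t ∈ FZ, ∑ i ∈ range M, ∑ j ∈ range M,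
      if r + s + t + ((i + j : ℕ) : ℚ) = e then
        D.B i (x.coeff r) (D.B j (y.coeff s) (z.coeff t)) else 0 := by
  classical
  set V : Finset ℚ := (FY ×ˢ FZ ×ˢ range M).image (fun p => p.1 + p.2.1 + (p.2.2 : ℚ)) with hV
  have hVmem : ∀ s ∈ FY, ∀ t ∈ FZ, ∀ j ∈ range M, s + t + (j : ℚ) ∈ V := by
    intro s hs t ht j hj
    rw [hV, Finset.mem_image]
    exact ⟨(s, t, j), by simp only [Finset.mem_product]; exact ⟨hs, ht, hj⟩, rfl⟩
  rw [coeff_mul_nested x (y * z) e FX V M]
  · refine Finset.sum_congr rfl fun r _ => ?_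
    have key : ∀ v ∈ V, ∀ i ∈ range M,
        (if r + v + (i : ℚ) = e then D.B i (x.coeff r) ((y * z).coeff v) else 0) =
        ∑ s ∈ FY, ∑ t ∈ FZ, ∑ j ∈ range M, if s + t + (j : ℚ) = v then
          (if r + v + (i : ℚ) = e then D.B i (x.coeff r) (D.B j (y.coeff s) (z.coeff t))
            else 0) else 0 := by
      intro v _ i _
      by_cases h1 : r + v + (i : ℚ) = e
      · simp only [h1, if_true]
        by_cases h2 : x.coeff r = 0
        · simp [h2]
        · rw [coeff_mul_nested y z v FY FZ M]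
          · simp only [map_sum]
            refine Finset.sum_congr rfl fun s _ => Finset.sum_congr rfl fun t _ =>
              Finset.sum_congr rfl fun j _ => ?_
            split_ifs
            · rfl
            · simp
          · intro s hs t ht n hn
            obtain ⟨_, h4, h5, h6⟩ := h r h2 s hs t ht (n + i) (by
              push_cast; rw [← h1, ← hn]; ring)
            exact ⟨h4, h5, by omega⟩
      · simp [h1]
    rw [Finset.sum_congr rfl fun v hv => Finset.sum_congr rfl fun i hi => key v hv i hi]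
    calc ∑ v ∈ V, ∑ i ∈ range M, ∑ s ∈ FY, ∑ t ∈ FZ, ∑ j ∈ range M,
          (if s + t + (j : ℚ) = v then
          (if r + v + (i : ℚ) = e then D.B i (x.coeff r) (D.B j (y.coeff s) (z.coeff t))
            else 0) else 0)
        = ∑ q ∈ V ×ˢ range M, ∑ p ∈ FY ×ˢ (FZ ×ˢ range M),
          (if p.1 + p.2.1 + (p.2.2 : ℚ) = q.1 then
          (if r + q.1 + (q.2 : ℚ) = e then
            D.B q.2 (x.coeff r) (D.B p.2.2 (y.coeff p.1) (z.coeff p.2.1))
            else 0) else 0) := by
          simp only [Finset.sum_product]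
      _ = ∑ p ∈ FY ×ˢ (FZ ×ˢ range M), ∑ q ∈ V ×ˢ range M,
          (if p.1 + p.2.1 + (p.2.2 : ℚ) = q.1 then
          (if r + q.1 + (q.2 : ℚ) = e then
            D.B q.2 (x.coeff r) (D.B p.2.2 (y.coeff p.1) (z.coeff p.2.1))
            else 0) else 0) := Finset.sum_comm
      _ = ∑ p ∈ FY ×ˢ (FZ ×ˢ range M), ∑ i ∈ range M,
          (if r + (p.1 + p.2.1 + (p.2.2 : ℚ)) + (i : ℚ) = e then
            D.B i (x.coeff r) (D.B p.2.2 (y.coeff p.1) (z.coeff p.2.1)) else 0) := by
          refine Finset.sum_congr rfl fun p hp => ?_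
          simp only [Finset.mem_product] at hp
          rw [Finset.sum_product, Finset.sum_eq_single (p.1 + p.2.1 + (p.2.2 : ℚ))]
          · simp
          · intro u _ hu
            apply Finset.sum_eq_zero
            intro w _
            rw [if_neg (Ne.symm hu)]
          · intro hcon
            exact absurd (hVmem _ hp.1 _ hp.2.1 _ hp.2.2) hcon
      _ = ∑ s ∈ FY, ∑ t ∈ FZ, ∑ i ∈ range M, ∑ j ∈ range M,
          (if r + s + t + ((i + j : ℕ) : ℚ) = e then
            D.B i (x.coeff r) (D.B j (y.coeff s) (z.coeff t)) else 0) := by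
          simp only [Finset.sum_product]
          refine Finset.sum_congr rfl fun s _ => Finset.sum_congr rfl fun t _ => ?_
          rw [Finset.sum_comm]
          refine Finset.sum_congr rfl fun i _ => Finset.sum_congr rfl fun j _ => ?_
          have : (r + (s + t + (j : ℚ)) + (i : ℚ) = e) ↔
              (r + s + t + ((i + j : ℕ) : ℚ) = e) := by
            push_cast
            constructor <;> intro h <;> rw [← h] <;> ring
          simp only [this]
  · intro r hr v hv i hi
    obtain ⟨s, hs, t, ht, j, rfl⟩ := supp_mul_cases hv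
    obtain ⟨h3, h4, h5, h6⟩ := h r hr s hs t ht (j + i) (by push_cast; rw [← hi]; ring)
    exact ⟨h3, hVmem s h4 t h5 j (Finset.mem_range.mpr (by omega)), by omega⟩

theorem sum_square (M N : ℕ) (hN : N < M) (F : ℕ → ℕ → L) :
    ∑ i ∈ range M, ∑ j ∈ range M, (if i + j = N then F i j else 0) =
      ∑ p ∈ antidiagonal N, F p.1 p.2 := by
  rw [← Finset.sum_product', ← Finset.sum_filter]
  apply Finset.sum_congr
  · ext ⟨i, j⟩
    simp only [Finset.mem_filter, Finset.mem_product, Finset.mem_range,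
      Finset.HasAntidiagonal.mem_antidiagonal]
    omega
  · intro p _
    rfl

theorem mul_assoc' (x y z : SH D) : x * y * z = x * (y * z) := by
  ext e
  obtain ⟨FX, FY, FZ, M, h⟩ := quad_bound x.isPWO_supp y.isPWO_supp z.isPWO_supp e
  rw [assoc_left x y z e FX FY FZ M h, assoc_right x y z e FX FY FZ M h]
  refine Finset.sum_congr rfl fun r _ => Finset.sum_congr rfl fun s _ =>
    Finset.sum_congr rfl fun t _ => ?_
  by_cases hr : x.coeff r = 0
  · simp [hr]
  by_cases hs : y.coeff s = 0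
  · simp [hs]
  by_cases ht : z.coeff t = 0
  · simp [ht]
  by_cases hN : ∃ N : ℕ, r + s + t + (N : ℚ) = e
  · obtain ⟨N, hN⟩ := hN
    obtain ⟨_, _, _, hNM⟩ := h r hr s hs t ht N hN
    have hiff : ∀ i j : ℕ, (r + s + t + ((i + j : ℕ) : ℚ) = e) ↔ i + j = N := by
      intro i j
      rw [← hN, add_right_inj, Nat.cast_inj]
    simp only [hiff]
    rw [sum_square M N hNM (fun i j => D.B i (D.B j (x.coeff r) (y.coeff s)) (z.coeff t)),
      sum_square M N hNM (fun i j => D.B i (x.coeff r) (D.B j (y.coeff s) (z.coeff t)))]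
    exact D.assoc N _ _ _
  · push Not at hN
    simp only [hN, if_false]

theorem left_distrib' (x y z : SH D) : x * (y + z) = x * y + x * z := by
  classical
  ext e
  have hf := tri_finite x.isPWO_supp (y.isPWO_supp.union z.isPWO_supp) e
  rw [coeff_add, coeff_mul_eq_sum x (y + z) e hf.toFinset, coeff_mul_eq_sum x y e hf.toFinset,
    coeff_mul_eq_sum x z e hf.toFinset, ← Finset.sum_add_distrib]
  · refine Finset.sum_congr rfl fun p _ => ?_
    obtain ⟨r, s, n⟩ := p
    rw [term_eq, term_eq, term_eq]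
    split_ifs
    · rw [coeff_add, map_add]
    · rw [add_zero]
  · intro p h1 h2 h3
    rw [Set.Finite.mem_toFinset]
    exact ⟨h1, Or.inr h2, h3⟩
  · intro p h1 h2 h3
    rw [Set.Finite.mem_toFinset]
    exact ⟨h1, Or.inl h2, h3⟩
  · intro p h1 h2 h3
    rw [Set.Finite.mem_toFinset]
    refine ⟨h1, ?_, h3⟩
    by_contra hcon
    simp only [Set.mem_union, not_or] at hcon
    have h4 : y.coeff p.2.1 = 0 := by
      by_contra h; exact hcon.1 h
    have h5 : z.coeff p.2.1 = 0 := by
      by_contra h; exact hcon.2 h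
    exact h2 (by rw [coeff_add, h4, h5, add_zero])

theorem right_distrib' (x y z : SH D) : (x + y) * z = x * z + y * z := by
  classical
  ext e
  have hf := tri_finite (x.isPWO_supp.union y.isPWO_supp) z.isPWO_supp e
  rw [coeff_add, coeff_mul_eq_sum (x + y) z e hf.toFinset, coeff_mul_eq_sum x z e hf.toFinset,
    coeff_mul_eq_sum y z e hf.toFinset, ← Finset.sum_add_distrib]
  · refine Finset.sum_congr rfl fun p _ => ?_
    obtain ⟨r, s, n⟩ := p
    rw [term_eq, term_eq, term_eq]
    split_ifs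
    · rw [coeff_add, map_add, AddMonoidHom.add_apply]
    · rw [add_zero]
  · intro p h1 h2 h3
    rw [Set.Finite.mem_toFinset]
    exact ⟨Or.inr h1, h2, h3⟩
  · intro p h1 h2 h3
    rw [Set.Finite.mem_toFinset]
    exact ⟨Or.inl h1, h2, h3⟩
  · intro p h1 h2 h3
    rw [Set.Finite.mem_toFinset]
    refine ⟨?_, h2, h3⟩
    by_contra hcon
    simp only [Set.mem_union, not_or] at hcon
    have h4 : x.coeff p.1 = 0 := by
      by_contra h; exact hcon.1 h
    have h5 : y.coeff p.1 = 0 := by
      by_contra h; exact hcon.2 h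
    exact h1 (by rw [coeff_add, h4, h5, add_zero])

theorem zero_mul' (x : SH D) : 0 * x = 0 := by
  ext e
  rw [coeff_mul, coeff_zero]
  apply finsum_eq_zero_of_forall_eq_zero
  rintro ⟨r, s, n⟩
  rw [term_eq]
  simp

theorem mul_zero' (x : SH D) : x * 0 = 0 := by
  ext e
  rw [coeff_mul, coeff_zero]
  apply finsum_eq_zero_of_forall_eq_zero
  rintro ⟨r, s, n⟩
  rw [term_eq]
  simp

theorem coeff_one (e : ℚ) : (1 : SH D).coeff e = if e = 0 then 1 else 0 := by
  rw [one_def, coeff_single]

theorem one_mul' (x : SH D) : 1 * x = x := by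
  ext e
  rw [coeff_mul, finsum_eq_single _ ((0 : ℚ), e, 0)]
  · rw [term_eq, coeff_one, if_pos rfl, D.B_zero]
    simp
  · rintro ⟨r, s, n⟩ hne
    rw [term_eq, coeff_one]
    split_ifs with h1 h2
    · subst h2
      cases n with
      | zero =>
        exfalso
        apply hne
        simp only [Nat.cast_zero, zero_add, add_zero] at h1
        rw [h1]
      | succ n => exact D.B_one_left n _
    · simp
    · rfl

theorem mul_one' (x : SH D) : x * 1 = x := by
  ext e
  rw [coeff_mul, finsum_eq_single _ (e, (0 : ℚ), 0)]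
  · rw [term_eq, coeff_one, if_pos rfl, D.B_zero]
    simp
  · rintro ⟨r, s, n⟩ hne
    rw [term_eq, coeff_one]
    split_ifs with h1 h2
    · subst h2
      cases n with
      | zero =>
        exfalso
        apply hne
        simp only [Nat.cast_zero, add_zero] at h1
        rw [h1]
      | succ n => exact D.B_one_right n _
    · simp
    · rfl

/-- the ring structure; `+`, `-`, `0` are those of Hahn series, `*` is `star`, `1 = single 0 1`. -/
noncomputable instance instRing : Ring (SH D) :=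
  { (inferInstance : AddCommGroup (SH D)), (inferInstance : Mul (SH D)),
    (inferInstance : One (SH D)) with
    left_distrib := left_distrib'
    right_distrib := right_distrib'
    zero_mul := zero_mul'
    mul_zero := mul_zero'
    mul_assoc := mul_assoc'
    one_mul := one_mul'
    mul_one := mul_one' }

theorem B_rat_left [Algebra ℚ L] (n : ℕ) (c : ℚ) (a : L) :
    D.B (n + 1) (algebraMap ℚ L c) a = 0 := by
  have h1 : algebraMap ℚ L c = c • (1 : L) := Algebra.algebraMap_eq_smul_one c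
  have h2 := map_rat_smul ((D.B (n + 1)).flip a) c (1 : L)
  rw [AddMonoidHom.flip_apply, AddMonoidHom.flip_apply, D.B_one_left, smul_zero] at h2
  rw [h1, h2]

theorem B_rat_right [Algebra ℚ L] (n : ℕ) (c : ℚ) (a : L) :
    D.B (n + 1) a (algebraMap ℚ L c) = 0 := by
  have h1 : algebraMap ℚ L c = c • (1 : L) := Algebra.algebraMap_eq_smul_one c
  have h2 := map_rat_smul (D.B (n + 1) a) c (1 : L)
  rw [D.B_one_right, smul_zero] at h2
  rw [h1, h2]

theorem coeff_single_mul [Algebra ℚ L] (q c : ℚ) (x : SH D) (e : ℚ) :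
    (single q (algebraMap ℚ L c) * x).coeff e = algebraMap ℚ L c * x.coeff (e - q) := by
  rw [coeff_mul, finsum_eq_single _ (q, e - q, 0)]
  · rw [term_eq, coeff_single, if_pos rfl, D.B_zero]
    simp
  · rintro ⟨r, s, n⟩ hne
    rw [term_eq, coeff_single]
    split_ifs with h1 h2
    · subst h2
      cases n with
      | zero =>
        exfalso
        apply hne
        simp only [Nat.cast_zero, add_zero] at h1
        rw [← h1, add_sub_cancel_left]
      | succ n => exact B_rat_left n c _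
    · simp
    · rfl

theorem coeff_mul_single [Algebra ℚ L] (q c : ℚ) (x : SH D) (e : ℚ) :
    (x * single q (algebraMap ℚ L c)).coeff e = x.coeff (e - q) * algebraMap ℚ L c := by
  rw [coeff_mul, finsum_eq_single _ (e - q, q, 0)]
  · rw [term_eq, coeff_single, if_pos rfl, D.B_zero]
    simp
  · rintro ⟨r, s, n⟩ hne
    rw [term_eq, coeff_single]
    split_ifs with h1 h2
    · subst h2
      cases n with
      | zero =>
        exfalso
        apply hne
        simp only [Nat.cast_zero, add_zero] at h1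
        rw [← h1, add_sub_cancel_right]
      | succ n => exact B_rat_right n c _
    · simp
    · rfl

theorem single_central [Algebra ℚ L] (q c : ℚ) (x : SH D) :
    single q (algebraMap ℚ L c) * x = x * single q (algebraMap ℚ L c) := by
  ext e
  rw [coeff_single_mul, coeff_mul_single, mul_comm]

theorem coeff_single_mul_single (q r : ℚ) (a b : L) (e : ℚ) :
    (single q a * single r b : SH D).coeff e =
      ∑ᶠ n : ℕ, if q + r + n = e then D.B n a b else 0 := by
  rw [coeff_mul]
  by_cases hN : ∃ N : ℕ, q + r + (N : ℚ) = e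
  · obtain ⟨N, hN⟩ := hN
    rw [finsum_eq_single _ (q, r, N), finsum_eq_single _ N, if_pos hN, term_eq, coeff_single,
      coeff_single, if_pos rfl, if_pos rfl, if_pos hN]
    · intro n hn
      rw [if_neg]
      intro h
      apply hn
      have : (n : ℚ) = N := by linarith
      exact_mod_cast this
    · rintro ⟨r', s', n⟩ hne
      rw [term_eq, coeff_single, coeff_single]
      split_ifs with h1 h2 h3
      · subst h2 h3
        exfalso
        apply hne
        have : (n : ℚ) = N := by linarith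
        have h4 : n = N := by exact_mod_cast this
        rw [h4]
      · simp
      · simp
      · simp
      · rfl
  · push Not at hN
    rw [finsum_eq_zero_of_forall_eq_zero, finsum_eq_zero_of_forall_eq_zero]
    · intro n
      rw [if_neg (hN n)]
    · rintro ⟨r', s', n⟩
      rw [term_eq, coeff_single, coeff_single]
      split_ifs with h1 h2 h3
      · subst h2 h3
        exact absurd h1 (hN n)
      · simp
      · simp
      · simp
      · rfl

end SH

end Pool.Agent.H49R2.ACA
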