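import Pool.Agent.H49R2.ACA.StarDef

/-!
# STUB of `StarRing.lean`: ring structure for the star product (sorried)
-/

namespace Pool.Agent.H49R2.ACA

open Finset
open scoped Pointwise

namespace SH

variable {L : Type} [CommRing L] {D : Deform L}

/-- the ring structure; `+`, `-`, `0` are those of Hahn series, `*` is `star`, `1 = single 0 1`. -/
noncomputable instance instRing : Ring (SH D) :=
  { (inferInstance : AddCommGroup (SH D)), (inferInstance : Mul (SH D)),
    (inferInstance : One (SH D)) with
    left_distrib := sorry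
    right_distrib := sorry
    zero_mul := sorry
    mul_zero := sorry
    mul_assoc := sorry
    one_mul := sorry
    mul_one := sorry }

/-- only finitely many terms contribute -/
theorem tri_finite {U W : Set ℚ} (hU : U.IsPWO) (hW : W.IsPWO) (e : ℚ) :
    {p : ℚ × ℚ × ℕ | p.1 ∈ U ∧ p.2.1 ∈ W ∧ p.1 + p.2.1 + p.2.2 = e}.Finite := sorry

theorem coeff_mul_eq_sum (x y : SH D) (e : ℚ) (T : Finset (ℚ × ℚ × ℕ))
    (hT : ∀ p : ℚ × ℚ × ℕ, p.1 ∈ x.supp → p.2.1 ∈ y.supp → p.1 + p.2.1 + p.2.2 = e → p ∈ T) :
    (x * y).coeff e = ∑ p ∈ T, term x y e p := sorry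

theorem supp_mul_subset (x y : SH D) :
    (x * y).supp ⊆ x.supp + y.supp + Set.range (fun n : ℕ => (n : ℚ)) := sorry

theorem coeff_single_mul [Algebra ℚ L] (q c : ℚ) (x : SH D) (e : ℚ) :
    (single q (algebraMap ℚ L c) * x).coeff e = algebraMap ℚ L c * x.coeff (e - q) := sorry

theorem single_central [Algebra ℚ L] (q c : ℚ) (x : SH D) :
    single q (algebraMap ℚ L c) * x = x * single q (algebraMap ℚ L c) := sorry

theorem coeff_single_mul_single (q r : ℚ) (a b : L) (e : ℚ) :
    (single q a * single r b : SH D).coeff e =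
      ∑ᶠ n : ℕ, if q + r + n = e then D.B n a b else 0 := sorry

end SH

end Pool.Agent.H49R2.ACA
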