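import Pool.Agent.H49R2.ACA.StarRingStub

/-!
# Exact statements of the modules
-/

namespace Pool.Agent.H49R2.ACA.Stubs

open Finset
open scoped Pointwise

/-! ## T1 -/

theorem zorn_hahn {L : Type} [AddCommGroup L] (F : HahnSeries ℚ L → WithTop ℚ)
    (step : ∀ x, F x ≠ ⊤ → ∃ q : ℚ,
      (∀ y : HahnSeries ℚ L, (∀ r < q, y.coeff r = 0) → F x ≤ F (x + y)) ∧
      ∃ y : HahnSeries ℚ L, (∀ r < q, y.coeff r = 0) ∧ F x < F (x + y)) :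
    ∃ x, F x = ⊤ := sorry

/-! ## T3a -/

theorem eval_poly {V : Type} [Ring V] (t : GTerm V) : ∃ N : ℕ, ∀ u v : V, ∃ p : Polynomial V,
    p.natDegree ≤ N ∧ ∀ c : V, (∀ x, c * x = x * c) → t.eval (u + c * v) = p.eval c := sorry

theorem supp_bound {L : Type} [CommRing L] {D : Deform L} (t : GTerm (SH D)) (U : Set ℚ)
    (hU : U.IsPWO) : ∃ W : Set ℚ, W.IsPWO ∧ ∀ y : SH D, y.supp ⊆ U → (t.eval y).supp ⊆ W := sorry

theorem finitary {L : Type} [CommRing L] {D : Deform L} (t : GTerm (SH D)) (y : SH D) (e : ℚ) :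
    ∃ S : Finset ℚ, ∀ y' : SH D, y'.supp ⊆ y.supp → (∀ r ∈ S, y'.coeff r = y.coeff r) →
      (t.eval y').coeff e = (t.eval y).coeff e := sorry

theorem isD_coeff {L : Type} [CommRing L] {D : Deform L} (t : GTerm (SH D)) (e : ℚ) :
    IsD D (fun ξ => (t.eval (SH.single 0 ξ)).coeff e) := sorry

/-! ## T3b -/

theorem exists_root {L : Type} [CommRing L] [IsDomain L] [Algebra ℚ L] (D : Deform L)
    (H : ∀ φ : L → L, IsD D φ → (∃ a b, φ a ≠ φ b) → ∃ a, φ a = 0)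
    (t : GTerm (SH D)) (hne : ∃ a b, t.eval a ≠ t.eval b) : ∃ a, t.eval a = 0 := sorry

/-! ## T4 -/

theorem exists_taylor {A : Type} [CommRing A] (δ : DerFam A) {Ω : Type} [Field Ω] [CharZero Ω]
    (ε : A →+* Ω) :
    ∃ T : A →+* MvPowerSeries ℕ Ω, (∀ a, MvPowerSeries.constantCoeff (T a) = ε a) ∧
      ∀ i a, (dps Ω).d i (T a) = T (δ.d i a) := sorry

theorem taylor_unique {A : Type} [CommRing A] (δ : DerFam A)
    {Ω : Type} [Field Ω] [CharZero Ω] (T T' : A →+* MvPowerSeries ℕ Ω)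
    (h0 : ∀ a, MvPowerSeries.constantCoeff (T a) = MvPowerSeries.constantCoeff (T' a))
    (h1 : ∀ i a, (dps Ω).d i (T a) = T (δ.d i a))
    (h2 : ∀ i a, (dps Ω).d i (T' a) = T' (δ.d i a)) : T = T' := sorry

/-! ## T5 -/

theorem exists_dpoly {A : Type} [CommRing A] (δ : DerFam A) :
    ∃ Δ : DerFam (MvPolynomial (ℕ →₀ ℕ) A),
      (∀ i a, Δ.d i (MvPolynomial.C a) = MvPolynomial.C (δ.d i a)) ∧
      (∀ i γ, Δ.d i (MvPolynomial.X γ) = MvPolynomial.X (γ + Finsupp.single i 1)) := sorry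

/-! ## T6 -/

theorem solve_simple (m : MonomialOrder ℕ) {A : Type} [CommRing A] (δ : DerFam A)
    (Δ : DerFam (MvPolynomial (ℕ →₀ ℕ) A))
    (hC : ∀ i a, Δ.d i (MvPolynomial.C a) = MvPolynomial.C (δ.d i a))
    (hX : ∀ i γ, Δ.d i (MvPolynomial.X γ) = MvPolynomial.X (γ + Finsupp.single i 1))
    {Ω : Type} [Field Ω] [CharZero Ω] (ε : A →+* Ω)
    (G : MvPolynomial (ℕ →₀ ℕ) A) (α : ℕ →₀ ℕ) (hG : ∀ γ ∈ G.vars, m.toSyn γ ≤ m.toSyn α)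
    (v0 : (ℕ →₀ ℕ) → Ω) (h0 : MvPolynomial.eval₂ ε v0 G = 0)
    (h1 : MvPolynomial.eval₂ ε v0 (MvPolynomial.pderiv α G) ≠ 0) :
    ∃ v : (ℕ →₀ ℕ) → Ω, (∀ γ, m.toSyn γ ≤ m.toSyn α → v γ = v0 γ) ∧
      ∀ T : MvPolynomial (ℕ →₀ ℕ) A →+* MvPowerSeries ℕ Ω,
        (∀ p, MvPowerSeries.constantCoeff (T p) = MvPolynomial.eval₂ ε v p) →
        (∀ i p, (dps Ω).d i (T p) = T (Δ.d i p)) → T G = 0 := sorry

/-! ## T7 -/

theorem exists_simple (m : MonomialOrder ℕ) {A : Type} [CommRing A] [IsDomain A] [CharZero A]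
    {Ω : Type} [Field Ω] [IsAlgClosed Ω] (ε : A →+* Ω) (hε : Function.Injective ε)
    (F : MvPolynomial (ℕ →₀ ℕ) A) (hF : F ∉ Set.range MvPolynomial.C) :
    ∃ (G H s : MvPolynomial (ℕ →₀ ℕ) A) (α : ℕ →₀ ℕ) (v0 : (ℕ →₀ ℕ) → Ω),
      s * F = G * H ∧ (∀ γ ∈ G.vars, m.toSyn γ ≤ m.toSyn α) ∧
      (∀ γ ∈ s.vars, m.toSyn γ ≤ m.toSyn α) ∧ MvPolynomial.eval₂ ε v0 G = 0 ∧
      MvPolynomial.eval₂ ε v0 (MvPolynomial.pderiv α G) ≠ 0 ∧ MvPolynomial.eval₂ ε v0 s ≠ 0 := sorry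

/-! ## T8 -/

theorem exists_monomialOrder : Nonempty (MonomialOrder.{0, 0} ℕ) := sorry

theorem exists_solution {A : Type} [CommRing A] [IsDomain A] [CharZero A] (δ : DerFam A)
    (Δ : DerFam (MvPolynomial (ℕ →₀ ℕ) A))
    (hC : ∀ i a, Δ.d i (MvPolynomial.C a) = MvPolynomial.C (δ.d i a))
    (hX : ∀ i γ, Δ.d i (MvPolynomial.X γ) = MvPolynomial.X (γ + Finsupp.single i 1))
    {Ω : Type} [Field Ω] [CharZero Ω] [IsAlgClosed Ω] (ε : A →+* Ω) (hε : Function.Injective ε)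
    (F : MvPolynomial (ℕ →₀ ℕ) A) (hF : F ∉ Set.range MvPolynomial.C) :
    ∃ T : MvPolynomial (ℕ →₀ ℕ) A →+* MvPowerSeries ℕ Ω,
      (∀ a, MvPowerSeries.constantCoeff (T (MvPolynomial.C a)) = ε a) ∧
      (∀ i p, (dps Ω).d i (T p) = T (Δ.d i p)) ∧ T F = 0 := sorry

/-! ## T9 -/

theorem exists_step : ∃ T : MvPowerSeries ℕ ℂ →+* MvPowerSeries ℕ ℂ, Function.Injective T ∧
    (∀ i a, T ((dps ℂ).d i a) = (dps ℂ).d i (T a)) ∧
    ∀ (n : ℕ) (t : DTerm (MvPowerSeries ℕ ℂ)), t.ConstsIn (Low (dps ℂ) n) →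
      (∃ a b, Low (dps ℂ) n a ∧ Low (dps ℂ) n b ∧ t.eval (dps ℂ) a ≠ t.eval (dps ℂ) b) →
      ∃ a, Low (dps ℂ) n a ∧ (t.map T).eval (dps ℂ) a = 0 := sorry

/-! ## T10 -/

theorem exists_limit {A : Type} [CommRing A] [IsDomain A] [Algebra ℚ A] (δ : DerFam A)
    (hs : ∃ s : ℕ → A, ∀ i j, δ.d i (s j) = if i = j then 1 else 0)
    (T : A →+* A) (hT : Function.Injective T) (hTd : ∀ i a, T (δ.d i a) = δ.d i (T a))
    (hstep : ∀ (n : ℕ) (t : DTerm A), t.ConstsIn (Low δ n) →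
      (∃ a b, Low δ n a ∧ Low δ n b ∧ t.eval δ a ≠ t.eval δ b) →
      ∃ a, Low δ n a ∧ (t.map T).eval δ a = 0) :
    ∃ (L : Type) (_ : CommRing L) (_ : IsDomain L) (_ : Algebra ℚ L) (δ : DerFam L),
      (∃ s : ℕ → L, ∀ i j, δ.d i (s j) = if i = j then 1 else 0) ∧
      ∀ (n : ℕ) (t : DTerm L), t.ConstsIn (Low δ n) →
        (∃ a b, Low δ n a ∧ Low δ n b ∧ t.eval δ a ≠ t.eval δ b) →
        ∃ a, Low δ n a ∧ t.eval δ a = 0 := sorry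

/-! ## T11 -/

theorem exists_derDeform {L : Type} [CommRing L] [Algebra ℚ L] (δ : DerFam L) :
    ∃ D : Deform L, ∀ (n : ℕ) (a b : L), ((n : ℚ) + 1) • D.B (n + 1) a b =
      ∑ s ∈ range (n + 1), ((s : ℚ) + 1) • D.B (n - s) (δ.d (2 * s) a) (δ.d (2 * s + 1) b) := sorry

theorem isD_term {L : Type} [CommRing L] [Algebra ℚ L] (δ : DerFam L) (D : Deform L)
    (hD : ∀ (n : ℕ) (a b : L), ((n : ℚ) + 1) • D.B (n + 1) a b =
      ∑ s ∈ range (n + 1), ((s : ℚ) + 1) • D.B (n - s) (δ.d (2 * s) a) (δ.d (2 * s + 1) b))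
    (φ : L → L) (hφ : IsD D φ) : ∃ t : DTerm L, ∀ a, φ a = t.eval δ a := sorry

/-! ## T12 -/

theorem exists_R
    (hL : ∃ (L : Type) (_ : CommRing L) (_ : IsDomain L) (_ : Algebra ℚ L) (δ : DerFam L),
      (∃ s : ℕ → L, ∀ i j, δ.d i (s j) = if i = j then 1 else 0) ∧
      ∀ (n : ℕ) (t : DTerm L), t.ConstsIn (Low δ n) →
        (∃ a b, Low δ n a ∧ Low δ n b ∧ t.eval δ a ≠ t.eval δ b) →
        ∃ a, Low δ n a ∧ t.eval δ a = 0) :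
    ∃ (R : Type) (_ : Ring R) (_ : Nontrivial R) (_ : CharZero R),
      (∀ t : GTerm R, (∃ a b, t.eval a ≠ t.eval b) → ∃ a, t.eval a = 0) ∧
      ∀ S : Finset R, ∃ z w : R, (∀ s ∈ S, s * z = z * s ∧ s * w = w * s) ∧ w * z - z * w = 1 :=
  sorry

/-! ## T13 -/

theorem gpi {P R : Type} [Field P] [DivisionRing R] [CharZero R] [Algebra P R]
    (hcen : ∀ a : R, (∀ b, a * b = b * a) → ∃ p : P, algebraMap P R p = a)
    (hW : ∀ S : Finset R, ∃ z w : R, (∀ s ∈ S, s * z = z * s ∧ s * w = w * s) ∧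
      w * z - z * w = 1)
    {X : Type} {E : Type} [Ring E] [Algebra P E] (j : R →ₐ[P] E) (x : X → E)
    (hgen : Algebra.adjoin P (Set.range j ∪ Set.range x) = ⊤)
    (ev : (X → R) → (E →ₐ[P] R)) (hev1 : ∀ r a, ev r (j a) = a) (hev2 : ∀ r i, ev r (x i) = r i)
    (f : E) (hf : ∀ r r', ev r f = ev r' f) : f ∈ Set.range j := sorry

/-! ## T14 -/

theorem final_form {R : Type} [Ring R] [Nontrivial R] [CharZero R]
    (hroot : ∀ t : GTerm R, (∃ a b, t.eval a ≠ t.eval b) → ∃ a, t.eval a = 0)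
    (hW : ∀ S : Finset R, ∃ z w : R, (∀ s ∈ S, s * z = z * s ∧ s * w = w * s) ∧
      w * z - z * w = 1) :
    ∃ (P : Type) (_ : Field P) (R : Type) (_ : Ring R) (_ : Algebra P R), Nontrivial R ∧
      ∀ (E : Type) (_ : Ring E) (_ : Algebra P E) (j : R →ₐ[P] E) (x : ℕ → E)
        (_ : Algebra.adjoin P (Set.range j ∪ Set.range x) = ⊤) (ev : (ℕ → R) → (E →ₐ[P] R))
        (_ : ∀ r a, ev r (j a) = a) (_ : ∀ r i, ev r (x i) = r i),
        ∀ f : E, f ∉ Set.range j → ∃ r : ℕ → R, ev r f = 0 := sorry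

end Pool.Agent.H49R2.ACA.Stubs
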