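import Pool.Agent.H49R2.ACA.Defs

/-!
# Task T1 (helper497): transfinite approximation in Hahn series
-/

namespace Pool.Agent.H49R2.ACA

open Finset

namespace T1Aux

variable {L : Type} [AddCommGroup L]

/-- changes above `q` do not decrease `F` at `x` -/
def Good (F : HahnSeries ℚ L → WithTop ℚ) (x : HahnSeries ℚ L) (q : ℚ) : Prop :=
  ∀ y : HahnSeries ℚ L, (∀ r < q, y.coeff r = 0) → F x ≤ F (x + y)

/-- `x'` improves `x` -/
def Lt (F : HahnSeries ℚ L → WithTop ℚ) (x x' : HahnSeries ℚ L) : Prop :=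
  ∃ q, Good F x q ∧ (∀ r < q, x'.coeff r = x.coeff r) ∧ F x < F x'

variable {F : HahnSeries ℚ L → WithTop ℚ}

theorem good_mono {x : HahnSeries ℚ L} {q q' : ℚ} (h : Good F x q) (hq : q ≤ q') :
    Good F x q' := fun y hy => h y fun r hr => hy r (lt_of_lt_of_le hr hq)

theorem good_le {x x' : HahnSeries ℚ L} {q : ℚ} (h : Good F x q)
    (he : ∀ r < q, x'.coeff r = x.coeff r) : F x ≤ F x' := by
  have h1 := h (x' - x) fun r hr => by
    rw [HahnSeries.coeff_sub, he r hr, sub_self]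
  rwa [add_sub_cancel] at h1

theorem key {x x' : HahnSeries ℚ L} {q q' : ℚ} (he : ∀ r < q, x'.coeff r = x.coeff r)
    (hF : F x < F x') (h' : Good F x' q') : q < q' := by
  by_contra hq
  have h1 := good_le h' (x' := x) fun r hr =>
    (he r (lt_of_lt_of_le hr (not_lt.1 hq))).symm
  exact absurd hF (not_lt.2 h1)

theorem lt_trans' {x x' x'' : HahnSeries ℚ L} (h : Lt F x x') (h' : Lt F x' x'') :
    Lt F x x'' := by
  obtain ⟨q, hq, he, hF⟩ := h
  obtain ⟨q', hq', he', hF'⟩ := h'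
  have hqq := key he hF hq'
  exact ⟨q, hq, fun r hr => (he' r (lt_trans hr hqq)).trans (he r hr), lt_trans hF hF'⟩

theorem chain_bd (c : Set (HahnSeries ℚ L))
    (hc : ∀ x ∈ c, ∀ y ∈ c, x = y ∨ Lt F x y ∨ Lt F y x)
    (hn : ∀ x ∈ c, ∃ x' ∈ c, Lt F x x') : ∃ z, ∀ x ∈ c, Lt F x z := by
  classical
  -- coefficients
  set zc : ℚ → L := fun r => if h : ∃ x ∈ c, ¬ Good F x r then h.choose.coeff r else 0 with hzc
  have hlt : ∀ x x' r, Lt F x x' → ¬ Good F x r → x'.coeff r = x.coeff r := by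
    rintro x x' r ⟨q, hq, he, _⟩ hr
    apply he
    by_contra hcon
    exact hr (good_mono hq (not_lt.1 hcon))
  have hag : ∀ x ∈ c, ∀ r, ¬ Good F x r → zc r = x.coeff r := by
    intro x hx r hr
    have h : ∃ x ∈ c, ¬ Good F x r := ⟨x, hx, hr⟩
    have h1 : zc r = h.choose.coeff r := by
      simp only [hzc, h, dif_pos]
    obtain ⟨h2, h3⟩ := h.choose_spec
    rw [h1]
    rcases hc _ h2 _ hx with h4 | h4 | h4
    · rw [h4]
    · exact (hlt _ _ r h4 h3).symm
    · exact hlt _ _ r h4 hr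
  have hsupp : (Function.support zc).IsPWO := by
    rw [Set.isPWO_iff_isWF, Set.isWF_iff_no_descending_seq]
    intro f hf hmem
    have h0 := hmem 0
    rw [Function.mem_support] at h0
    have h : ∃ x ∈ c, ¬ Good F x (f 0) := by
      by_contra hcon
      apply h0
      simp only [hzc, hcon, dif_neg, not_false_eq_true]
    obtain ⟨x, hx, hxr⟩ := h
    have h1 : ∀ n, f n ∈ x.support := by
      intro n
      have h2 : ¬ Good F x (f n) := fun h3 => hxr (good_mono h3 (hf.antitone (Nat.zero_le n)))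
      have h3 := hmem n
      rw [Function.mem_support, hag x hx _ h2] at h3
      exact h3
    have h2 := x.isWF_support
    rw [Set.isWF_iff_no_descending_seq] at h2
    exact h2 f hf h1
  refine ⟨⟨zc, hsupp⟩, ?_⟩
  have hz : ∀ x ∈ c, ∃ q, Good F x q ∧ (∀ r < q, zc r = x.coeff r) ∧ ∃ x' ∈ c, F x < F x' := by
    intro x hx
    obtain ⟨x', hx', q, hq, he, hF⟩ := hn x hx
    refine ⟨q, hq, ?_, x', hx', hF⟩
    intro r hr
    have h1 : ¬ Good F x' r := fun h2 => absurd (key he hF h2) (not_lt.2 hr.le)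
    rw [hag x' hx' r h1, he r hr]
  intro x hx
  obtain ⟨q, hq, he, x', hx', hF⟩ := hz x hx
  obtain ⟨q', hq', he', _⟩ := hz x' hx'
  exact ⟨q, hq, he, lt_of_lt_of_le hF (good_le hq' he')⟩

end T1Aux

open T1Aux in
theorem zorn_hahn {L : Type} [AddCommGroup L] (F : HahnSeries ℚ L → WithTop ℚ)
    (step : ∀ x, F x ≠ ⊤ → ∃ q : ℚ,
      (∀ y : HahnSeries ℚ L, (∀ r < q, y.coeff r = 0) → F x ≤ F (x + y)) ∧
      ∃ y : HahnSeries ℚ L, (∀ r < q, y.coeff r = 0) ∧ F x < F (x + y)) :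
    ∃ x, F x = ⊤ := by
  by_contra hcon
  rw [not_exists] at hcon
  obtain ⟨m, hm⟩ := exists_maximal_of_chains_bounded (r := fun x y => x = y ∨ Lt F x y) (by
    intro c hc
    have hc' : ∀ x ∈ c, ∀ y ∈ c, x = y ∨ Lt F x y ∨ Lt F y x := by
      intro x hx y hy
      by_cases hxy : x = y
      · exact Or.inl hxy
      · rcases hc hx hy hxy with (h | h) | (h | h)
        · exact Or.inl h
        · exact Or.inr (Or.inl h)
        · exact Or.inl h.symm
        · exact Or.inr (Or.inr h)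
    by_cases hg : ∃ x ∈ c, ∀ a ∈ c, a = x ∨ Lt F a x
    · obtain ⟨x, _, h⟩ := hg
      exact ⟨x, h⟩
    · obtain ⟨z, hz⟩ := chain_bd c hc' (by
        intro x hx
        by_contra hcon2
        apply hg
        refine ⟨x, hx, fun a ha => ?_⟩
        rcases hc' a ha x hx with h | h | h
        · exact Or.inl h
        · exact Or.inr h
        · exact absurd ⟨a, ha, h⟩ hcon2)
      exact ⟨z, fun a ha => Or.inr (hz a ha)⟩) (by
    rintro a b d (rfl | h1) (rfl | h2)
    · exact Or.inl rfl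
    · exact Or.inr h2
    · exact Or.inr h1
    · exact Or.inr (lt_trans' h1 h2))
  obtain ⟨q, hq, y, hy, hF⟩ := step m (hcon m)
  have h1 : Lt F m (m + y) := ⟨q, hq, fun r hr => by
    rw [HahnSeries.coeff_add, hy r hr, add_zero], hF⟩
  rcases hm _ (Or.inr h1) with h | ⟨_, _, _, h⟩
  · rw [h] at hF
    exact lt_irrefl _ hF
  · exact lt_asymm hF h

end Pool.Agent.H49R2.ACA
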