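import Pool.Agent.H49R2.ACA.Defs

/-! Task T4 of project ACA (helper49): the Taylor homomorphism. -/

namespace Pool.Agent.H49R2.ACA

open Finset

namespace T4

variable {A : Type} [CommRing A]

theorem d_one (δ : DerFam A) (i : ℕ) : δ.d i 1 = 0 := by
  have h := δ.leib i 1 1
  rw [mul_one, mul_one, one_mul] at h
  simpa using h

instance lc (δ : DerFam A) : LeftCommutative (fun (i : ℕ) (x : A) => δ.d i x) :=
  ⟨fun i j x => δ.comm i j x⟩

/-- iterated derivation -/
def DD (δ : DerFam A) (s : Multiset ℕ) (a : A) : A :=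
  Multiset.foldr (fun (i : ℕ) (x : A) => δ.d i x) a s

theorem DD_zero (δ : DerFam A) (a : A) : DD δ 0 a = a := Multiset.foldr_zero _ _

theorem DD_cons (δ : DerFam A) (i : ℕ) (s : Multiset ℕ) (a : A) :
    DD δ (i ::ₘ s) a = δ.d i (DD δ s a) := Multiset.foldr_cons _ _ _ _

theorem DD_add_single (δ : DerFam A) (i : ℕ) (s : Multiset ℕ) (a : A) :
    DD δ (s + {i}) a = DD δ s (δ.d i a) := Multiset.foldr_add _ _ _ _

theorem DD_add (δ : DerFam A) (s : Multiset ℕ) (a b : A) :
    DD δ s (a + b) = DD δ s a + DD δ s b := by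
  induction s using Multiset.induction_on with
  | empty => rw [DD_zero, DD_zero, DD_zero]
  | cons i s ih => rw [DD_cons, DD_cons, DD_cons, ih, map_add]

/-- factorial of an exponent -/
noncomputable def fac (Ω : Type) [Field Ω] (β : ℕ →₀ ℕ) : Ω :=
  β.prod (fun _ k => ((k.factorial : ℕ) : Ω))

theorem fac_ne (Ω : Type) [Field Ω] [CharZero Ω] (β : ℕ →₀ ℕ) : fac Ω β ≠ 0 := by
  unfold fac Finsupp.prod
  refine Finset.prod_ne_zero_iff.2 (fun i _ => ?_)
  show (((β i).factorial : ℕ) : Ω) ≠ 0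
  exact Nat.cast_ne_zero.2 (Nat.factorial_ne_zero _)

theorem fac_add (Ω : Type) [Field Ω] (β : ℕ →₀ ℕ) (i : ℕ) :
    fac Ω (β + Finsupp.single i 1) = ((β i : ℕ) + 1 : Ω) * fac Ω β := by
  have h0 : ∀ (j : ℕ), ((Nat.factorial 0 : ℕ) : Ω) = 1 := by simp
  have h1 : (β + Finsupp.single i 1).support ⊆ insert i β.support := by
    intro j hj
    rw [Finsupp.mem_support_iff] at hj
    rw [Finset.mem_insert, Finsupp.mem_support_iff]
    by_contra hcon
    push Not at hcon
    apply hj
    rw [Finsupp.add_apply, hcon.2, Finsupp.single_eq_of_ne hcon.1, add_zero]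
  unfold fac
  rw [Finsupp.prod_of_support_subset _ h1 _ (fun j _ => h0 j),
    Finsupp.prod_of_support_subset β (Finset.subset_insert i β.support) _ (fun j _ => h0 j),
    ← Finset.mul_prod_erase _ _ (Finset.mem_insert_self i β.support),
    ← Finset.mul_prod_erase _ _ (Finset.mem_insert_self i β.support), ← mul_assoc]
  congr 1
  · rw [Finsupp.add_apply, Finsupp.single_eq_same, Nat.factorial_succ]
    push_cast
    ring
  · refine Finset.prod_congr rfl (fun j hj => ?_)
    rw [Finsupp.add_apply, Finsupp.single_eq_of_ne (Finset.ne_of_mem_erase hj), add_zero]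

/-- the Taylor series -/
noncomputable def TT (δ : DerFam A) {Ω : Type} [Field Ω] (ε : A →+* Ω) (a : A) :
    MvPowerSeries ℕ Ω :=
  fun β => ε (DD δ (Finsupp.toMultiset β) a) / fac Ω β

theorem coeff_TT (δ : DerFam A) {Ω : Type} [Field Ω] (ε : A →+* Ω) (a : A) (β : ℕ →₀ ℕ) :
    MvPowerSeries.coeff β (TT δ ε a) = ε (DD δ (Finsupp.toMultiset β) a) / fac Ω β := rfl

theorem const_TT (δ : DerFam A) {Ω : Type} [Field Ω] (ε : A →+* Ω) (a : A) :
    MvPowerSeries.constantCoeff (TT δ ε a) = ε a := by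
  rw [← MvPowerSeries.coeff_zero_eq_constantCoeff_apply, coeff_TT, map_zero, DD_zero]
  simp [fac]

theorem TT_add (δ : DerFam A) {Ω : Type} [Field Ω] (ε : A →+* Ω) (a b : A) :
    TT δ ε (a + b) = TT δ ε a + TT δ ε b := by
  ext β
  rw [map_add, coeff_TT, coeff_TT, coeff_TT, DD_add, map_add, add_div]

theorem pderiv_TT (δ : DerFam A) {Ω : Type} [Field Ω] [CharZero Ω] (ε : A →+* Ω) (i : ℕ) (a : A) :
    MvPowerSeries.pderiv Ω i (TT δ ε a) = TT δ ε (δ.d i a) := by
  ext β
  rw [MvPowerSeries.coeff_pderiv, coeff_TT, coeff_TT, map_add, Finsupp.toMultiset_single, one_smul,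
    DD_add_single, fac_add]
  have h1 : ((β i : ℕ) + 1 : Ω) ≠ 0 := Nat.cast_add_one_ne_zero (β i)
  have h2 := fac_ne Ω β
  field_simp

/-- a group of power series with constant term zero, closed under derivatives, is zero -/
theorem eq_zero_of {Ω : Type} [Field Ω] [CharZero Ω] (U : AddSubgroup (MvPowerSeries ℕ Ω))
    (h0 : ∀ u ∈ U, MvPowerSeries.constantCoeff u = 0)
    (h1 : ∀ u ∈ U, ∀ i, MvPowerSeries.pderiv Ω i u ∈ U) : ∀ u ∈ U, u = 0 := by
  have key : ∀ n : ℕ, ∀ β : ℕ →₀ ℕ, β.degree = n → ∀ u ∈ U, MvPowerSeries.coeff β u = 0 := by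
    intro n
    induction n with
    | zero =>
      intro β hβ u hu
      rw [Finsupp.degree_eq_zero_iff] at hβ
      rw [hβ, MvPowerSeries.coeff_zero_eq_constantCoeff_apply]
      exact h0 u hu
    | succ n ih =>
      intro β hβ u hu
      have hne : β ≠ 0 := by
        rintro rfl
        rw [map_zero] at hβ
        omega
      obtain ⟨i, hi⟩ : ∃ i, β i ≠ 0 := by
        by_contra hcon
        push Not at hcon
        exact hne (Finsupp.ext hcon)
      obtain ⟨γ, rfl⟩ : ∃ γ, β = γ + Finsupp.single i 1 := by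
        refine ⟨β - Finsupp.single i 1, ?_⟩
        ext j
        rw [Finsupp.add_apply, Finsupp.tsub_apply]
        by_cases hj : j = i
        · subst hj
          rw [Finsupp.single_eq_same]
          omega
        · rw [Finsupp.single_eq_of_ne hj]
          omega
      have hdeg : γ.degree = n := by
        rw [map_add, Finsupp.degree_single] at hβ
        omega
      have h2 := ih γ hdeg _ (h1 u hu i)
      rw [MvPowerSeries.coeff_pderiv] at h2
      have h3 : ((γ i : ℕ) + 1 : Ω) ≠ 0 := Nat.cast_add_one_ne_zero (γ i)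
      exact (mul_eq_zero.1 h2).resolve_right h3
  intro u hu
  ext β
  rw [map_zero]
  exact key _ β rfl u hu

theorem TT_one (δ : DerFam A) {Ω : Type} [Field Ω] [CharZero Ω] (ε : A →+* Ω) :
    TT δ ε 1 = 1 := by
  have h := eq_zero_of (AddSubgroup.zmultiples (TT δ ε 1 - 1)) (by
    rintro u ⟨k, rfl⟩
    simp only [map_zsmul, map_sub, const_TT, map_one, sub_self, smul_zero]) (by
    rintro u ⟨k, rfl⟩ i
    have h2 : MvPowerSeries.pderiv Ω i (TT δ ε 1 - 1) = 0 := by
      rw [map_sub, pderiv_TT, d_one]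
      have h3 : TT δ ε 0 = 0 := by
        have := TT_add δ ε 0 0
        rw [add_zero] at this
        simpa using this
      rw [h3, Derivation.map_one_eq_zero, sub_zero]
    simp only [map_zsmul, h2, smul_zero]
    exact AddSubgroup.zero_mem _)
  have := h _ (AddSubgroup.mem_zmultiples _)
  exact sub_eq_zero.1 this

theorem TT_mul (δ : DerFam A) {Ω : Type} [Field Ω] [CharZero Ω] (ε : A →+* Ω) (a b : A) :
    TT δ ε (a * b) = TT δ ε a * TT δ ε b := by
  have h := eq_zero_of (AddSubgroup.closure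
    {u | ∃ a b : A, u = TT δ ε (a * b) - TT δ ε a * TT δ ε b}) (by
    intro u hu
    induction hu using AddSubgroup.closure_induction with
    | mem x hx =>
      obtain ⟨a, b, rfl⟩ := hx
      rw [map_sub, map_mul, const_TT, const_TT, const_TT, map_mul, sub_self]
    | zero => rw [map_zero]
    | add x y _ _ hx hy => rw [map_add, hx, hy, add_zero]
    | neg x _ hx => rw [map_neg, hx, neg_zero]) (by
    intro u hu i
    induction hu using AddSubgroup.closure_induction with
    | mem x hx =>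
      obtain ⟨a, b, rfl⟩ := hx
      have h2 : MvPowerSeries.pderiv Ω i (TT δ ε (a * b) - TT δ ε a * TT δ ε b) =
          (TT δ ε (δ.d i a * b) - TT δ ε (δ.d i a) * TT δ ε b) +
          (TT δ ε (a * δ.d i b) - TT δ ε a * TT δ ε (δ.d i b)) := by
        rw [map_sub, Derivation.leibniz, pderiv_TT, pderiv_TT, pderiv_TT, δ.leib, TT_add,
          smul_eq_mul, smul_eq_mul]
        ring
      rw [h2]
      exact AddSubgroup.add_mem _ (AddSubgroup.subset_closure ⟨_, _, rfl⟩)
        (AddSubgroup.subset_closure ⟨_, _, rfl⟩)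
    | zero => rw [map_zero]; exact AddSubgroup.zero_mem _
    | add x y _ _ hx hy => rw [map_add]; exact AddSubgroup.add_mem _ hx hy
    | neg x _ hx => rw [map_neg]; exact AddSubgroup.neg_mem _ hx)
  exact sub_eq_zero.1 (h _ (AddSubgroup.subset_closure ⟨a, b, rfl⟩))

end T4

open T4

/-! ## T4 -/

theorem exists_taylor {A : Type} [CommRing A] (δ : DerFam A) {Ω : Type} [Field Ω] [CharZero Ω]
    (ε : A →+* Ω) :
    ∃ T : A →+* MvPowerSeries ℕ Ω, (∀ a, MvPowerSeries.constantCoeff (T a) = ε a) ∧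
      ∀ i a, (dps Ω).d i (T a) = T (δ.d i a) := by
  refine ⟨{ toFun := TT δ ε
            map_one' := TT_one δ ε
            map_mul' := TT_mul δ ε
            map_zero' := ?_
            map_add' := TT_add δ ε }, const_TT δ ε, pderiv_TT δ ε⟩
  have := TT_add δ ε 0 0
  rw [add_zero] at this
  simpa using this

theorem taylor_unique {A : Type} [CommRing A] (δ : DerFam A)
    {Ω : Type} [Field Ω] [CharZero Ω] (T T' : A →+* MvPowerSeries ℕ Ω)
    (h0 : ∀ a, MvPowerSeries.constantCoeff (T a) = MvPowerSeries.constantCoeff (T' a))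
    (h1 : ∀ i a, (dps Ω).d i (T a) = T (δ.d i a))
    (h2 : ∀ i a, (dps Ω).d i (T' a) = T' (δ.d i a)) : T = T' := by
  have h := eq_zero_of (AddMonoidHom.range (T.toAddMonoidHom - T'.toAddMonoidHom)) (by
    rintro u ⟨a, rfl⟩
    show MvPowerSeries.constantCoeff (T a - T' a) = 0
    rw [map_sub, h0, sub_self]) (by
    rintro u ⟨a, rfl⟩ i
    refine ⟨δ.d i a, ?_⟩
    show T (δ.d i a) - T' (δ.d i a) = MvPowerSeries.pderiv Ω i (T a - T' a)
    rw [map_sub, ← h1, ← h2, dps_d, dps_d])
  ext1 a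
  exact sub_eq_zero.1 (h _ ⟨a, rfl⟩)

end Pool.Agent.H49R2.ACA
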