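import Mathlib
import Pool.Agent.H49R2.ACA.Defs

/-!
# The ring of differential polynomials

The derivations `δ.d i` of `A` are extended to `MvPolynomial (ℕ →₀ ℕ) A` by
`X γ ↦ X (γ + single i 1)`, through the ring homomorphism into the dual numbers.
-/

namespace Pool.Agent.H49R2.ACA

open MvPolynomial

theorem T5_d_one {A : Type} [CommRing A] (δ : DerFam A) (i : ℕ) : δ.d i 1 = 0 := by
  have h := δ.leib i 1 1
  rw [mul_one, one_mul, mul_one] at h
  exact left_eq_add.1 h

/-- the homomorphism `a ↦ C a + ε C (d a)` -/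
noncomputable def T5_coef {A : Type} [CommRing A] (δ : DerFam A) (i : ℕ) :
    A →+* TrivSqZeroExt (MvPolynomial (ℕ →₀ ℕ) A) (MvPolynomial (ℕ →₀ ℕ) A) where
  toFun a := (C a, C (δ.d i a))
  map_one' := by
    apply TrivSqZeroExt.ext
    · change C 1 = 1
      exact map_one C
    · change C (δ.d i 1) = 0
      rw [T5_d_one, map_zero]
  map_mul' a b := by
    apply TrivSqZeroExt.ext
    · rw [TrivSqZeroExt.fst_mul]
      exact map_mul C a b
    · rw [TrivSqZeroExt.snd_mul, smul_eq_mul, MulOpposite.smul_eq_mul_unop, MulOpposite.unop_op]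
      change C (δ.d i (a * b)) = C a * C (δ.d i b) + C (δ.d i a) * C b
      rw [δ.leib, map_add, map_mul, map_mul, add_comm]
  map_zero' := by
    apply TrivSqZeroExt.ext
    · change C 0 = 0
      exact map_zero C
    · change C (δ.d i 0) = 0
      rw [map_zero, map_zero]
  map_add' a b := by
    apply TrivSqZeroExt.ext
    · exact map_add C a b
    · change C (δ.d i (a + b)) = C (δ.d i a) + C (δ.d i b)
      rw [map_add, map_add]

/-- the homomorphism `p ↦ p + ε Δ p` -/
noncomputable def T5_hom {A : Type} [CommRing A] (δ : DerFam A) (i : ℕ) :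
    MvPolynomial (ℕ →₀ ℕ) A →+*
      TrivSqZeroExt (MvPolynomial (ℕ →₀ ℕ) A) (MvPolynomial (ℕ →₀ ℕ) A) :=
  eval₂Hom (T5_coef δ i) (fun γ => (X γ, X (γ + Finsupp.single i 1)))

theorem T5_hom_C {A : Type} [CommRing A] (δ : DerFam A) (i : ℕ) (a : A) :
    T5_hom δ i (C a) = (C a, C (δ.d i a)) := by
  unfold T5_hom
  rw [eval₂Hom_C]
  rfl

theorem T5_hom_X {A : Type} [CommRing A] (δ : DerFam A) (i : ℕ) (γ : ℕ →₀ ℕ) :
    T5_hom δ i (X γ) = (X γ, X (γ + Finsupp.single i 1)) := by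
  unfold T5_hom
  rw [eval₂Hom_X']

theorem T5_fst {A : Type} [CommRing A] (δ : DerFam A) (i : ℕ) (p : MvPolynomial (ℕ →₀ ℕ) A) :
    (T5_hom δ i p).fst = p := by
  induction p using MvPolynomial.induction_on with
  | C a => rw [T5_hom_C]; rfl
  | add p q hp hq => rw [map_add, TrivSqZeroExt.fst_add, hp, hq]
  | mul_X p γ hp => rw [map_mul, TrivSqZeroExt.fst_mul, hp, T5_hom_X]; rfl

/-- the derivation `Δ i` -/
noncomputable def T5_der {A : Type} [CommRing A] (δ : DerFam A) (i : ℕ) :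
    MvPolynomial (ℕ →₀ ℕ) A →+ MvPolynomial (ℕ →₀ ℕ) A where
  toFun p := (T5_hom δ i p).snd
  map_zero' := by rw [map_zero, TrivSqZeroExt.snd_zero]
  map_add' p q := by rw [map_add, TrivSqZeroExt.snd_add]

theorem T5_der_C {A : Type} [CommRing A] (δ : DerFam A) (i : ℕ) (a : A) :
    T5_der δ i (C a) = C (δ.d i a) := by
  change (T5_hom δ i (C a)).snd = _
  rw [T5_hom_C]
  rfl

theorem T5_der_X {A : Type} [CommRing A] (δ : DerFam A) (i : ℕ) (γ : ℕ →₀ ℕ) :
    T5_der δ i (X γ) = X (γ + Finsupp.single i 1) := by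
  change (T5_hom δ i (X γ)).snd = _
  rw [T5_hom_X]
  rfl

theorem T5_der_mul {A : Type} [CommRing A] (δ : DerFam A) (i : ℕ)
    (p q : MvPolynomial (ℕ →₀ ℕ) A) :
    T5_der δ i (p * q) = T5_der δ i p * q + p * T5_der δ i q := by
  change (T5_hom δ i (p * q)).snd = (T5_hom δ i p).snd * q + p * (T5_hom δ i q).snd
  rw [map_mul, TrivSqZeroExt.snd_mul, smul_eq_mul, MulOpposite.smul_eq_mul_unop,
    MulOpposite.unop_op, T5_fst, T5_fst, add_comm]

theorem T5_der_comm {A : Type} [CommRing A] (δ : DerFam A) (i j : ℕ)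
    (p : MvPolynomial (ℕ →₀ ℕ) A) :
    T5_der δ i (T5_der δ j p) = T5_der δ j (T5_der δ i p) := by
  induction p using MvPolynomial.induction_on with
  | C a => rw [T5_der_C, T5_der_C, T5_der_C, T5_der_C, δ.comm]
  | add p q hp hq => rw [map_add, map_add, map_add, map_add, hp, hq]
  | mul_X p γ hp =>
    have h : γ + Finsupp.single j 1 + Finsupp.single i 1 =
        γ + Finsupp.single i 1 + Finsupp.single j 1 := by abel
    rw [T5_der_mul, T5_der_mul, map_add, map_add, T5_der_mul, T5_der_mul, T5_der_mul, T5_der_mul,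
      hp, T5_der_X, T5_der_X, T5_der_X, T5_der_X, h]
    ring

theorem exists_dpoly {A : Type} [CommRing A] (δ : DerFam A) :
    ∃ Δ : DerFam (MvPolynomial (ℕ →₀ ℕ) A),
      (∀ i a, Δ.d i (MvPolynomial.C a) = MvPolynomial.C (δ.d i a)) ∧
      (∀ i γ, Δ.d i (MvPolynomial.X γ) = MvPolynomial.X (γ + Finsupp.single i 1)) :=
  ⟨⟨T5_der δ, T5_der_mul δ, T5_der_comm δ⟩, T5_der_C δ, T5_der_X δ⟩

end Pool.Agent.H49R2.ACA
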