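import Pool.Agent.H49R2.ACA.Defs

/-!
# Task T6: one partial differential equation with simple initial data (helper551)
-/

namespace Pool.Agent.H49R2.ACA

open MvPolynomial

namespace T6

theorem lt_add (m : MonomialOrder ℕ) {γ γ' : ℕ →₀ ℕ} (e : ℕ →₀ ℕ)
    (h : m.toSyn γ < m.toSyn γ') : m.toSyn (γ + e) < m.toSyn (γ' + e) := by
  rw [map_add, map_add]
  refine lt_of_le_of_ne (add_le_add_left h.le _) ?_
  intro h'
  rw [← map_add, ← map_add] at h'
  have h2 := m.toSyn.injective h'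
  have h3 : γ = γ' := add_right_cancel h2
  rw [h3] at h
  exact lt_irrefl _ h

theorem le_add (m : MonomialOrder ℕ) {γ γ' : ℕ →₀ ℕ} (e : ℕ →₀ ℕ)
    (h : m.toSyn γ ≤ m.toSyn γ') : m.toSyn (γ + e) ≤ m.toSyn (γ' + e) := by
  rw [map_add, map_add]
  exact add_le_add_left h _

theorem lt_self (m : MonomialOrder ℕ) (γ : ℕ →₀ ℕ) {e : ℕ →₀ ℕ} (he : e ≠ 0) :
    m.toSyn γ < m.toSyn (γ + e) := by
  refine m.toSyn_strictMono (lt_of_le_of_ne (by simp) ?_)
  intro h
  apply he
  have : γ + 0 = γ + e := by rw [add_zero]; exact h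
  exact (add_left_cancel this).symm

section

variable {A : Type} [CommRing A] {δ : DerFam A} {Δ : DerFam (MvPolynomial (ℕ →₀ ℕ) A)}

theorem supp_d (hC : ∀ i a, Δ.d i (MvPolynomial.C a) = MvPolynomial.C (δ.d i a))
    (hX : ∀ i γ, Δ.d i (MvPolynomial.X γ) = MvPolynomial.X (γ + Finsupp.single i 1))
    {s t : Set (ℕ →₀ ℕ)} (i : ℕ) (hst : s ⊆ t) (hi : ∀ γ ∈ s, γ + Finsupp.single i 1 ∈ t)
    {p : MvPolynomial (ℕ →₀ ℕ) A} (hp : p ∈ supported A s) : Δ.d i p ∈ supported A t := by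
  have hle : supported A s ≤ supported A t := supported_mono hst
  refine Algebra.adjoin_induction (p := fun p _ => Δ.d i p ∈ supported A t) ?_ ?_ ?_ ?_ hp
  · rintro _ ⟨γ, hγ, rfl⟩
    rw [hX]
    exact Algebra.subset_adjoin ⟨_, hi γ hγ, rfl⟩
  · intro r
    rw [MvPolynomial.algebraMap_eq, hC, ← MvPolynomial.algebraMap_eq]
    exact Subalgebra.algebraMap_mem _ _
  · intro x y _ _ hx hy
    rw [map_add]
    exact add_mem hx hy
  · intro x y hx' hy' hx hy
    rw [Δ.leib]
    exact add_mem (mul_mem hx (hle hy')) (mul_mem (hle hx') hy)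

theorem supp_pderiv {s : Set (ℕ →₀ ℕ)} (α : ℕ →₀ ℕ) {p : MvPolynomial (ℕ →₀ ℕ) A}
    (hp : p ∈ supported A s) : pderiv α p ∈ supported A s := by
  classical
  refine Algebra.adjoin_induction (p := fun p _ => pderiv α p ∈ supported A s) ?_ ?_ ?_ ?_ hp
  · rintro _ ⟨γ, hγ, rfl⟩
    rw [pderiv_X, Pi.single_apply]
    split_ifs
    · exact one_mem _
    · exact zero_mem _
  · intro r
    rw [MvPolynomial.algebraMap_eq, pderiv_C]
    exact zero_mem _
  · intro x y _ _ hx hy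
    rw [map_add]
    exact add_mem hx hy
  · intro x y hx' hy' hx hy
    rw [pderiv_mul]
    exact add_mem (mul_mem hx hy') (mul_mem hx' hy)

/-- the first derivative -/
theorem first (m : MonomialOrder ℕ)
    (hC : ∀ i a, Δ.d i (MvPolynomial.C a) = MvPolynomial.C (δ.d i a))
    (hX : ∀ i γ, Δ.d i (MvPolynomial.X γ) = MvPolynomial.X (γ + Finsupp.single i 1))
    (α : ℕ →₀ ℕ) (i : ℕ) {p : MvPolynomial (ℕ →₀ ℕ) A}
    (hp : p ∈ supported A {γ | m.toSyn γ ≤ m.toSyn α}) :
    Δ.d i p - pderiv α p * X (α + Finsupp.single i 1) ∈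
      supported A {γ | m.toSyn γ < m.toSyn (α + Finsupp.single i 1)} := by
  classical
  have he : Finsupp.single i 1 ≠ (0 : ℕ →₀ ℕ) := by simp
  have hle : supported A {γ | m.toSyn γ ≤ m.toSyn α} ≤
      supported A {γ | m.toSyn γ < m.toSyn (α + Finsupp.single i 1)} :=
    supported_mono fun γ hγ => lt_of_le_of_lt hγ (lt_self m α he)
  refine Algebra.adjoin_induction (p := fun p _ =>
    Δ.d i p - pderiv α p * X (α + Finsupp.single i 1) ∈
      supported A {γ | m.toSyn γ < m.toSyn (α + Finsupp.single i 1)}) ?_ ?_ ?_ ?_ hp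
  · rintro _ ⟨γ, hγ, rfl⟩
    rw [hX, pderiv_X, Pi.single_apply]
    by_cases h : γ = α
    · rw [if_pos h, h, one_mul, sub_self]
      exact zero_mem _
    · rw [if_neg h, zero_mul, sub_zero]
      have h1 : m.toSyn γ < m.toSyn α := lt_of_le_of_ne hγ fun h' => h (m.toSyn.injective h')
      exact Algebra.subset_adjoin ⟨_, lt_add m _ h1, rfl⟩
  · intro r
    rw [MvPolynomial.algebraMap_eq, pderiv_C, zero_mul, sub_zero, hC,
      ← MvPolynomial.algebraMap_eq]
    exact Subalgebra.algebraMap_mem _ _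
  · intro x y _ _ hx hy
    have : Δ.d i (x + y) - pderiv α (x + y) * X (α + Finsupp.single i 1) =
        (Δ.d i x - pderiv α x * X (α + Finsupp.single i 1)) +
        (Δ.d i y - pderiv α y * X (α + Finsupp.single i 1)) := by
      rw [map_add, map_add]
      ring
    rw [this]
    exact add_mem hx hy
  · intro x y hx' hy' hx hy
    have : Δ.d i (x * y) - pderiv α (x * y) * X (α + Finsupp.single i 1) =
        (Δ.d i x - pderiv α x * X (α + Finsupp.single i 1)) * y +
        x * (Δ.d i y - pderiv α y * X (α + Finsupp.single i 1)) := by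
      rw [Δ.leib, pderiv_mul]
      ring
    rw [this]
    exact add_mem (mul_mem hx (hle hy')) (mul_mem (hle hx') hy)

/-- the derivatives of `G` -/
theorem exists_P (m : MonomialOrder ℕ)
    (hC : ∀ i a, Δ.d i (MvPolynomial.C a) = MvPolynomial.C (δ.d i a))
    (hX : ∀ i γ, Δ.d i (MvPolynomial.X γ) = MvPolynomial.X (γ + Finsupp.single i 1))
    (Ω : Type) [Field Ω] [CharZero Ω]
    (G : MvPolynomial (ℕ →₀ ℕ) A) (α : ℕ →₀ ℕ)
    (hG : G ∈ supported A {γ | m.toSyn γ ≤ m.toSyn α}) (n : ℕ) :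
    ∀ β : ℕ →₀ ℕ, β.degree = n → ∃ P Q : MvPolynomial (ℕ →₀ ℕ) A, (β = 0 → P = G) ∧
      Q ∈ supported A {γ | m.toSyn γ < m.toSyn (α + β)} ∧
      (β ≠ 0 → P = pderiv α G * X (α + β) + Q) ∧
      ∀ T : MvPolynomial (ℕ →₀ ℕ) A →+* MvPowerSeries ℕ Ω,
        (∀ i p, (dps Ω).d i (T p) = T (Δ.d i p)) → ∀ γ : ℕ →₀ ℕ, ∃ c : ℕ, c ≠ 0 ∧
          MvPowerSeries.coeff γ (T P) = c * MvPowerSeries.coeff (γ + β) (T G) := by
  induction n with
  | zero =>
    intro β hβ
    have hβ0 : β = 0 := (Finsupp.degree_eq_zero_iff β).mp hβ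
    subst hβ0
    refine ⟨G, 0, fun _ => rfl, zero_mem _, fun h => absurd rfl h, fun T hT γ => ?_⟩
    exact ⟨1, one_ne_zero, by simp⟩
  | succ n ih =>
    intro β hβ
    have hβ0 : β ≠ 0 := by
      rintro rfl
      simp at hβ
    obtain ⟨i, hi⟩ : ∃ i, β i ≠ 0 := by
      by_contra hcon
      push Not at hcon
      exact hβ0 (Finsupp.ext hcon)
    have hle : Finsupp.single i 1 ≤ β := by
      rw [Finsupp.single_le_iff]
      omega
    obtain ⟨β', rfl⟩ : ∃ β', β = β' + Finsupp.single i 1 := ⟨β - Finsupp.single i 1,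
      (tsub_add_cancel_of_le hle).symm⟩
    have hdeg : β'.degree = n := by
      have h1 : (β' + Finsupp.single i 1).degree = β'.degree + 1 := by
        rw [map_add, Finsupp.degree_single]
      omega
    obtain ⟨P', Q', hP0, hQ', hPQ, hT'⟩ := ih β' hdeg
    have he : Finsupp.single i 1 ≠ (0 : ℕ →₀ ℕ) := by simp
    -- the coefficient property
    have hcoef : ∀ T : MvPolynomial (ℕ →₀ ℕ) A →+* MvPowerSeries ℕ Ω,
        (∀ i p, (dps Ω).d i (T p) = T (Δ.d i p)) → ∀ γ : ℕ →₀ ℕ, ∃ c : ℕ, c ≠ 0 ∧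
          MvPowerSeries.coeff γ (T (Δ.d i P')) =
            c * MvPowerSeries.coeff (γ + (β' + Finsupp.single i 1)) (T G) := by
      intro T hT γ
      obtain ⟨c, hc, hc'⟩ := hT' T hT (γ + Finsupp.single i 1)
      refine ⟨c * (γ i + 1), mul_ne_zero hc (Nat.succ_ne_zero _), ?_⟩
      rw [← hT, dps_d, MvPowerSeries.coeff_pderiv, hc']
      have : γ + Finsupp.single i 1 + β' = γ + (β' + Finsupp.single i 1) := by abel
      rw [this]
      push_cast
      ring
    by_cases hβ' : β' = 0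
    · subst hβ'
      have hPG := hP0 rfl
      refine ⟨Δ.d i P', Δ.d i G - pderiv α G * X (α + Finsupp.single i 1),
        fun h => absurd h hβ0, ?_, fun _ => ?_, hcoef⟩
      · rw [zero_add]
        exact first m hC hX α i hG
      · rw [hPG, zero_add]
        ring
    · have hP := hPQ hβ'
      refine ⟨Δ.d i P', Δ.d i (pderiv α G) * X (α + β') + Δ.d i Q',
        fun h => absurd h hβ0, ?_, fun _ => ?_, hcoef⟩
      · have h1 : Δ.d i (pderiv α G) ∈
            supported A {γ | m.toSyn γ < m.toSyn (α + (β' + Finsupp.single i 1))} := by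
          refine supp_d hC hX (s := {γ | m.toSyn γ ≤ m.toSyn α}) i ?_ ?_ (supp_pderiv α hG)
          · intro γ hγ
            exact lt_of_le_of_lt hγ (lt_self m α hβ0)
          · intro γ hγ
            have h2 : m.toSyn (γ + Finsupp.single i 1) ≤ m.toSyn (α + Finsupp.single i 1) :=
              le_add m _ hγ
            have h3 : m.toSyn (α + Finsupp.single i 1) <
                m.toSyn (α + Finsupp.single i 1 + β') := lt_self m _ hβ'
            have h4 : α + Finsupp.single i 1 + β' = α + (β' + Finsupp.single i 1) := by abel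
            rw [h4] at h3
            exact lt_of_le_of_lt h2 h3
        have h2 : (X (α + β') : MvPolynomial (ℕ →₀ ℕ) A) ∈
            supported A {γ | m.toSyn γ < m.toSyn (α + (β' + Finsupp.single i 1))} := by
          refine Algebra.subset_adjoin ⟨_, ?_, rfl⟩
          change m.toSyn (α + β') < m.toSyn (α + (β' + Finsupp.single i 1))
          rw [← add_assoc]
          exact lt_self m _ he
        have h3 : Δ.d i Q' ∈
            supported A {γ | m.toSyn γ < m.toSyn (α + (β' + Finsupp.single i 1))} := by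
          refine supp_d hC hX (s := {γ | m.toSyn γ < m.toSyn (α + β')}) i ?_ ?_ hQ'
          · intro γ hγ
            refine lt_trans (show m.toSyn γ < m.toSyn (α + β') from hγ) ?_
            rw [← add_assoc]
            exact lt_self m _ he
          · intro γ hγ
            have := lt_add m (Finsupp.single i 1) (show m.toSyn γ < m.toSyn (α + β') from hγ)
            rw [add_assoc α] at this
            exact this
        exact add_mem (mul_mem h1 h2) h3
      · rw [hP, map_add, Δ.leib, hX, add_assoc α]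
        ring

end

end T6

open T6 in
theorem solve_simple (m : MonomialOrder ℕ) {A : Type} [CommRing A] (δ : DerFam A)
    (Δ : DerFam (MvPolynomial (ℕ →₀ ℕ) A))
    (hC : ∀ i a, Δ.d i (MvPolynomial.C a) = MvPolynomial.C (δ.d i a))
    (hX : ∀ i γ, Δ.d i (MvPolynomial.X γ) = MvPolynomial.X (γ + Finsupp.single i 1))
    {Ω : Type} [Field Ω] [CharZero Ω] (ε : A →+* Ω)
    (G : MvPolynomial (ℕ →₀ ℕ) A) (α : ℕ →₀ ℕ) (hG : ∀ γ ∈ G.vars, m.toSyn γ ≤ m.toSyn α)
    (v0 : (ℕ →₀ ℕ) → Ω) (h0 : MvPolynomial.eval₂ ε v0 G = 0)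
    (h1 : MvPolynomial.eval₂ ε v0 (MvPolynomial.pderiv α G) ≠ 0) :
    ∃ v : (ℕ →₀ ℕ) → Ω, (∀ γ, m.toSyn γ ≤ m.toSyn α → v γ = v0 γ) ∧
      ∀ T : MvPolynomial (ℕ →₀ ℕ) A →+* MvPowerSeries ℕ Ω,
        (∀ p, MvPowerSeries.constantCoeff (T p) = MvPolynomial.eval₂ ε v p) →
        (∀ i p, (dps Ω).d i (T p) = T (Δ.d i p)) → T G = 0 := by
  classical
  have hGs : G ∈ supported A {γ | m.toSyn γ ≤ m.toSyn α} := by
    rw [mem_supported]
    exact fun γ hγ => hG γ hγ
  have hSs := supp_pderiv α hGs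
  choose P Q hP0 hQ hPQ hT using fun β : ℕ →₀ ℕ =>
    exists_P m hC hX Ω G α hGs β.degree β rfl
  -- the well founded recursion
  let r : (ℕ →₀ ℕ) → (ℕ →₀ ℕ) → Prop := fun γ γ' => m.toSyn γ < m.toSyn γ'
  have hwf : WellFounded r := InvImage.wf m.toSyn wellFounded_lt
  let S0 : Ω := MvPolynomial.eval₂ ε v0 (MvPolynomial.pderiv α G)
  let F : (γ : ℕ →₀ ℕ) → ((γ' : ℕ →₀ ℕ) → r γ' γ → Ω) → Ω := fun γ w =>
    if α < γ then
      -(MvPolynomial.eval₂ ε (fun γ' => if h : r γ' γ then w γ' h else 0) (Q (γ - α))) / S0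
    else v0 γ
  let v : (ℕ →₀ ℕ) → Ω := hwf.fix F
  have hv : ∀ γ, v γ = F γ (fun γ' _ => v γ') := fun γ => hwf.fix_eq F γ
  have hcongr : ∀ {s : Set (ℕ →₀ ℕ)} {p : MvPolynomial (ℕ →₀ ℕ) A} (_ : p ∈ supported A s)
      (w w' : (ℕ →₀ ℕ) → Ω) (_ : ∀ γ ∈ s, w γ = w' γ), eval₂ ε w p = eval₂ ε w' p := by
    intro s p hp w w' hw
    have h2 := eval₂Hom_congr' (f₁ := ε) (f₂ := ε) (g₁ := w) (g₂ := w') (p₁ := p) (p₂ := p) rfl
      (fun γ hγ _ => hw γ (mem_supported.mp hp hγ)) rfl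
    simpa using h2
  have hvlow : ∀ γ, m.toSyn γ ≤ m.toSyn α → v γ = v0 γ := by
    intro γ hγ
    rw [hv γ]
    simp only [F]
    rw [if_neg]
    intro h
    exact absurd (m.toSyn_strictMono h) (not_lt.mpr hγ)
  have hvhigh : ∀ β : ℕ →₀ ℕ, β ≠ 0 → v (α + β) = -(eval₂ ε v (Q β)) / S0 := by
    intro β hβ
    have hlt : α < α + β := by
      refine lt_of_le_of_ne (by simp) fun h => hβ ?_
      have : α + 0 = α + β := by rw [add_zero]; exact h
      exact (add_left_cancel this).symm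
    rw [hv (α + β)]
    simp only [F]
    rw [if_pos hlt, add_tsub_cancel_left]
    congr 2
    refine hcongr (hQ β) _ _ fun γ hγ => ?_
    exact dif_pos hγ
  refine ⟨v, hvlow, fun T hT0 hTd => ?_⟩
  have hS : eval₂ ε v (pderiv α G) = S0 := hcongr hSs _ _ fun γ hγ => hvlow γ hγ
  have hG0 : eval₂ ε v G = 0 := by
    rw [hcongr hGs v v0 fun γ hγ => hvlow γ hγ]
    exact h0
  ext β
  rw [map_zero]
  obtain ⟨c, hc, hc'⟩ := hT β T hTd 0
  rw [zero_add] at hc'
  have hval : MvPowerSeries.coeff 0 (T (P β)) = 0 := by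
    have h2 : MvPowerSeries.coeff 0 (T (P β)) = eval₂ ε v (P β) := by
      rw [MvPowerSeries.coeff_zero_eq_constantCoeff_apply]
      exact hT0 _
    rw [h2]
    by_cases hβ : β = 0
    · rw [hP0 β hβ, hG0]
    · have hS0 : S0 ≠ 0 := h1
      rw [hPQ β hβ, eval₂_add, eval₂_mul, eval₂_X, hS, hvhigh β hβ, mul_div_cancel₀ _ hS0]
      ring
  rw [hval] at hc'
  have hc0 : (c : Ω) ≠ 0 := Nat.cast_ne_zero.mpr hc
  exact (mul_eq_zero.mp hc'.symm).resolve_left hc0

end Pool.Agent.H49R2.ACA
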