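import Pool.Agent.H49R2.ACA.Defs

/-!
# ACA T7 (helper227): separable factor with a simple point
-/

namespace Pool.Agent.H49R2.ACA

open Polynomial in
/-- a polynomial of positive degree over a domain of characteristic zero has, up to a constant
factor, a separable factor -/
theorem T7_factor {B : Type} [CommRing B] [IsDomain B] [CharZero B] (F : B[X])
    (hF : 0 < F.natDegree) : ∃ (G H a b : B[X]) (s c : B), s ≠ 0 ∧ c ≠ 0 ∧ 0 < G.natDegree ∧
      C s * F = G * H ∧ a * G + b * derivative G = C c := by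
  set K := FractionRing B with hK
  have hinj : Function.Injective (algebraMap B K) := IsFractionRing.injective B K
  have : CharZero K := charZero_of_injective_algebraMap hinj
  have hdeg : (F.map (algebraMap B K)).natDegree = F.natDegree := natDegree_map_eq_of_injective hinj F
  obtain ⟨g, hg, h, hgh⟩ := exists_irreducible_of_natDegree_pos (f := F.map (algebraMap B K))
    (by rw [hdeg]; exact hF)
  obtain ⟨a, b, hab⟩ := hg.separable
  obtain ⟨s1, hs1, h1⟩ := IsLocalization.integerNormalization_spec (nonZeroDivisors B) g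
  obtain ⟨s2, hs2, h2⟩ := IsLocalization.integerNormalization_spec (nonZeroDivisors B) h
  obtain ⟨sa, hsa, h3⟩ := IsLocalization.integerNormalization_spec (nonZeroDivisors B) a
  obtain ⟨sb, hsb, h4⟩ := IsLocalization.integerNormalization_spec (nonZeroDivisors B) b
  set G := IsLocalization.integerNormalization (nonZeroDivisors B) g
  set H := IsLocalization.integerNormalization (nonZeroDivisors B) h
  set A := IsLocalization.integerNormalization (nonZeroDivisors B) a
  set D := IsLocalization.integerNormalization (nonZeroDivisors B) b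
  have hsm : ∀ (s : B) (p : K[X]), s • p = C (algebraMap B K s) * p := by
    intro s p
    rw [← algebraMap_smul K s p, smul_eq_C_mul]
  rw [hsm] at h1 h2 h3 h4
  have hne : ∀ {s : B}, s ∈ nonZeroDivisors B → s ≠ 0 := fun hs => nonZeroDivisors.ne_zero hs
  have hne' : ∀ {s : B}, s ∈ nonZeroDivisors B → algebraMap B K s ≠ 0 := fun hs h0 =>
    hne hs (hinj (by rw [h0, map_zero]))
  refine ⟨G, H, C sb * A, C sa * D, s1 * s2, sa * sb * s1, mul_ne_zero (hne hs1) (hne hs2),
    mul_ne_zero (mul_ne_zero (hne hsa) (hne hsb)) (hne hs1), ?_, ?_, ?_⟩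
  · have : G.natDegree = g.natDegree := by
      rw [← natDegree_map_eq_of_injective hinj G, h1, natDegree_C_mul (hne' hs1)]
    rw [this]; exact hg.natDegree_pos
  · apply map_injective _ hinj
    rw [Polynomial.map_mul, Polynomial.map_mul, h1, h2, map_C, hgh, map_mul, C_mul]
    ring
  · apply map_injective _ hinj
    rw [Polynomial.map_add, Polynomial.map_mul, Polynomial.map_mul, Polynomial.map_mul,
      Polynomial.map_mul, ← derivative_map, h1, h3, h4, map_C, map_C, map_C, derivative_mul,
      derivative_C, zero_mul, zero_add]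
    simp only [map_mul]
    linear_combination (C (algebraMap B K sa) * C (algebraMap B K sb) * C (algebraMap B K s1)) * hab

/-- a nonzero polynomial does not vanish everywhere -/
theorem T7_point {τ A Ω : Type} [CommRing A] [Field Ω] [IsAlgClosed Ω] (ε : A →+* Ω)
    (hε : Function.Injective ε) (q : MvPolynomial τ A) (hq : q ≠ 0) :
    ∃ w : τ → Ω, MvPolynomial.eval₂ ε w q ≠ 0 := by
  by_contra hcon
  push Not at hcon
  apply hq
  apply MvPolynomial.map_injective ε hε
  rw [map_zero]
  apply MvPolynomial.funext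
  intro w
  rw [map_zero, MvPolynomial.eval_map]
  exact hcon w

theorem T7_pderiv {τ A : Type} [CommRing A] (p : MvPolynomial (Option τ) A) :
    MvPolynomial.optionEquivLeft A τ (MvPolynomial.pderiv none p) =
      Polynomial.derivative (MvPolynomial.optionEquivLeft A τ p) := by
  induction p using MvPolynomial.induction_on with
  | C a => simp
  | add p q hp hq => simp [hp, hq]
  | mul_X p i hp =>
    rw [Derivation.leibniz, map_add, smul_eq_mul, smul_eq_mul, map_mul, map_mul, hp, map_mul,
      Polynomial.derivative_mul]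
    cases i with
    | none => simp; ring
    | some j => simp; ring

theorem T7_eval {τ A Ω : Type} [CommRing A] [CommRing Ω] (ε : A →+* Ω) (w : τ → Ω) (ρ : Ω)
    (p : MvPolynomial (Option τ) A) :
    MvPolynomial.eval₂ ε (fun o => o.elim ρ w) p =
      Polynomial.eval₂ (MvPolynomial.eval₂Hom ε w) ρ (MvPolynomial.optionEquivLeft A τ p) := by
  induction p using MvPolynomial.induction_on with
  | C a => simp
  | add p q hp hq => rw [MvPolynomial.eval₂_add, hp, hq, map_add, Polynomial.eval₂_add]
  | mul_X p i hp =>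
    rw [MvPolynomial.eval₂_mul, hp, map_mul, Polynomial.eval₂_mul]
    cases i with
    | none => simp
    | some j => simp

/-- the statement for `Option τ` -/
theorem T7_option {τ A Ω : Type} [CommRing A] [IsDomain A] [CharZero A] [Field Ω] [IsAlgClosed Ω]
    (ε : A →+* Ω) (hε : Function.Injective ε) (F : MvPolynomial (Option τ) A)
    (hF : 0 < F.degreeOf none) : ∃ (G H s : MvPolynomial (Option τ) A) (v : Option τ → Ω),
      s * F = G * H ∧ MvPolynomial.eval₂ ε v G = 0 ∧
      MvPolynomial.eval₂ ε v (MvPolynomial.pderiv none G) ≠ 0 ∧ MvPolynomial.eval₂ ε v s ≠ 0 := by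
  set Φ := MvPolynomial.optionEquivLeft A τ with hΦ
  obtain ⟨G, H, a, b, s, c, hs, hc, hG, hsF, hab⟩ := T7_factor (Φ F)
    (by rw [hΦ, MvPolynomial.natDegree_optionEquivLeft]; exact hF)
  have hlc : G.leadingCoeff ≠ 0 := by
    rw [Ne, Polynomial.leadingCoeff_eq_zero]
    rintro rfl
    simp at hG
  obtain ⟨w, hw⟩ := T7_point ε hε (s * c * G.leadingCoeff) (mul_ne_zero (mul_ne_zero hs hc) hlc)
  rw [MvPolynomial.eval₂_mul, MvPolynomial.eval₂_mul] at hw
  have hw1 : MvPolynomial.eval₂ ε w s ≠ 0 := fun h => hw (by rw [h]; ring)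
  have hw2 : MvPolynomial.eval₂ ε w c ≠ 0 := fun h => hw (by rw [h]; ring)
  have hw3 : MvPolynomial.eval₂ ε w G.leadingCoeff ≠ 0 := fun h => hw (by rw [h]; ring)
  set f : MvPolynomial τ A →+* Ω := MvPolynomial.eval₂Hom ε w with hf
  have hdeg : (G.map f).natDegree = G.natDegree :=
    Polynomial.natDegree_map_of_leadingCoeff_ne_zero f hw3
  obtain ⟨ρ, hρ⟩ := IsAlgClosed.exists_root (G.map f) (by
    intro h0
    have h1 : (G.map f).natDegree = 0 := Polynomial.natDegree_eq_of_degree_eq_some h0
    rw [hdeg] at h1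
    omega)
  rw [Polynomial.IsRoot.def, Polynomial.eval_map] at hρ
  refine ⟨Φ.symm G, Φ.symm H, Φ.symm (Polynomial.C s), fun o => o.elim ρ w, ?_, ?_, ?_, ?_⟩
  · apply Φ.injective
    rw [map_mul, map_mul, AlgEquiv.apply_symm_apply, AlgEquiv.apply_symm_apply,
      AlgEquiv.apply_symm_apply, hsF]
  · rw [T7_eval, ← hΦ, AlgEquiv.apply_symm_apply]; exact hρ
  · rw [T7_eval, T7_pderiv, ← hΦ, AlgEquiv.apply_symm_apply]
    intro h0
    have h1 := congrArg (Polynomial.eval₂ f ρ) hab
    rw [Polynomial.eval₂_add, Polynomial.eval₂_mul, Polynomial.eval₂_mul, hρ, Polynomial.eval₂_C]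
      at h1
    rw [hf] at h1
    rw [h0, mul_zero, mul_zero, add_zero] at h1
    exact hw2 h1.symm
  · rw [T7_eval, ← hΦ, AlgEquiv.apply_symm_apply, Polynomial.eval₂_C]; exact hw1

theorem exists_simple (m : MonomialOrder ℕ) {A : Type} [CommRing A] [IsDomain A] [CharZero A]
    {Ω : Type} [Field Ω] [IsAlgClosed Ω] (ε : A →+* Ω) (hε : Function.Injective ε)
    (F : MvPolynomial (ℕ →₀ ℕ) A) (hF : F ∉ Set.range MvPolynomial.C) :
    ∃ (G H s : MvPolynomial (ℕ →₀ ℕ) A) (α : ℕ →₀ ℕ) (v0 : (ℕ →₀ ℕ) → Ω),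
      s * F = G * H ∧ (∀ γ ∈ G.vars, m.toSyn γ ≤ m.toSyn α) ∧
      (∀ γ ∈ s.vars, m.toSyn γ ≤ m.toSyn α) ∧ MvPolynomial.eval₂ ε v0 G = 0 ∧
      MvPolynomial.eval₂ ε v0 (MvPolynomial.pderiv α G) ≠ 0 ∧ MvPolynomial.eval₂ ε v0 s ≠ 0 := by
  classical
  have hne : F.vars.Nonempty := by
    by_contra h
    rw [Finset.not_nonempty_iff_eq_empty] at h
    exact hF ⟨_, (MvPolynomial.vars_eq_empty_iff_eq_C.1 h).symm⟩
  obtain ⟨α, hα, hmax⟩ := Finset.exists_max_image F.vars (fun γ => m.toSyn γ) hne
  set τ := {γ : ℕ →₀ ℕ // m.toSyn γ < m.toSyn α} with hτ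
  set ι : Option τ → (ℕ →₀ ℕ) := fun o => o.elim α (fun γ => γ.1) with hι
  have hinj : Function.Injective ι := by
    rintro (_ | a) (_ | b) h
    · rfl
    · exact absurd (show m.toSyn b.1 < m.toSyn α from b.2) (by
        have : α = b.1 := h
        rw [← this]; exact lt_irrefl _)
    · exact absurd (show m.toSyn a.1 < m.toSyn α from a.2) (by
        have : a.1 = α := h
        rw [this]; exact lt_irrefl _)
    · have : a.1 = b.1 := h
      rw [Subtype.ext this]
  have hle : ∀ o, m.toSyn (ι o) ≤ m.toSyn α := by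
    rintro (_ | a)
    · exact le_refl _
    · exact a.2.le
  obtain ⟨F', hF'⟩ := MvPolynomial.exists_rename_eq_of_vars_subset_range F ι hinj (by
    intro γ hγ
    rcases (hmax γ hγ).lt_or_eq with h | h
    · exact ⟨some ⟨γ, h⟩, rfl⟩
    · exact ⟨none, (m.toSyn.injective h).symm⟩)
  have hdeg : 0 < F'.degreeOf none := by
    rw [Nat.pos_iff_ne_zero]
    intro h0
    have h1 : F.degreeOf α = 0 := by
      rw [← hF']
      have := MvPolynomial.degreeOf_rename_of_injective (p := F') hinj none
      rw [h0] at this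
      exact this
    rw [MvPolynomial.mem_vars] at hα
    obtain ⟨d, hd, hd'⟩ := hα
    have h2 := MvPolynomial.monomial_le_degreeOf α hd
    rw [h1] at h2
    exact (Finsupp.mem_support_iff.1 hd') (by omega)
  obtain ⟨G, H, s, v, h1, h2, h3, h4⟩ := T7_option ε hε F' hdeg
  set v0 : (ℕ →₀ ℕ) → Ω := fun γ => if h : ∃ o, ι o = γ then v h.choose else 0 with hv0
  have hv : v0 ∘ ι = v := by
    funext o
    have hex : ∃ o', ι o' = ι o := ⟨o, rfl⟩
    simp only [Function.comp, hv0, dif_pos hex]
    rw [hinj hex.choose_spec]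
  have hvars : ∀ p : MvPolynomial (Option τ) A, ∀ γ ∈ (MvPolynomial.rename ι p).vars,
      m.toSyn γ ≤ m.toSyn α := by
    intro p γ hγ
    obtain ⟨o, _, rfl⟩ := MvPolynomial.mem_vars_rename ι p hγ
    exact hle o
  refine ⟨MvPolynomial.rename ι G, MvPolynomial.rename ι H, MvPolynomial.rename ι s, α, v0,
    ?_, hvars G, hvars s, ?_, ?_, ?_⟩
  · rw [← hF', ← map_mul, ← map_mul, h1]
  · rw [MvPolynomial.eval₂_rename, hv]; exact h2
  · have : α = ι none := rfl
    rw [this, MvPolynomial.pderiv_rename hinj, MvPolynomial.eval₂_rename, hv]; exact h3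
  · rw [MvPolynomial.eval₂_rename, hv]; exact h4

end Pool.Agent.H49R2.ACA
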