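import Pool.Agent.H49R2.ACA.T4
import Pool.Agent.H49R2.ACA.T6
import Pool.Agent.H49R2.ACA.T7

/-! Task T8 (helper267). -/

set_option autoImplicit false

namespace Pool.Agent.H49R2.ACA

open Finset
open scoped Pointwise

theorem exists_monomialOrder : Nonempty (MonomialOrder.{0, 0} ℕ) := by
  let m : MonomialOrder.{0, 0} ℕᵒᵈ := MonomialOrder.degLex
  refine ⟨{
    syn := m.syn
    toSyn := (Finsupp.domCongr OrderDual.toDual).trans m.toSyn
    toSyn_monotone := ?_ }⟩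
  intro a b hab
  apply m.toSyn_monotone
  intro i
  exact hab (OrderDual.ofDual i)

theorem exists_solution {A : Type} [CommRing A] [IsDomain A] [CharZero A] (δ : DerFam A)
    (Δ : DerFam (MvPolynomial (ℕ →₀ ℕ) A))
    (hC : ∀ i a, Δ.d i (MvPolynomial.C a) = MvPolynomial.C (δ.d i a))
    (hX : ∀ i γ, Δ.d i (MvPolynomial.X γ) = MvPolynomial.X (γ + Finsupp.single i 1))
    {Ω : Type} [Field Ω] [CharZero Ω] [IsAlgClosed Ω] (ε : A →+* Ω) (hε : Function.Injective ε)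
    (F : MvPolynomial (ℕ →₀ ℕ) A) (hF : F ∉ Set.range MvPolynomial.C) :
    ∃ T : MvPolynomial (ℕ →₀ ℕ) A →+* MvPowerSeries ℕ Ω,
      (∀ a, MvPowerSeries.constantCoeff (T (MvPolynomial.C a)) = ε a) ∧
      (∀ i p, (dps Ω).d i (T p) = T (Δ.d i p)) ∧ T F = 0 := by
  obtain ⟨m⟩ := exists_monomialOrder
  obtain ⟨G, H, s, α, v0, hsF, hG, hs, h0, h1, h2⟩ := exists_simple m ε hε F hF
  obtain ⟨v, hv, hT⟩ := solve_simple m δ Δ hC hX ε G α hG v0 h0 h1
  obtain ⟨T, hT0, hT1⟩ := exists_taylor Δ (MvPolynomial.eval₂Hom ε v)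
  refine ⟨T, ?_, hT1, ?_⟩
  · intro a
    rw [hT0, MvPolynomial.coe_eval₂Hom, MvPolynomial.eval₂_C]
  · have hTG : T G = 0 := hT T (fun p => hT0 p) hT1
    have hprod : T s * T F = 0 := by
      rw [← map_mul, hsF, map_mul, hTG, zero_mul]
    have hTs : T s ≠ 0 := by
      intro h3
      apply h2
      have h4 := hT0 s
      rw [h3, map_zero] at h4
      have h5 : MvPolynomial.eval₂Hom ε v s = MvPolynomial.eval₂Hom ε v0 s :=
        MvPolynomial.eval₂Hom_congr' rfl (fun γ hγ _ => hv γ (hs γ hγ)) rfl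
      rw [h5] at h4
      exact h4.symm
    exact (mul_eq_zero.mp hprod).resolve_left hTs

end Pool.Agent.H49R2.ACA
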