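import Pool.Agent.H49R2.ACA.T5
import Pool.Agent.H49R2.ACA.T8

/-!
# T9: one step of the differential closure on `ℂ[[s_0, s_1, ...]]`
-/

namespace Pool.Agent.H49R2.ACA

open Finset

/-! ### algebraic preliminaries -/

theorem T9_isDomain : IsDomain (MvPowerSeries ℕ ℂ) := NoZeroDivisors.to_isDomain _

theorem T9_charZero : CharZero (MvPowerSeries ℕ ℂ) :=
  charZero_of_injective_algebraMap (R := ℂ) (A := MvPowerSeries ℕ ℂ)
    (FaithfulSMul.algebraMap_injective ℂ (MvPowerSeries ℕ ℂ))

theorem T9_card : Cardinal.mk (MvPowerSeries ℕ ℂ) = Cardinal.continuum := by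
  have h : Cardinal.mk (MvPowerSeries ℕ ℂ) = Cardinal.mk ℂ ^ Cardinal.mk (ℕ →₀ ℕ) := by
    change Cardinal.mk ((ℕ →₀ ℕ) → ℂ) = _
    simp
  rw [h, Cardinal.mk_complex]
  have h2 : Cardinal.mk (ℕ →₀ ℕ) = Cardinal.aleph0 := Cardinal.mk_eq_aleph0 _
  rw [h2, Cardinal.continuum_power_aleph0]

theorem T9_eps : ∃ ε : MvPowerSeries ℕ ℂ →+* ℂ, Function.Injective ε := by
  have := T9_isDomain
  have := T9_charZero
  have : CharZero (FractionRing (MvPowerSeries ℕ ℂ)) :=
    IsFractionRing.charZero (MvPowerSeries ℕ ℂ)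
  have : CharZero (AlgebraicClosure (FractionRing (MvPowerSeries ℕ ℂ))) :=
    AlgebraicClosure.instCharZero _
  have hc1 : Cardinal.mk (FractionRing (MvPowerSeries ℕ ℂ)) = Cardinal.continuum := by
    rw [Cardinal.mk_fractionRing, T9_card]
  have hc2 : Cardinal.mk (AlgebraicClosure (FractionRing (MvPowerSeries ℕ ℂ))) =
      Cardinal.continuum := by
    apply le_antisymm
    · refine (Algebra.IsAlgebraic.cardinalMk_le_max (FractionRing (MvPowerSeries ℕ ℂ))
        (AlgebraicClosure (FractionRing (MvPowerSeries ℕ ℂ)))).trans ?_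
      rw [hc1]
      exact max_le le_rfl Cardinal.aleph0_le_continuum
    · rw [← hc1]
      exact Cardinal.mk_le_of_injective
        (algebraMap (FractionRing (MvPowerSeries ℕ ℂ))
          (AlgebraicClosure (FractionRing (MvPowerSeries ℕ ℂ)))).injective
  obtain ⟨e⟩ := IsAlgClosed.ringEquiv_of_equiv_of_charZero
    (K := AlgebraicClosure (FractionRing (MvPowerSeries ℕ ℂ))) (L := ℂ)
    (by rw [hc2]; exact Cardinal.aleph0_lt_continuum)
    (Cardinal.eq.1 (by rw [hc2, Cardinal.mk_complex]))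
  refine ⟨(e : AlgebraicClosure (FractionRing (MvPowerSeries ℕ ℂ)) →+* ℂ).comp
    ((algebraMap (FractionRing (MvPowerSeries ℕ ℂ))
      (AlgebraicClosure (FractionRing (MvPowerSeries ℕ ℂ)))).comp
      (algebraMap (MvPowerSeries ℕ ℂ) (FractionRing (MvPowerSeries ℕ ℂ)))), ?_⟩
  intro x y hxy
  have h1 := e.injective hxy
  have h2 := (algebraMap (FractionRing (MvPowerSeries ℕ ℂ))
      (AlgebraicClosure (FractionRing (MvPowerSeries ℕ ℂ)))).injective h1
  exact IsFractionRing.injective (MvPowerSeries ℕ ℂ) (FractionRing (MvPowerSeries ℕ ℂ)) h2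

/-! ### low elements -/

section Low

variable {A : Type} [CommRing A] (δ : DerFam A) (n : ℕ)

theorem T9_low_zero : Low δ n 0 := fun _ _ => map_zero _

theorem T9_low_add {a b : A} (ha : Low δ n a) (hb : Low δ n b) : Low δ n (a + b) := fun i hi => by
  rw [map_add, ha i hi, hb i hi, add_zero]

theorem T9_low_mul {a b : A} (ha : Low δ n a) (hb : Low δ n b) : Low δ n (a * b) := fun i hi => by
  rw [δ.leib, ha i hi, hb i hi, zero_mul, mul_zero, add_zero]

theorem T9_low_d {a : A} (ha : Low δ n a) (j : ℕ) : Low δ n (δ.d j a) := fun i hi => by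
  rw [δ.comm, ha i hi, map_zero]

theorem T9_low_eval (t : DTerm A) (ht : t.ConstsIn (Low δ n)) {x : A} (hx : Low δ n x) :
    Low δ n (t.eval δ x) := by
  induction t with
  | const a => exact ht
  | var => exact hx
  | add s t hs h2 => exact T9_low_add δ n (hs ht.1) (h2 ht.2)
  | mul s t hs h2 => exact T9_low_mul δ n (hs ht.1) (h2 ht.2)
  | der i t h => exact T9_low_d δ n (h ht) i

end Low

/-- remove the derivations of index at least `n` -/
def T9_cut {A : Type} [CommRing A] (n : ℕ) : DTerm A → DTerm A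
  | .const a => .const a
  | .var => .var
  | .add s t => .add (T9_cut n s) (T9_cut n t)
  | .mul s t => .mul (T9_cut n s) (T9_cut n t)
  | .der i t => if i < n then .der i (T9_cut n t) else .const 0

theorem T9_cut_eval {A : Type} [CommRing A] (δ : DerFam A) (n : ℕ) (t : DTerm A)
    (ht : t.ConstsIn (Low δ n)) {x : A} (hx : Low δ n x) :
    (T9_cut n t).eval δ x = t.eval δ x := by
  induction t with
  | const a => rfl
  | var => rfl
  | add s t hs h2 =>
    change (T9_cut n s).eval δ x + (T9_cut n t).eval δ x = _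
    rw [hs ht.1, h2 ht.2]; rfl
  | mul s t hs h2 =>
    change (T9_cut n s).eval δ x * (T9_cut n t).eval δ x = _
    rw [hs ht.1, h2 ht.2]; rfl
  | der i t h =>
    unfold T9_cut
    split_ifs with hi
    · change δ.d i ((T9_cut n t).eval δ x) = _
      rw [h ht]; rfl
    · change (0 : A) = δ.d i (t.eval δ x)
      exact (T9_low_eval δ n t ht hx i (not_lt.1 hi)).symm

theorem T9_cut_map {A B : Type} [CommRing A] [CommRing B] (T : A →+* B) (n : ℕ) (t : DTerm A) :
    T9_cut n (t.map T) = (T9_cut n t).map T := by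
  induction t with
  | const a => rfl
  | var => rfl
  | add s t hs h2 =>
    change DTerm.add (T9_cut n (s.map T)) (T9_cut n (t.map T)) = _
    rw [hs, h2]; rfl
  | mul s t hs h2 =>
    change DTerm.mul (T9_cut n (s.map T)) (T9_cut n (t.map T)) = _
    rw [hs, h2]; rfl
  | der i t h =>
    change (if i < n then DTerm.der i (T9_cut n (t.map T)) else DTerm.const 0) =
      (if i < n then DTerm.der i (T9_cut n t) else DTerm.const 0).map T
    split_ifs with hi
    · rw [h]; rfl
    · change _ = DTerm.const (T 0)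
      rw [map_zero]

theorem T9_consts_map {A B : Type} (T : A → B) (p : A → Prop) (q : B → Prop)
    (h : ∀ a, p a → q (T a)) (t : DTerm A) (ht : t.ConstsIn p) : (t.map T).ConstsIn q := by
  induction t with
  | const a => exact h a ht
  | var => trivial
  | add s t hs h2 => exact ⟨hs ht.1, h2 ht.2⟩
  | mul s t hs h2 => exact ⟨hs ht.1, h2 ht.2⟩
  | der i t h => exact h ht

theorem T9_map_id {A : Type} (t : DTerm A) : t.map (fun a => a) = t := by
  induction t with
  | const a => rfl
  | var => rfl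
  | add s t hs h2 => change DTerm.add _ _ = _; rw [hs, h2]
  | mul s t hs h2 => change DTerm.mul _ _ = _; rw [hs, h2]
  | der i t h => change DTerm.der i _ = _; rw [h]

/-- the differential polynomial of a term -/
noncomputable def T9_poly {A : Type} [CommRing A] (Δ : DerFam (MvPolynomial (ℕ →₀ ℕ) A)) :
    DTerm A → MvPolynomial (ℕ →₀ ℕ) A
  | .const a => MvPolynomial.C a
  | .var => MvPolynomial.X 0
  | .add s t => T9_poly Δ s + T9_poly Δ t
  | .mul s t => T9_poly Δ s * T9_poly Δ t
  | .der i t => Δ.d i (T9_poly Δ t)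

theorem T9_poly_eval {A B : Type} [CommRing A] [CommRing B]
    (Δ : DerFam (MvPolynomial (ℕ →₀ ℕ) A)) (δB : DerFam B)
    (φ : MvPolynomial (ℕ →₀ ℕ) A →+* B) (hφ : ∀ i p, φ (Δ.d i p) = δB.d i (φ p))
    (T : A → B) (hT : ∀ a, φ (MvPolynomial.C a) = T a) (t : DTerm A) :
    φ (T9_poly Δ t) = (t.map T).eval δB (φ (MvPolynomial.X 0)) := by
  induction t with
  | const a => exact hT a
  | var => rfl
  | add s t hs h2 =>
    change φ (T9_poly Δ s + T9_poly Δ t) = (s.map T).eval δB _ + (t.map T).eval δB _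
    rw [map_add, hs, h2]
  | mul s t hs h2 =>
    change φ (T9_poly Δ s * T9_poly Δ t) = (s.map T).eval δB _ * (t.map T).eval δB _
    rw [map_mul, hs, h2]
  | der i t h =>
    change φ (Δ.d i (T9_poly Δ t)) = δB.d i ((t.map T).eval δB _)
    rw [hφ, h]

/-! ### evaluation of differential polynomials -/

section Ev

variable {A : Type} [CommRing A] (δ : DerFam A)

instance T9_lc : LeftCommutative (fun (i : ℕ) (y : A) => δ.d i y) :=
  ⟨fun i j y => δ.comm i j y⟩

/-- iterated derivations -/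
noncomputable def T9_P (x : A) (γ : ℕ →₀ ℕ) : A :=
  Multiset.foldr (fun (i : ℕ) (y : A) => δ.d i y) x (Finsupp.toMultiset γ)

theorem T9_P_zero (x : A) : T9_P δ x 0 = x := by
  unfold T9_P
  rw [map_zero, Multiset.foldr_zero]

theorem T9_P_succ (x : A) (γ : ℕ →₀ ℕ) (i : ℕ) :
    T9_P δ x (γ + Finsupp.single i 1) = δ.d i (T9_P δ x γ) := by
  unfold T9_P
  rw [map_add, Finsupp.toMultiset_single, one_smul, add_comm, Multiset.singleton_add,
    Multiset.foldr_cons]

theorem T9_ev (Δ : DerFam (MvPolynomial (ℕ →₀ ℕ) A))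
    (hC : ∀ i a, Δ.d i (MvPolynomial.C a) = MvPolynomial.C (δ.d i a))
    (hX : ∀ i γ, Δ.d i (MvPolynomial.X γ) = MvPolynomial.X (γ + Finsupp.single i 1)) (x : A)
    (i : ℕ) (p : MvPolynomial (ℕ →₀ ℕ) A) :
    MvPolynomial.eval (T9_P δ x) (Δ.d i p) = δ.d i (MvPolynomial.eval (T9_P δ x) p) := by
  induction p using MvPolynomial.induction_on with
  | C a => rw [hC, MvPolynomial.eval_C, MvPolynomial.eval_C]
  | add p q hp hq => rw [map_add, map_add, map_add, map_add, hp, hq]
  | mul_X p γ hp =>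
    rw [Δ.leib, map_add, map_mul, map_mul, hp, hX, map_mul, δ.leib, MvPolynomial.eval_X,
      MvPolynomial.eval_X, T9_P_succ]

theorem T9_not_const (Δ : DerFam (MvPolynomial (ℕ →₀ ℕ) A))
    (hC : ∀ i a, Δ.d i (MvPolynomial.C a) = MvPolynomial.C (δ.d i a))
    (hX : ∀ i γ, Δ.d i (MvPolynomial.X γ) = MvPolynomial.X (γ + Finsupp.single i 1))
    (t : DTerm A) (x y : A) (hxy : t.eval δ x ≠ t.eval δ y) :
    T9_poly Δ t ∉ Set.range MvPolynomial.C := by
  rintro ⟨c, hc⟩
  have key : ∀ z : A, t.eval δ z = c := fun z => by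
    have h := T9_poly_eval Δ δ (MvPolynomial.eval (T9_P δ z)) (T9_ev δ Δ hC hX z)
      (fun a => a) (fun a => MvPolynomial.eval_C a) t
    rw [← hc, MvPolynomial.eval_C, MvPolynomial.eval_X, T9_P_zero, T9_map_id] at h
    exact h.symm
  exact hxy ((key x).trans (key y).symm)

end Ev

/-! ### the projection -/

/-- good exponents -/
def T9_good (n : ℕ) (m : ℕ →₀ ℕ) : Prop := ∀ i, n ≤ i → m i = 0

theorem T9_good_add (n : ℕ) (p q : ℕ →₀ ℕ) : T9_good n (p + q) ↔ T9_good n p ∧ T9_good n q := by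
  constructor
  · intro h
    refine ⟨fun i hi => ?_, fun i hi => ?_⟩
    · have := h i hi
      rw [Finsupp.add_apply] at this
      omega
    · have := h i hi
      rw [Finsupp.add_apply] at this
      omega
  · rintro ⟨h1, h2⟩ i hi
    rw [Finsupp.add_apply, h1 i hi, h2 i hi]

open Classical in
/-- projection to the series in the first `n` variables, as a function -/
noncomputable def T9_pif (n : ℕ) (f : MvPowerSeries ℕ ℂ) : MvPowerSeries ℕ ℂ :=
  fun m => if T9_good n m then MvPowerSeries.coeff m f else 0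

open Classical in
theorem T9_coeff_pif (n : ℕ) (f : MvPowerSeries ℕ ℂ) (m : ℕ →₀ ℕ) :
    MvPowerSeries.coeff m (T9_pif n f) =
      if T9_good n m then MvPowerSeries.coeff m f else 0 := rfl

/-- projection to the series in the first `n` variables -/
noncomputable def T9_pi (n : ℕ) : MvPowerSeries ℕ ℂ →+* MvPowerSeries ℕ ℂ where
  toFun := T9_pif n
  map_zero' := by
    classical
    ext m
    rw [T9_coeff_pif, map_zero, ite_self]
  map_one' := by
    classical
    ext m
    rw [T9_coeff_pif]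
    split_ifs with h
    · rfl
    · rw [MvPowerSeries.coeff_one, if_neg]
      rintro rfl
      exact h (fun _ _ => rfl)
  map_add' f g := by
    classical
    ext m
    rw [map_add, T9_coeff_pif, T9_coeff_pif, T9_coeff_pif]
    split_ifs with h
    · rw [map_add]
    · rw [add_zero]
  map_mul' f g := by
    classical
    ext m
    rw [MvPowerSeries.coeff_mul, T9_coeff_pif]
    split_ifs with h
    · rw [MvPowerSeries.coeff_mul]
      refine Finset.sum_congr rfl fun p hp => ?_
      rw [Finset.HasAntidiagonal.mem_antidiagonal] at hp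
      rw [← hp, T9_good_add] at h
      rw [T9_coeff_pif, T9_coeff_pif, if_pos h.1, if_pos h.2]
    · symm
      refine Finset.sum_eq_zero fun p hp => ?_
      rw [Finset.HasAntidiagonal.mem_antidiagonal] at hp
      rw [← hp, T9_good_add, not_and_or] at h
      rw [T9_coeff_pif, T9_coeff_pif]
      rcases h with h | h
      · rw [if_neg h, zero_mul]
      · rw [if_neg h, mul_zero]

open Classical in
theorem T9_coeff_pi (n : ℕ) (f : MvPowerSeries ℕ ℂ) (m : ℕ →₀ ℕ) :
    MvPowerSeries.coeff m (T9_pi n f) =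
      if T9_good n m then MvPowerSeries.coeff m f else 0 := rfl

theorem T9_good_single (n i : ℕ) : T9_good n (Finsupp.single i 1) ↔ i < n := by
  constructor
  · intro h
    by_contra hi
    have := h i (not_lt.1 hi)
    rw [Finsupp.single_eq_same] at this
    exact one_ne_zero this
  · intro hi j hj
    rw [Finsupp.single_eq_of_ne]
    omega

theorem T9_pi_d (n i : ℕ) (hi : i < n) (f : MvPowerSeries ℕ ℂ) :
    T9_pi n ((dps ℂ).d i f) = (dps ℂ).d i (T9_pi n f) := by
  classical
  ext m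
  rw [T9_coeff_pi, dps_d, dps_d, MvPowerSeries.coeff_pderiv, MvPowerSeries.coeff_pderiv,
    T9_coeff_pi, T9_good_add, T9_good_single]
  by_cases h : T9_good n m
  · rw [if_pos h, if_pos ⟨h, hi⟩]
  · rw [if_neg h, if_neg (fun h' => h h'.1), zero_mul]

theorem T9_pi_low (n : ℕ) (f : MvPowerSeries ℕ ℂ) : Low (dps ℂ) n (T9_pi n f) := by
  classical
  intro i hi
  ext m
  rw [dps_d, MvPowerSeries.coeff_pderiv, T9_coeff_pi, T9_good_add, T9_good_single,
    if_neg (fun h => absurd h.2 (not_lt.2 hi)), zero_mul, map_zero]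

theorem T9_pi_of_low (n : ℕ) (f : MvPowerSeries ℕ ℂ) (hf : Low (dps ℂ) n f) :
    T9_pi n f = f := by
  classical
  ext m
  rw [T9_coeff_pi]
  split_ifs with h
  · rfl
  · unfold T9_good at h
    push Not at h
    obtain ⟨i, hi, hm⟩ := h
    have h1 := congrArg (MvPowerSeries.coeff (m - Finsupp.single i 1)) (hf i hi)
    rw [dps_d, MvPowerSeries.coeff_pderiv, map_zero] at h1
    have h2 : m - Finsupp.single i 1 + Finsupp.single i 1 = m := by
      apply tsub_add_cancel_of_le
      rw [Finsupp.single_le_iff]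
      omega
    rw [h2] at h1
    rcases mul_eq_zero.1 h1 with h3 | h3
    · exact h3.symm
    · exfalso
      have : (((m - Finsupp.single i 1 : ℕ →₀ ℕ) i : ℕ) : ℂ) + 1 ≠ 0 := by
        have h4 := Nat.cast_add_one_ne_zero (R := ℂ) ((m - Finsupp.single i 1 : ℕ →₀ ℕ) i)
        exact h4
      exact this h3

theorem T9_pi_eval (n : ℕ) (t : DTerm (MvPowerSeries ℕ ℂ)) (ht : t.ConstsIn (Low (dps ℂ) n))
    (x : MvPowerSeries ℕ ℂ) :
    T9_pi n ((T9_cut n t).eval (dps ℂ) x) = (T9_cut n t).eval (dps ℂ) (T9_pi n x) := by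
  induction t with
  | const a => exact T9_pi_of_low n a ht
  | var => rfl
  | add s t hs h2 =>
    change T9_pi n ((T9_cut n s).eval (dps ℂ) x + (T9_cut n t).eval (dps ℂ) x) =
      (T9_cut n s).eval (dps ℂ) (T9_pi n x) + (T9_cut n t).eval (dps ℂ) (T9_pi n x)
    rw [map_add, hs ht.1, h2 ht.2]
  | mul s t hs h2 =>
    change T9_pi n ((T9_cut n s).eval (dps ℂ) x * (T9_cut n t).eval (dps ℂ) x) =
      (T9_cut n s).eval (dps ℂ) (T9_pi n x) * (T9_cut n t).eval (dps ℂ) (T9_pi n x)
    rw [map_mul, hs ht.1, h2 ht.2]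
  | der i t h =>
    unfold T9_cut
    split_ifs with hi
    · change T9_pi n ((dps ℂ).d i ((T9_cut n t).eval (dps ℂ) x)) =
        (dps ℂ).d i ((T9_cut n t).eval (dps ℂ) (T9_pi n x))
      rw [T9_pi_d n i hi, h ht]
    · exact map_zero (T9_pi n)

/-! ### the step -/

theorem exists_step : ∃ T : MvPowerSeries ℕ ℂ →+* MvPowerSeries ℕ ℂ, Function.Injective T ∧
    (∀ i a, T ((dps ℂ).d i a) = (dps ℂ).d i (T a)) ∧
    ∀ (n : ℕ) (t : DTerm (MvPowerSeries ℕ ℂ)), t.ConstsIn (Low (dps ℂ) n) →
      (∃ a b, Low (dps ℂ) n a ∧ Low (dps ℂ) n b ∧ t.eval (dps ℂ) a ≠ t.eval (dps ℂ) b) →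
      ∃ a, Low (dps ℂ) n a ∧ (t.map T).eval (dps ℂ) a = 0 := by
  have := T9_isDomain
  have := T9_charZero
  obtain ⟨ε, hε⟩ := T9_eps
  obtain ⟨T, hT1, hT2⟩ := exists_taylor (dps ℂ) ε
  refine ⟨T, ?_, fun i a => (hT2 i a).symm, ?_⟩
  · intro x y hxy
    apply hε
    rw [← hT1, ← hT1, hxy]
  · intro n t ht hab
    obtain ⟨a, b, ha, hb, hne⟩ := hab
    obtain ⟨Δ, hC, hX⟩ := exists_dpoly (dps ℂ)
    have hne' : (T9_cut n t).eval (dps ℂ) a ≠ (T9_cut n t).eval (dps ℂ) b := by
      rw [T9_cut_eval (dps ℂ) n t ht ha, T9_cut_eval (dps ℂ) n t ht hb]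
      exact hne
    have hF := T9_not_const (dps ℂ) Δ hC hX (T9_cut n t) a b hne'
    obtain ⟨T', h1, h2, h3⟩ := exists_solution (dps ℂ) Δ hC hX ε hε _ hF
    have hTT : T'.comp MvPolynomial.C = T := by
      apply taylor_unique (dps ℂ)
      · intro a
        rw [hT1]
        exact h1 a
      · intro i a
        change (dps ℂ).d i (T' (MvPolynomial.C a)) = T' (MvPolynomial.C ((dps ℂ).d i a))
        rw [h2, hC]
      · exact hT2
    have hTT' : ∀ a, T' (MvPolynomial.C a) = T a := fun a => by rw [← hTT]; rfl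
    have hev := T9_poly_eval Δ (dps ℂ) T' (fun i p => (h2 i p).symm) T hTT' (T9_cut n t)
    rw [h3] at hev
    have hTlow : ∀ c, Low (dps ℂ) n c → Low (dps ℂ) n (T c) := fun c hc i hi => by
      rw [hT2, hc i hi, map_zero]
    have hmt : (t.map T).ConstsIn (Low (dps ℂ) n) := T9_consts_map T _ _ hTlow t ht
    refine ⟨T9_pi n (T' (MvPolynomial.X 0)), T9_pi_low n _, ?_⟩
    rw [← T9_cut_eval (dps ℂ) n (t.map T) hmt (T9_pi_low n _), ← T9_pi_eval n _ hmt,
      T9_cut_map, ← hev, map_zero]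

end Pool.Agent.H49R2.ACA
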